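import Pool.Agent.Lib.MP_f406e2_lc_OC.Defs

/-! # Colouring along chains -/

namespace Pool.Agent.Lib.MP_f406e2_lc_OC

private theorem Chain_noCyc {S : Type*} {f : S → S} (hf : Function.Injective f)
    (hac : ∀ x, ∀ n : ℕ, 0 < n → f^[n] x ≠ x) {x : S} {m n : ℕ} (h : f^[m] x = f^[n] x) :
    m = n := by
  have key : ∀ {m n : ℕ}, m < n → f^[m] x = f^[n] x → False := by
    intro m n hmn h
    have h1 : f^[m] (f^[n - m] x) = f^[m] x := by
      rw [← Function.iterate_add_apply, Nat.add_sub_cancel' hmn.le, h]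
    exact hac x (n - m) (Nat.sub_pos_of_lt hmn) (hf.iterate m h1)
  rcases lt_trichotomy m n with h1 | h1 | h1
  · exact (key h1 h).elim
  · exact h1
  · exact (key h1 h.symm).elim

/-- Two points are in the same chain. -/
private def Chain_setoid {S : Type*} (f : S → S) : Setoid S where
  r u v := ∃ a b : ℕ, f^[a] u = f^[b] v
  iseqv :=
    { refl := fun _ => ⟨0, 0, rfl⟩
      symm := fun ⟨a, b, h⟩ => ⟨b, a, h.symm⟩
      trans := by
        rintro u v w ⟨a, b, h⟩ ⟨c, d, h'⟩
        refine ⟨c + a, b + d, ?_⟩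
        rw [Function.iterate_add_apply, h, ← Function.iterate_add_apply, add_comm c b,
          Function.iterate_add_apply, h', ← Function.iterate_add_apply] }

/-- an injective map without cycles has an alternating 2-colouring in which the points outside the
range have colour `False` -/
theorem chain {S : Type*} (f : S → S) (hf : Function.Injective f)
    (hac : ∀ x, ∀ n : ℕ, 0 < n → f^[n] x ≠ x) :
    ∃ χ : S → Prop, (∀ x, χ (f x) ↔ ¬ χ x) ∧ ∀ x, x ∉ Set.range f → ¬ χ x := by
  classical
  have hrep : ∀ q : Quotient (Chain_setoid f), ∃ w : S, Quotient.mk (Chain_setoid f) w = q ∧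
      ((∃ v, Quotient.mk (Chain_setoid f) v = q ∧ v ∉ Set.range f) → w ∉ Set.range f) := by
    intro q
    by_cases h : ∃ v, Quotient.mk (Chain_setoid f) v = q ∧ v ∉ Set.range f
    · obtain ⟨v, h1, h2⟩ := h
      exact ⟨v, h1, fun _ => h2⟩
    · exact ⟨q.out, Quotient.out_eq q, fun h' => absurd h' h⟩
  choose rep hrep1 hrep2 using hrep
  have hex : ∀ u : S, ∃ a b : ℕ, f^[a] u = f^[b] (rep (Quotient.mk (Chain_setoid f) u)) :=
    fun u => Quotient.exact (hrep1 (Quotient.mk (Chain_setoid f) u)).symm
  have hpar : ∀ {u w : S} {a b a' b' : ℕ}, f^[a] u = f^[b] w → f^[a'] u = f^[b'] w →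
      a + b' = a' + b := by
    intro u w a b a' b' h h'
    refine Chain_noCyc (x := u) hf hac ?_
    rw [add_comm a b', Function.iterate_add_apply, h, ← Function.iterate_add_apply,
      add_comm b' b, Function.iterate_add_apply, ← h', ← Function.iterate_add_apply,
      add_comm b a']
  refine ⟨fun u => ∃ a b : ℕ, f^[a] u = f^[b] (rep (Quotient.mk (Chain_setoid f) u)) ∧
    Odd (a + b), ?_, ?_⟩
  · intro x
    have hx : Quotient.mk (Chain_setoid f) (f x) = Quotient.mk (Chain_setoid f) x :=
      Quotient.sound ⟨0, 1, rfl⟩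
    obtain ⟨a, b, hab⟩ := hex x
    have hab' : f^[a] (f x) = f^[b + 1] (rep (Quotient.mk (Chain_setoid f) x)) := by
      rw [Function.iterate_succ_apply', ← hab, ← Function.iterate_succ_apply,
        Function.iterate_succ_apply']
    simp only [hx]
    constructor
    · rintro ⟨c, d, hcd, hodd⟩ ⟨c', d', hcd', hodd'⟩
      have h1 := hpar hcd hab'
      have h2 := hpar hcd' hab
      rw [Nat.odd_iff] at hodd hodd'
      omega
    · intro h
      refine ⟨a, b + 1, hab', ?_⟩
      by_contra h1
      refine h ⟨a, b, hab, ?_⟩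
      rw [Nat.odd_iff] at h1 ⊢
      omega
  · rintro x hx ⟨a, b, hab, hodd⟩
    have hw := hrep2 (Quotient.mk (Chain_setoid f) x) ⟨x, rfl, hx⟩
    have hne : a ≠ b := by
      rintro rfl
      rw [Nat.odd_iff] at hodd
      omega
    rcases lt_or_gt_of_ne hne with h1 | h1
    · apply hx
      have h2 : f^[a] x = f^[a] (f^[b - a] (rep (Quotient.mk (Chain_setoid f) x))) := by
        rw [← Function.iterate_add_apply, Nat.add_sub_cancel' h1.le, hab]
      refine ⟨f^[b - a - 1] (rep (Quotient.mk (Chain_setoid f) x)), ?_⟩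
      rw [← Function.iterate_succ_apply' f, Nat.succ_eq_add_one, Nat.sub_add_cancel (by omega)]
      exact (hf.iterate a h2).symm
    · apply hw
      have h2 : f^[b] (rep (Quotient.mk (Chain_setoid f) x)) = f^[b] (f^[a - b] x) := by
        rw [← Function.iterate_add_apply, Nat.add_sub_cancel' h1.le, hab]
      refine ⟨f^[a - b - 1] x, ?_⟩
      rw [← Function.iterate_succ_apply' f, Nat.succ_eq_add_one, Nat.sub_add_cancel (by omega)]
      exact (hf.iterate b h2).symm

end Pool.Agent.Lib.MP_f406e2_lc_OC
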