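import Pool.Agent.Lib.MP_f406e2_lc_OC.Defs

/-! # Index changes modulo an odd number -/

namespace Pool.Agent.Lib.MP_f406e2_lc_OC

theorem Idx_nat (m : ℕ) (P : ℤ → Prop) (hper : ∀ i, P (i + m) ↔ P i) (i : ℤ) (n : ℕ) :
    P (i + n * m) ↔ P i := by
  induction n with
  | zero => simp
  | succ n ih =>
    rw [← ih, ← hper (i + n * m)]
    have h : i + ((n + 1 : ℕ) : ℤ) * m = i + n * m + m := by
      push_cast
      ring
    rw [h]

theorem Idx_int (m : ℕ) (P : ℤ → Prop) (hper : ∀ i, P (i + m) ↔ P i) (i n : ℤ) :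
    P (i + n * m) ↔ P i := by
  rcases Int.eq_nat_or_neg n with ⟨k, rfl | rfl⟩
  · exact Idx_nat m P hper i k
  · have h := Idx_nat m P hper (i + -(k : ℤ) * m) k
    rw [← h]
    have h2 : i + -(k : ℤ) * m + k * m = i := by ring
    rw [h2]

theorem Idx_congr (m : ℕ) (P : ℤ → Prop) (hper : ∀ i, P (i + m) ↔ P i) {i i' : ℤ}
    (h : (m : ℤ) ∣ i - i') : P i ↔ P i' := by
  obtain ⟨n, hn⟩ := h
  have h1 : i = i' + n * m := by linarith
  rw [h1]
  exact Idx_int m P hper i' n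

theorem Idx_odd {m : ℕ} (hm : Odd m) {a : ℤ} (h : (m : ℤ) ∣ 2 * a) : (m : ℤ) ∣ a := by
  have h1 : IsCoprime (m : ℤ) 2 := by
    rw [Int.isCoprime_iff_gcd_eq_one]
    have h2 : Nat.Coprime m 2 := by
      rw [Nat.coprime_comm]
      exact Nat.coprime_two_left.2 hm
    exact_mod_cast h2
  exact h1.dvd_of_dvd_mul_left h

theorem Idx_eq {m : ℕ} {j j' : ℕ} (hj : j < m) (hj' : j' < m) (h : (m : ℤ) ∣ (j : ℤ) - j') :
    j = j' := by
  have h1 := Int.eq_zero_of_abs_lt_dvd h (by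
    rw [abs_lt]
    constructor <;> omega)
  omega

theorem idx_neg (m : ℕ) (hm : Odd m) (P : ℤ → Prop) (hper : ∀ i, P (i + m) ↔ P i)
    (hex : ∃ i, P i) (huniq : ∀ i i', P i → P i' → (m : ℤ) ∣ i - i') :
    ∃! j : ℕ, j < m ∧ P (-(2 * j)) := by
  obtain ⟨i, hi⟩ := hex
  obtain ⟨k, hk⟩ := hm
  have hm0 : (0 : ℤ) < m := by
    rw [hk]
    positivity
  have hnn : 0 ≤ (-i * (k + 1)) % (m : ℤ) := Int.emod_nonneg _ hm0.ne'
  have hlt : (-i * (k + 1)) % (m : ℤ) < m := Int.emod_lt_of_pos _ hm0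
  refine ⟨((-i * (k + 1)) % (m : ℤ)).toNat, ⟨?_, ?_⟩, ?_⟩
  · rw [← Nat.cast_lt (α := ℤ), Int.toNat_of_nonneg hnn]
    exact hlt
  · rw [Int.toNat_of_nonneg hnn, Idx_congr m P hper (i' := i)]
    · exact hi
    · have h1 : (-i * (k + 1)) % (m : ℤ) = -i * (k + 1) - m * ((-i * (k + 1)) / m) := by
        rw [Int.emod_def]
      rw [h1]
      refine ⟨2 * ((-i * (k + 1)) / m) + i, ?_⟩
      have h2 : (m : ℤ) = 2 * k + 1 := by exact_mod_cast hk
      generalize (-i * (k + 1)) / (m : ℤ) = t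
      rw [h2]
      ring
  · rintro j ⟨hj, hPj⟩
    apply Idx_eq hj
    · rw [← Nat.cast_lt (α := ℤ), Int.toNat_of_nonneg hnn]
      exact hlt
    · rw [Int.toNat_of_nonneg hnn]
      apply Idx_odd ⟨k, hk⟩
      have h1 := huniq _ _ hPj hi
      have h3 : (m : ℤ) ∣ (-i * (k + 1)) - (-i * (k + 1)) % (m : ℤ) := Int.dvd_self_sub_emod
      have h2 : (m : ℤ) = 2 * k + 1 := by exact_mod_cast hk
      have h4 : 2 * ((j : ℤ) - (-i * (k + 1)) % (m : ℤ)) =
          -(-(2 * (j : ℤ)) - i) + 2 * ((-i * (k + 1)) - (-i * (k + 1)) % (m : ℤ)) + i * m := by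
        rw [h2]
        ring
      rw [h4]
      exact dvd_add (dvd_add (dvd_neg.2 h1) (Dvd.dvd.mul_left h3 2)) (dvd_mul_left _ _)

theorem idx_pos (m : ℕ) (hm : Odd m) (P : ℤ → Prop) (hper : ∀ i, P (i + m) ↔ P i)
    (hex : ∃ i, P i) (huniq : ∀ i i', P i → P i' → (m : ℤ) ∣ i - i') :
    ∃! j : ℕ, j < m ∧ P (2 * j) := by
  have h := idx_neg m hm (fun i => P (-i)) (by
    intro i
    have h1 := hper (-(i + m))
    have h2 : -(i + (m : ℤ)) + m = -i := by ring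
    rw [h2] at h1
    exact h1.symm) (by
    obtain ⟨i, hi⟩ := hex
    exact ⟨-i, by simpa using hi⟩) (by
    intro i i' h1 h2
    have h3 := huniq _ _ h2 h1
    have h4 : -i' - -i = i - i' := by ring
    rwa [h4] at h3)
  simpa using h

end Pool.Agent.Lib.MP_f406e2_lc_OC
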