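import Pool.Agent.Lib.MP_f406e2_lc_OC.NineDefs
import Pool.Agent.Lib.MP_f406e2_lc_OC.Chain
import Pool.Agent.Lib.MP_f406e2_lc_OC.Idx

/-! # The case m = 9: exact cover of the orbit of the pole, abstract form -/

namespace Pool.Agent.Lib.MP_f406e2_lc_OC

variable (G : NCfg 9)

theorem Nine_rot_nat (n : ℕ) (x : G.X) : G.rot (n * 9) x = x := by
  induction n with
  | zero => simpa using G.rot_zero x
  | succ n ih =>
    have : ((n + 1 : ℕ) : ℤ) * 9 = n * 9 + (9 : ℕ) := by push_cast; ring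
    rw [this, G.rot_add, G.rot_m, ih]

theorem Nine_rot_int (n : ℤ) (x : G.X) : G.rot (n * 9) x = x := by
  obtain ⟨k, rfl | rfl⟩ := n.eq_nat_or_neg
  · exact Nine_rot_nat G k x
  · have h := Nine_rot_nat G k (G.rot (-(k : ℤ) * 9) x)
    rw [← G.rot_add] at h
    have h0 : (k : ℤ) * 9 + -(k : ℤ) * 9 = 0 := by ring
    rw [h0, G.rot_zero] at h
    exact h.symm

theorem Nine_rot_congr {i j : ℤ} (h : (9 : ℤ) ∣ i - j) (x : G.X) : G.rot i x = G.rot j x := by
  obtain ⟨k, hk⟩ := h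
  have : i = k * 9 + j := by linarith [mul_comm (9 : ℤ) k]
  rw [this, G.rot_add, Nine_rot_int]

theorem Nine_rot_neg (i : ℤ) (x : G.X) : G.rot (-i) (G.rot i x) = x := by
  rw [← G.rot_add]; simpa using G.rot_zero x

theorem Nine_inj_F {x y : G.X} (hx : x ∈ G.F) (hy : y ∈ G.F) {i j : ℤ}
    (h : G.rot i x = G.rot j y) : x = y ∧ (9 : ℤ) ∣ i - j := by
  have h1 : G.rot (i - j) x = y := by
    have := congrArg (G.rot (-j)) h
    rw [Nine_rot_neg, ← G.rot_add] at this
    rw [← this]; congr 1; ring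
  have h2 := G.F_uniq x hx (i - j) (by rw [h1]; exact hy)
  refine ⟨?_, h2⟩
  rw [← h1, Nine_rot_congr G (j := 0) (by simpa using h2), G.rot_zero]

theorem Nine_ne_N {x : G.X} (hx : x ∈ G.F) (i : ℤ) : G.rot i x ≠ G.N := by
  intro h
  have := congrArg (G.rot (-i)) h
  rw [Nine_rot_neg, G.rot_N] at this
  rw [this] at hx
  exact G.N_notin hx

theorem Nine_ch_adm (t : Ty) (i : ℤ) (t' : Ty) (h : (i, t') ∈ ch9 t) :
    3 ≤ i % ((9 : ℕ) : ℤ) ∧ i % ((9 : ℕ) : ℤ) ≤ ((9 : ℕ) : ℤ) - 3 := by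
  cases t <;> simp only [ch9, List.mem_cons, List.not_mem_nil, or_false, Prod.mk.injEq] at h
  all_goals
    rcases h with ⟨rfl, -⟩ | ⟨rfl, -⟩ | ⟨rfl, -⟩ <;> norm_num

theorem Nine_mem (x : G.X) (t : Ty) (h : Ent9 G x t) : x ∈ G.F := by
  induction h with
  | root => exact G.rN_mem
  | step x t i t' _ hi ih =>
    obtain ⟨h1, h2⟩ := Nine_ch_adm t i t' hi
    exact (G.key x ih i h1 h2).1

theorem Nine_ch_inj (t : Ty) (i i' : ℤ) (t' t'' : Ty) (h : (i, t') ∈ ch9 t)
    (h' : (i', t'') ∈ ch9 t) (hd : (9 : ℤ) ∣ i - i') : t' = t'' := by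
  cases t <;> simp only [ch9, List.mem_cons, List.not_mem_nil, or_false, Prod.mk.injEq] at h h'
  all_goals
    first
      | (rcases h with ⟨rfl, rfl⟩ | ⟨rfl, rfl⟩ | ⟨rfl, rfl⟩ <;>
          rcases h' with ⟨rfl, rfl⟩ | ⟨rfl, rfl⟩ | ⟨rfl, rfl⟩ <;>
            first | rfl | (exfalso; revert hd; decide))
      | (rcases h with ⟨rfl, rfl⟩ | ⟨rfl, rfl⟩ <;>
          rcases h' with ⟨rfl, rfl⟩ | ⟨rfl, rfl⟩ <;>
            first | rfl | (exfalso; revert hd; decide))

theorem Nine_uniq (x : G.X) (t t' : Ty) (h : Ent9 G x t) (h' : Ent9 G x t') : t = t' := by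
  induction h generalizing t' with
  | root =>
    generalize hz : G.r G.N = z at h'
    cases h' with
    | root => rfl
    | step x t i t' hx hi =>
      exfalso
      have : G.rot i x = G.N := by
        rw [← G.r_r (G.rot i x), ← hz, G.r_r]
      exact Nine_ne_N G (Nine_mem G x t hx) i this
  | step x t i t1 hx hi ih =>
    generalize hz : G.r (G.rot i x) = z at h'
    cases h' with
    | root =>
      exfalso
      have : G.rot i x = G.N := by
        rw [← G.r_r (G.rot i x), hz, G.r_r]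
      exact Nine_ne_N G (Nine_mem G x t hx) i this
    | step x' t2 i' t3 hx' hi' =>
      have h1 : G.rot i x = G.rot i' x' := by
        rw [← G.r_r (G.rot i x), hz, G.r_r]
      obtain ⟨rfl, h3⟩ := Nine_inj_F G (Nine_mem G x t hx) (Nine_mem G x' t2 hx') h1
      obtain rfl := ih t2 hx'
      exact Nine_ch_inj t i i' t1 t' hi hi' h3

theorem Nine_ne_pA (x : G.X) (t : Ty) (h : Ent9 G x t) : t ≠ Ty.pA := by
  cases h with
  | root => decide
  | step x t0 i t' hx hi =>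
    rintro rfl
    cases t0 <;> simp [ch9] at hi

/-- the vertex of `x` is exotic -/
def Nine_Exo (x : G.X) : Prop := ∃ (u : G.X) (t : Ty) (k : ℤ), Ent9 G u t ∧ x = G.rot k u

theorem Nine_exo_rot (x : G.X) (i : ℤ) (h : Nine_Exo G (G.rot i x)) : Nine_Exo G x := by
  obtain ⟨u, t, k, hu, hk⟩ := h
  exact ⟨u, t, -i + k, hu, by rw [G.rot_add, ← hk, Nine_rot_neg]⟩

/-- an entering element on the far side of a direction -/
theorem Nine_far (z : G.X) (hz : z ≠ G.N) (t' : Ty) : Ent9 G (G.r z) t' ↔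
    ∃ (u : G.X) (t : Ty) (i : ℤ), Ent9 G u t ∧ (i, t') ∈ ch9 t ∧ z = G.rot i u := by
  constructor
  · intro h
    generalize hw : G.r z = w at h
    cases h with
    | root =>
      exact absurd (by rw [← G.r_r z, hw, G.r_r]) hz
    | step x t i t' hx hi =>
      exact ⟨x, t, i, hx, hi, by rw [← G.r_r z, hw, G.r_r]⟩
  · rintro ⟨u, t, i, hu, hi, rfl⟩
    exact Ent9.step u t i t' hu hi

/-! ### the matching -/

/-- elements of `F` representing non-exotic vertices -/
def Nine_NX (u : G.X) : Prop := u ∈ G.F ∧ ¬ Nine_Exo G u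

theorem Nine_F1 {u : G.X} (hu : Nine_NX G u) :
    Nine_NX G (G.r (G.rot 4 u)) ∧ G.ht u < G.ht (G.r (G.rot 4 u)) := by
  have hk := G.key u hu.1 4 (by norm_num) (by norm_num)
  refine ⟨⟨hk.1, ?_⟩, hk.2⟩
  rintro ⟨w, t, k, hw, hk'⟩
  obtain ⟨h1, -⟩ := Nine_inj_F G (i := 0) (j := k) hk.1
    (Nine_mem G w t hw) (by rw [G.rot_zero]; exact hk')
  rw [← h1] at hw
  obtain ⟨x, t0, i, hx, hi, h2⟩ := (Nine_far G _ (Nine_ne_N G hu.1 4) t).1 hw
  obtain ⟨h3, -⟩ := Nine_inj_F G hu.1 (Nine_mem G x t0 hx) h2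
  exact hu.2 ⟨x, t0, 0, hx, by rw [h3, G.rot_zero]⟩

/-- the next element of a chain -/
def Nine_f (u : {u : G.X // Nine_NX G u}) : {u : G.X // Nine_NX G u} :=
  ⟨G.r (G.rot 4 u.1), (Nine_F1 G u.2).1⟩

theorem Nine_chi :
    ∃ χ : {u : G.X // Nine_NX G u} → Prop,
      (∀ x, χ (Nine_f G x) ↔ ¬ χ x) ∧ ∀ x, x ∉ Set.range (Nine_f G) → ¬ χ x := by
  apply chain
  · intro x y hxy
    have h1 : G.r (G.rot 4 x.1) = G.r (G.rot 4 y.1) := congrArg Subtype.val hxy
    have h2 : G.rot 4 x.1 = G.rot 4 y.1 := by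
      rw [← G.r_r (G.rot 4 x.1), h1, G.r_r]
    have h3 := congrArg (G.rot (-4)) h2
    rw [Nine_rot_neg, Nine_rot_neg] at h3
    exact Subtype.ext h3
  · intro x n hn
    have hlt : ∀ y : {u : G.X // Nine_NX G u},
        G.ht y.1 < G.ht (Nine_f G y).1 := fun y => (Nine_F1 G y.2).2
    have : ∀ n : ℕ, G.ht x.1 < G.ht ((Nine_f G)^[n + 1] x).1 := by
      intro n
      induction n with
      | zero => simpa using hlt x
      | succ n ih =>
        rw [Function.iterate_succ_apply']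
        exact ih.trans (hlt _)
    intro h
    obtain ⟨k, rfl⟩ : ∃ k, n = k + 1 := ⟨n - 1, by omega⟩
    have h2 := this k
    rw [h] at h2
    exact lt_irrefl _ h2

theorem Nine_match :
    ∃ M : G.X → Prop, (∀ z, M z → ¬ Nine_Exo G z) ∧ (∀ z, M (G.r z) ↔ M z) ∧
      (∀ x, M x → x ≠ G.N) ∧
      ∀ x, x ≠ G.N → ¬ Nine_Exo G x → (∃ i, M (G.rot i x)) ∧
        ∀ i i', M (G.rot i x) → M (G.rot i' x) → (9 : ℤ) ∣ i - i' := by
  obtain ⟨χ, h1, h2⟩ := Nine_chi G
  let M : G.X → Prop := fun z => ∃ u : {u : G.X // Nine_NX G u},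
    (χ u ∧ z = u.1) ∨ (¬ χ u ∧ z = G.rot 4 u.1)
  have hr : ∀ z, M z → M (G.r z) := by
    rintro z ⟨u, ⟨hu, rfl⟩ | ⟨hu, rfl⟩⟩
    · have : u ∈ Set.range (Nine_f G) := by
        by_contra h; exact h2 u h hu
      obtain ⟨v, rfl⟩ := this
      exact ⟨v, Or.inr ⟨(h1 v).1 hu, G.r_r _⟩⟩
    · exact ⟨Nine_f G u, Or.inl ⟨(h1 u).2 hu, rfl⟩⟩
  refine ⟨M, ?_, ?_, ?_, ?_⟩
  · rintro z ⟨u, ⟨hu, rfl⟩ | ⟨hu, rfl⟩⟩ h
    · exact u.2.2 h
    · exact u.2.2 (Nine_exo_rot G _ _ h)
  · intro z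
    exact ⟨fun h => by simpa [G.r_r] using hr _ h, hr z⟩
  · rintro x ⟨u, ⟨hu, rfl⟩ | ⟨hu, rfl⟩⟩ h
    · exact G.N_notin (h ▸ u.2.1)
    · exact Nine_ne_N G u.2.1 4 h
  · intro x hx hxe
    obtain ⟨i, hi⟩ := G.F_ex x hx
    have hnx : Nine_NX G (G.rot i x) := ⟨hi, fun h => hxe (Nine_exo_rot G _ _ h)⟩
    constructor
    · by_cases hc : χ ⟨G.rot i x, hnx⟩
      · exact ⟨i, ⟨_, hnx⟩, Or.inl ⟨hc, rfl⟩⟩
      · exact ⟨4 + i, ⟨_, hnx⟩, Or.inr ⟨hc, by rw [G.rot_add]⟩⟩
    · have hrep : ∀ j : ℤ, M (G.rot j x) →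
          (χ ⟨G.rot i x, hnx⟩ ∧ (9 : ℤ) ∣ j - i) ∨ (¬ χ ⟨G.rot i x, hnx⟩ ∧ (9 : ℤ) ∣ j - i - 4) := by
        intro j hj
        have hjx : G.rot j x = G.rot (j - i) (G.rot i x) := by
          rw [← G.rot_add]; congr 1; ring
        obtain ⟨u, ⟨hu, h⟩ | ⟨hu, h⟩⟩ := hj
        · rw [hjx] at h
          obtain ⟨h3, h4⟩ := Nine_inj_F G (j := 0) hi u.2.1 (by rw [h, G.rot_zero])
          have : (⟨G.rot i x, hnx⟩ : {u : G.X // Nine_NX G u}) = u := Subtype.ext h3
          left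
          rw [this]
          exact ⟨hu, by simpa using h4⟩
        · rw [hjx] at h
          obtain ⟨h3, h4⟩ := Nine_inj_F G (j := 4) hi u.2.1 h
          have : (⟨G.rot i x, hnx⟩ : {u : G.X // Nine_NX G u}) = u := Subtype.ext h3
          right
          rw [this]
          exact ⟨hu, h4⟩
      intro j j' hj hj'
      rcases hrep j hj with ⟨a1, a2⟩ | ⟨a1, a2⟩ <;> rcases hrep j' hj' with ⟨b1, b2⟩ | ⟨b1, b2⟩
      · have : j - j' = (j - i) - (j' - i) := by ring
        rw [this]; exact dvd_sub a2 b2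
      · exact absurd a1 b1
      · exact absurd b1 a1
      · have : j - j' = (j - i - 4) - (j' - i - 4) := by ring
        rw [this]; exact dvd_sub a2 b2

/-! ### the labels -/

/-- types with near label `a` -/
def nlA : Ty → Bool
  | Ty.pC => true
  | Ty.A => true
  | _ => false

/-- types with near label `b` -/
def nlB : Ty → Bool
  | Ty.pB => true
  | Ty.A => true
  | _ => false

/-- types with far label `a` -/
def flA : Ty → Bool
  | Ty.C => true
  | _ => false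

/-- types with far label `b` -/
def flB : Ty → Bool
  | Ty.B => true
  | _ => false

/-- the label at the rotation `κ` of the entering element of a vertex of type `t` -/
def lab9 (p q : Ty → Bool) (t : Ty) (κ : ZMod 9) : Bool :=
  (κ == 0 && p t) || (ch9 t).any (fun it => q it.2 && κ == (it.1 : ZMod 9))

theorem Nine_lab (p q : Ty → Bool) {u : G.X} {t : Ty} (hu : Ent9 G u t) (k : ℤ) :
    ((∃ t', Ent9 G (G.rot k u) t' ∧ p t' = true) ∨
      (∃ t', Ent9 G (G.r (G.rot k u)) t' ∧ q t' = true)) ↔ lab9 p q t (k : ZMod 9) = true := by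
  have hmem := Nine_mem G u t hu
  have hne := Nine_ne_N G hmem k
  have hz : ∀ a b : ℤ, (a : ZMod 9) = (b : ZMod 9) ↔ (9 : ℤ) ∣ a - b := by
    intro a b
    rw [← sub_eq_zero, ← Int.cast_sub]
    exact ZMod.intCast_zmod_eq_zero_iff_dvd (a - b) 9
  unfold lab9
  rw [Bool.or_eq_true]
  apply or_congr
  · rw [Bool.and_eq_true, beq_iff_eq]
    constructor
    · rintro ⟨t', h1, h2⟩
      obtain ⟨h3, h4⟩ := Nine_inj_F G (i := k) (j := 0) hmem (Nine_mem G _ t' h1)
        (by rw [G.rot_zero])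
      rw [← h3] at h1
      have := Nine_uniq G u t t' hu h1
      subst this
      exact ⟨by have := (hz k 0).2 h4; simpa using this, h2⟩
    · rintro ⟨h1, h2⟩
      refine ⟨t, ?_, h2⟩
      rw [Nine_rot_congr G (i := k) (j := 0) ((hz k 0).1 (by simpa using h1)), G.rot_zero]
      exact hu
  · rw [List.any_eq_true]
    constructor
    · rintro ⟨t', h1, h2⟩
      obtain ⟨x, t0, i, hx, hi, h3⟩ := (Nine_far G _ hne t').1 h1
      obtain ⟨h4, h5⟩ := Nine_inj_F G hmem (Nine_mem G x t0 hx) h3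
      subst h4
      have := Nine_uniq G u t t0 hu hx
      subst this
      refine ⟨(i, t'), hi, ?_⟩
      rw [Bool.and_eq_true, beq_iff_eq]
      exact ⟨h2, (hz k i).2 h5⟩
    · rintro ⟨⟨i, t'⟩, hi, h⟩
      rw [Bool.and_eq_true, beq_iff_eq] at h
      refine ⟨t', ?_, h.1⟩
      rw [Nine_rot_congr G ((hz k i).1 h.2)]
      exact Ent9.step u t i t' hu hi

/-- the first family of equations -/
theorem Nine_dec1 : ∀ t : Ty, t ≠ Ty.pA → ∀ κ : ZMod 9, ∃ j : Fin 9,
    ∀ j' : Fin 9, ((if uH j'.1 then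
        (if uR j'.1 then lab9 flB nlB t (κ - 2 * (j'.1 : ZMod 9))
          else lab9 nlB flB t (κ - 2 * (j'.1 : ZMod 9)))
        else (if uR j'.1 then lab9 flA nlA t (κ - 2 * (j'.1 : ZMod 9))
          else lab9 nlA flA t (κ - 2 * (j'.1 : ZMod 9)))) = true ↔ j' = j) := by
  intro t ht
  cases t
  · exact absurd rfl ht
  all_goals decide +kernel

theorem Nine_dec2 : ∀ t : Ty, t ≠ Ty.pA → ∀ κ : ZMod 9, ∃ j : Fin 9,
    ∀ j' : Fin 9, ((if uH j'.1 then
        (if uR j'.1 then lab9 flA nlA t (κ + 2 * (j'.1 : ZMod 9))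
          else lab9 nlA flA t (κ + 2 * (j'.1 : ZMod 9)))
        else (if uR j'.1 then lab9 flB nlB t (κ + 2 * (j'.1 : ZMod 9))
          else lab9 nlB flB t (κ + 2 * (j'.1 : ZMod 9)))) = true ↔ j' = j) := by
  intro t ht
  cases t
  · exact absurd rfl ht
  all_goals decide +kernel

open Classical in
theorem ncov9 : ∃ α β : G.X → Prop, ∀ x : G.X,
    (∃! j : ℕ, j < 9 ∧ pick9 G.r α β j (G.rot (-(2 * j)) x)) ∧
    (∃! j : ℕ, j < 9 ∧ pick9 G.r β α j (G.rot (2 * j) x)) := by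
  obtain ⟨M, hM1, hM2, hM3, hM4⟩ := Nine_match G
  let α : G.X → Prop := fun z => M z ∨ ((∃ t, Ent9 G z t ∧ nlA t = true) ∨
    (∃ t, Ent9 G (G.r z) t ∧ flA t = true))
  let β : G.X → Prop := fun z => M z ∨ ((∃ t, Ent9 G z t ∧ nlB t = true) ∨
    (∃ t, Ent9 G (G.r z) t ∧ flB t = true))
  -- unfolding of pick9
  have hp : ∀ (a b : G.X → Prop) (j : ℕ) (y : G.X), pick9 G.r a b j y ↔
      if uH j then (if uR j then b (G.r y) else b y) else (if uR j then a (G.r y) else a y) := by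
    intro a b j y
    unfold pick9
    by_cases h0 : uH j <;> by_cases h2 : uR j <;> simp [h0, h2]
  refine ⟨α, β, fun x => ?_⟩
  by_cases hxN : x = G.N
  · -- the root
    subst hxN
    have hEN : ∀ t, ¬ Ent9 G G.N t := fun t h => G.N_notin (Nine_mem G _ t h)
    have hEr : ∀ t, Ent9 G (G.r G.N) t ↔ t = Ty.pC := fun t =>
      ⟨fun h => (Nine_uniq G _ _ _ Ent9.root h).symm, fun h => h ▸ Ent9.root⟩
    have hαN : ¬ α G.N := by
      rintro (h | ⟨t, h, -⟩ | ⟨t, h, h'⟩)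
      · exact hM3 _ h rfl
      · exact hEN _ h
      · rw [(hEr t).1 h] at h'; exact absurd h' (by decide)
    have hβN : ¬ β G.N := by
      rintro (h | ⟨t, h, -⟩ | ⟨t, h, h'⟩)
      · exact hM3 _ h rfl
      · exact hEN _ h
      · rw [(hEr t).1 h] at h'; exact absurd h' (by decide)
    have hαr : α (G.r G.N) := Or.inr (Or.inl ⟨Ty.pC, Ent9.root, rfl⟩)
    have hβr : ¬ β (G.r G.N) := by
      rintro (h | ⟨t, h, h'⟩ | ⟨t, h, h'⟩)
      · exact hM3 _ ((hM2 _).1 h) rfl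
      · rw [(hEr t).1 h] at h'; exact absurd h' (by decide)
      · rw [G.r_r] at h; exact hEN _ h
    constructor
    · refine ⟨1, ⟨by norm_num, ?_⟩, ?_⟩
      · rw [hp, G.rot_N, if_neg (by decide), if_pos (by decide)]; exact hαr
      · rintro j ⟨hj, h⟩
        rw [hp, G.rot_N] at h
        by_contra hne
        by_cases h3 : j = 3
        · subst h3
          rw [if_pos (by decide), if_pos (by decide)] at h
          exact hβr h
        · have hR : ¬ uR j := by unfold uR; omega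
          split_ifs at h
          · exact hβN h
          · exact hαN h
    · refine ⟨3, ⟨by norm_num, ?_⟩, ?_⟩
      · rw [hp, G.rot_N, if_pos (by decide), if_pos (by decide)]; exact hαr
      · rintro j ⟨hj, h⟩
        rw [hp, G.rot_N] at h
        by_contra hne
        by_cases h3 : j = 1
        · subst h3
          rw [if_neg (by decide), if_pos (by decide)] at h
          exact hβr h
        · have hR : ¬ uR j := by unfold uR; omega
          split_ifs at h
          · exact hαN h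
          · exact hβN h
  by_cases hxe : Nine_Exo G x
  · -- exotic vertices
    obtain ⟨u, t, i, hu, rfl⟩ := hxe
    have hMn : ∀ k, ¬ M (G.rot k u) := fun k h => hM1 _ h ⟨u, t, k, hu, rfl⟩
    have hMr : ∀ k, ¬ M (G.r (G.rot k u)) := fun k h => hMn k ((hM2 _).1 h)
    have hα : ∀ k, α (G.rot k u) ↔ lab9 nlA flA t (k : ZMod 9) = true := fun k => by
      rw [← Nine_lab G nlA flA hu k]
      exact ⟨fun h => h.resolve_left (hMn k), Or.inr⟩
    have hβ : ∀ k, β (G.rot k u) ↔ lab9 nlB flB t (k : ZMod 9) = true := fun k => by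
      rw [← Nine_lab G nlB flB hu k]
      exact ⟨fun h => h.resolve_left (hMn k), Or.inr⟩
    have hαr : ∀ k, α (G.r (G.rot k u)) ↔ lab9 flA nlA t (k : ZMod 9) = true := fun k => by
      rw [← Nine_lab G flA nlA hu k]
      constructor
      · intro h
        rcases h.resolve_left (hMr k) with h | h
        · exact Or.inr h
        · rw [G.r_r] at h; exact Or.inl h
      · rintro (h | h)
        · exact Or.inr (Or.inr (by rw [G.r_r]; exact h))
        · exact Or.inr (Or.inl h)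
    have hβr : ∀ k, β (G.r (G.rot k u)) ↔ lab9 flB nlB t (k : ZMod 9) = true := fun k => by
      rw [← Nine_lab G flB nlB hu k]
      constructor
      · intro h
        rcases h.resolve_left (hMr k) with h | h
        · exact Or.inr h
        · rw [G.r_r] at h; exact Or.inl h
      · rintro (h | h)
        · exact Or.inr (Or.inr (by rw [G.r_r]; exact h))
        · exact Or.inr (Or.inl h)
    have hcast : ∀ (p : ℕ → Prop) (j : Fin 9), (∀ j' : Fin 9, p j'.1 ↔ j' = j) →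
        ∃! j : ℕ, j < 9 ∧ p j := by
      intro p j hj
      refine ⟨j.1, ⟨j.2, (hj j).2 rfl⟩, ?_⟩
      rintro j' ⟨h1, h2⟩
      exact congrArg Fin.val ((hj ⟨j', h1⟩).1 h2)
    constructor
    · obtain ⟨j, hj⟩ := Nine_dec1 t (Nine_ne_pA G u t hu) (i : ZMod 9)
      refine hcast _ j fun j' => ?_
      rw [hp, ← G.rot_add, hα, hβ, hαr, hβr, ← hj j']
      have hk : ((-(2 * (j'.1 : ℤ)) + i : ℤ) : ZMod 9) = (i : ZMod 9) - 2 * (j'.1 : ZMod 9) := by
        push_cast; ring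
      rw [hk]
      split_ifs <;> rfl
    · obtain ⟨j, hj⟩ := Nine_dec2 t (Nine_ne_pA G u t hu) (i : ZMod 9)
      refine hcast _ j fun j' => ?_
      rw [hp, ← G.rot_add, hα, hβ, hαr, hβr, ← hj j']
      have hk : ((2 * (j'.1 : ℤ) + i : ℤ) : ZMod 9) = (i : ZMod 9) + 2 * (j'.1 : ZMod 9) := by
        push_cast; ring
      rw [hk]
      split_ifs <;> rfl
  · -- non-exotic vertices
    obtain ⟨⟨i0, hi0⟩, hun⟩ := hM4 x hxN hxe
    have hnN : ∀ i, G.rot i x ≠ G.N := by
      intro i h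
      apply hxN
      rw [← Nine_rot_neg G i x, h, G.rot_N]
    have hE : ∀ i t, ¬ Ent9 G (G.rot i x) t := fun i t h =>
      hxe (Nine_exo_rot G x i ⟨_, t, 0, h, by rw [G.rot_zero]⟩)
    have hEr : ∀ i t, ¬ Ent9 G (G.r (G.rot i x)) t := fun i t h => by
      obtain ⟨u, t0, k, hu, -, hk⟩ := (Nine_far G _ (hnN i) t).1 h
      exact hxe (Nine_exo_rot G x i ⟨u, t0, k, hu, hk⟩)
    have hα : ∀ i, α (G.rot i x) ↔ M (G.rot i x) := fun i =>
      ⟨fun h => h.resolve_right (by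
        rintro (⟨t, h, -⟩ | ⟨t, h, -⟩)
        · exact hE _ _ h
        · exact hEr _ _ h), Or.inl⟩
    have hβ : ∀ i, β (G.rot i x) ↔ M (G.rot i x) := fun i =>
      ⟨fun h => h.resolve_right (by
        rintro (⟨t, h, -⟩ | ⟨t, h, -⟩)
        · exact hE _ _ h
        · exact hEr _ _ h), Or.inl⟩
    have hαr : ∀ i, α (G.r (G.rot i x)) ↔ M (G.rot i x) := fun i =>
      ⟨fun h => (hM2 _).1 (h.resolve_right (by
        rintro (⟨t, h, -⟩ | ⟨t, h, -⟩)
        · exact hEr _ _ h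
        · rw [G.r_r] at h; exact hE _ _ h)), fun h => Or.inl ((hM2 _).2 h)⟩
    have hβr : ∀ i, β (G.r (G.rot i x)) ↔ M (G.rot i x) := fun i =>
      ⟨fun h => (hM2 _).1 (h.resolve_right (by
        rintro (⟨t, h, -⟩ | ⟨t, h, -⟩)
        · exact hEr _ _ h
        · rw [G.r_r] at h; exact hE _ _ h)), fun h => Or.inl ((hM2 _).2 h)⟩
    have hper : ∀ i, M (G.rot (i + (9 : ℕ)) x) ↔ M (G.rot i x) := by
      intro i
      rw [Nine_rot_congr G (i := i + (9 : ℕ)) (j := i) (by simp)]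
    constructor
    · refine (existsUnique_congr fun j => and_congr_right fun _ => ?_).2
        (idx_neg 9 (by decide) (fun i => M (G.rot i x)) hper ⟨i0, hi0⟩ hun)
      rw [hp, hα, hβ, hαr, hβr]
      split_ifs <;> rfl
    · refine (existsUnique_congr fun j => and_congr_right fun _ => ?_).2
        (idx_pos 9 (by decide) (fun i => M (G.rot i x)) hper ⟨i0, hi0⟩ hun)
      rw [hp, hα, hβ, hαr, hβr]
      split_ifs <;> rfl

end Pool.Agent.Lib.MP_f406e2_lc_OC
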