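import Pool.Agent.Lib.MP_f406e2_lc_OC.Rot

/-! # The key inequalities of hyperbolic geometry -/

open Complex ComplexConjugate

namespace Pool.Agent.Lib.MP_f406e2_lc_OC

theorem Key_sa_pos (m : ℕ) (hm : 7 ≤ m) : 0 < sa m := by
  have hm' : (7 : ℝ) ≤ m := by exact_mod_cast hm
  unfold sa
  apply Real.sin_pos_of_pos_of_lt_pi (by positivity)
  rw [div_lt_iff₀ (by linarith)]
  nlinarith [Real.pi_pos]

theorem Key_al_lt (m : ℕ) (hm : 7 ≤ m) : Real.pi / m < Real.pi / 6 := by
  have hm' : (7 : ℝ) ≤ m := by exact_mod_cast hm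
  apply div_lt_div_of_pos_left Real.pi_pos (by norm_num)
  linarith

theorem Key_sa_lt (m : ℕ) (hm : 7 ≤ m) : sa m < 1 / 2 := by
  have hm' : (7 : ℝ) ≤ m := by exact_mod_cast hm
  rw [← Real.sin_pi_div_six]
  unfold sa
  have h0 : 0 < Real.pi / m := by positivity
  have := Real.pi_pos
  apply Real.sin_lt_sin_of_lt_of_le_pi_div_two (by linarith) (by linarith) (Key_al_lt m hm)

theorem Key_ta_sq (m : ℕ) (hm : 7 ≤ m) : ta m ^ 2 = 1 - 4 * sa m ^ 2 := by
  unfold ta
  rw [Real.sq_sqrt]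
  nlinarith [Key_sa_pos m hm, Key_sa_lt m hm]

theorem Key_ta_nonneg (m : ℕ) : 0 ≤ ta m := Real.sqrt_nonneg _

theorem Key_cos_pos (m : ℕ) (hm : 7 ≤ m) : 0 < Real.cos (Real.pi / m) := by
  have hm' : (7 : ℝ) ≤ m := by exact_mod_cast hm
  have h0 : 0 < Real.pi / m := by positivity
  have h1 := Key_al_lt m hm
  have := Real.pi_pos
  apply Real.cos_pos_of_mem_Ioo
  constructor <;> linarith

theorem Key_om_re (m : ℕ) : (om m).re = 1 - 2 * sa m ^ 2 := by
  unfold om sa
  have h : (2 * Real.pi / m * Complex.I : ℂ) = ((2 * (Real.pi / m) : ℝ) : ℂ) * Complex.I := by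
    push_cast
    ring
  rw [h, Complex.exp_ofReal_mul_I_re, Real.cos_two_mul, Real.cos_sq']
  ring

theorem Key_om_im (m : ℕ) : (om m).im = 2 * sa m * Real.cos (Real.pi / m) := by
  unfold om sa
  have h : (2 * Real.pi / m * Complex.I : ℂ) = ((2 * (Real.pi / m) : ℝ) : ℂ) * Complex.I := by
    push_cast
    ring
  rw [h, Complex.exp_ofReal_mul_I_im, Real.sin_two_mul]

theorem Key_om_inv (m : ℕ) : (om m)⁻¹ = conj (om m) := by
  unfold om
  rw [← Complex.exp_neg, ← Complex.exp_conj]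
  congr 1
  rw [map_mul, map_div₀, map_mul, Complex.conj_I, Complex.conj_ofReal, map_ofNat, map_natCast,
    mul_neg]

theorem Key_om_zpow (m : ℕ) (i : ℤ) (z : ℂ) :
    (om m ^ i * z).re = ‖z‖ * Real.cos (Complex.arg z + 2 * (Real.pi / m) * i) := by
  have h1 : om m ^ i = Complex.exp (((2 * (Real.pi / m) * i : ℝ) : ℂ) * Complex.I) := by
    unfold om
    rw [← Complex.exp_int_mul]
    congr 1
    push_cast
    ring
  have h2 : om m ^ i * z =
      (‖z‖ : ℂ) * Complex.exp (((Complex.arg z + 2 * (Real.pi / m) * i : ℝ) : ℂ) * Complex.I) := by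
    conv_lhs => rw [← Complex.norm_mul_exp_arg_mul_I z]
    rw [h1]
    push_cast
    rw [add_mul, Complex.exp_add]
    ring
  rw [h2, Complex.re_ofReal_mul, Complex.exp_ofReal_mul_I_re]

/-- comparison of the argument with `a` -/
theorem Key_arg {z : ℂ} {a : ℝ} (ha : 0 < a) (ha' : a < Real.pi / 2) (hre : 0 < z.re)
    (h1 : z.im * Real.cos a < z.re * Real.sin a) (h2 : -z.im * Real.cos a < z.re * Real.sin a) :
    z ≠ 0 ∧ Complex.arg z ∈ Set.Ioc (-a) a := by
  have hcos : 0 < Real.cos a := Real.cos_pos_of_mem_Ioo ⟨by linarith, ha'⟩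
  have harg : |z.arg| < Real.pi / 2 := Complex.abs_arg_lt_pi_div_two_iff.2 (Or.inl hre)
  have harg' := abs_lt.1 harg
  have htan : Real.tan z.arg = z.im / z.re := Complex.tan_arg z
  have h3 : z.arg < a := by
    rw [← Real.strictMonoOn_tan.lt_iff_lt ⟨harg'.1, harg'.2⟩ ⟨by linarith, ha'⟩, htan,
      Real.tan_eq_sin_div_cos, div_lt_div_iff₀ hre hcos]
    linarith
  have h4 : -a < z.arg := by
    rw [← Real.strictMonoOn_tan.lt_iff_lt (show -a ∈ Set.Ioo (-(Real.pi / 2)) (Real.pi / 2) from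
      ⟨by linarith, by linarith⟩) ⟨harg'.1, harg'.2⟩, htan, Real.tan_neg,
      Real.tan_eq_sin_div_cos, ← neg_div, div_lt_div_iff₀ hcos hre]
    linarith
  refine ⟨?_, h4, h3.le⟩
  rintro rfl
  simp at hre

theorem Key_cos_le {b x : ℝ} (hb : 0 ≤ b) (h1 : b ≤ x) (h2 : x ≤ 2 * Real.pi - b) :
    Real.cos x ≤ Real.cos b := by
  rcases le_total x Real.pi with h | h
  · exact Real.cos_le_cos_of_nonneg_of_le_pi hb h h1
  · rw [← Real.cos_two_pi_sub x]
    exact Real.cos_le_cos_of_nonneg_of_le_pi hb (by linarith) (by linarith)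

/-- `cos (3 π / m) ≤ τ` -/
theorem cos_three_le (m : ℕ) (hm : 7 ≤ m) : Real.cos (3 * (Real.pi / m)) ≤ ta m := by
  unfold ta
  apply Real.le_sqrt_of_sq_le
  have h0 := Key_sa_pos m hm
  have h1 := Key_sa_lt m hm
  have h2 : Real.sin (3 * (Real.pi / m)) = 3 * sa m - 4 * sa m ^ 3 := Real.sin_three_mul _
  have h3 := Real.sin_sq_add_cos_sq (3 * (Real.pi / m))
  rw [h2] at h3
  have h4 : 2 * sa m ≤ 3 * sa m - 4 * sa m ^ 3 := by
    have : sa m ^ 2 ≤ 1 / 4 := by nlinarith
    nlinarith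
  nlinarith

/-- criterion for `rg m u` to lie in the fundamental sector, in terms of the two directions at
angle `± 2 π / m` from that of `u` -/
theorem rg_mem_Fs (m : ℕ) (hm : 7 ≤ m) (u : ℂ × ℝ)
    (h1 : (om m * u.1).re < u.2 * ta m) (h2 : ((om m)⁻¹ * u.1).re < u.2 * ta m) :
    rg m u ∈ Fs m := by
  have h0 := Key_sa_pos m hm
  have hc := Key_cos_pos m hm
  have hm' : (7 : ℝ) ≤ m := by exact_mod_cast hm
  have hal : 0 < Real.pi / m := by have := Real.pi_pos; positivity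
  have hal2 := Key_al_lt m hm
  rw [Complex.mul_re, Key_om_re, Key_om_im] at h1
  rw [Key_om_inv, Complex.mul_re, Complex.conj_re, Complex.conj_im, Key_om_re, Key_om_im] at h2
  have hX : 2 * sa m ^ 2 * (u.2 * Sh m - u.1.re * Ch m) =
      u.2 * ta m - u.1.re * (1 - 2 * sa m ^ 2) := by
    unfold Sh Ch
    field_simp
  set X' := u.2 * Sh m - u.1.re * Ch m with hX'
  have h3 : -u.1.im * Real.cos (Real.pi / m) < X' * sa m := by
    have : 2 * sa m * (-u.1.im * Real.cos (Real.pi / m)) < 2 * sa m * (X' * sa m) := by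
      nlinarith
    exact lt_of_mul_lt_mul_left this (by positivity)
  have h4 : u.1.im * Real.cos (Real.pi / m) < X' * sa m := by
    have : 2 * sa m * (u.1.im * Real.cos (Real.pi / m)) < 2 * sa m * (X' * sa m) := by
      nlinarith
    exact lt_of_mul_lt_mul_left this (by positivity)
  have h5 : 0 < X' := by
    have : 0 < X' * sa m := by nlinarith
    exact pos_of_mul_pos_left this h0.le
  have := Real.pi_pos
  refine Key_arg (z := (rg m u).1) hal (by linarith) h5 ?_ ?_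
  · show -u.1.im * _ < X' * sa m
    exact h3
  · show -(-u.1.im) * _ < X' * sa m
    rw [neg_neg]
    exact h4

/-- criterion for the height to increase -/
theorem rg_height (m : ℕ) (hm : 7 ≤ m) (u : ℂ × ℝ) (h : u.1.re < u.2 * ta m) :
    u.2 < (rg m u).2 := by
  have h0 := Key_sa_pos m hm
  have hS := Sh_pos m hm
  have h1 : Ch m - 1 = ta m * Sh m := by
    unfold Ch Sh
    have := Key_ta_sq m hm
    field_simp
    linarith
  show u.2 < u.2 * Ch m - u.1.re * Sh m
  have h2 : u.2 * Ch m - u.1.re * Sh m - u.2 = Sh m * (u.2 * ta m - u.1.re) := by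
    have : Ch m = 1 + ta m * Sh m := by linarith
    rw [this]
    ring
  have h3 : 0 < Sh m * (u.2 * ta m - u.1.re) := mul_pos hS (by linarith)
  linarith

theorem Key_final (m : ℕ) (hm : 7 ≤ m) (u : ℂ × ℝ) (i : ℤ)
    (h : ∀ k : ℤ, -1 ≤ k → k ≤ 1 →
      ‖u.1‖ * Real.cos (Complex.arg u.1 + 2 * (Real.pi / m) * ((i + k : ℤ) : ℝ)) < u.2 * ta m) :
    rg m (rotg m i u) ∈ Fs m ∧ u.2 < (rg m (rotg m i u)).2 := by
  have hne : om m ≠ 0 := Complex.exp_ne_zero _
  have key : ∀ k : ℤ, -1 ≤ k → k ≤ 1 → (om m ^ (i + k) * u.1).re < u.2 * ta m := fun k hk hk' => by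
    rw [Key_om_zpow]
    exact h k hk hk'
  constructor
  · apply rg_mem_Fs m hm
    · have h1 := key 1 (by norm_num) (by norm_num)
      rw [add_comm, zpow_add₀ hne, zpow_one, mul_assoc] at h1
      exact h1
    · have h1 := key (-1) (by norm_num) (by norm_num)
      rw [add_comm, zpow_add₀ hne, zpow_neg_one, mul_assoc] at h1
      exact h1
  · have h1 := key 0 (by norm_num) (by norm_num)
    rw [add_zero] at h1
    exact rg_height m hm (rotg m i u) h1

/-- the key property for points of the upper sheet of the hyperboloid -/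
theorem key_time (m : ℕ) (hm : 7 ≤ m) (u : ℂ × ℝ) (hu : Mk u = -1) (hZ : 0 < u.2)
    (hF : u ∈ Fs m) (i : ℤ) (h3 : 3 ≤ i % m) (h3' : i % m ≤ m - 3) :
    rg m (rotg m i u) ∈ Fs m ∧ u.2 < (rg m (rotg m i u)).2 := by
  have hm' : (7 : ℝ) ≤ m := by exact_mod_cast hm
  have hmp : 0 < m := by omega
  have hpi := Real.pi_pos
  have hne : om m ≠ 0 := Complex.exp_ne_zero _
  have hrot : rotg m i u = rotg m (i % m) u := by
    have h1 : om m ^ i = om m ^ (i % (m : ℤ)) := by
      conv_lhs => rw [← Int.emod_add_mul_ediv i m]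
      rw [zpow_add₀ hne, zpow_mul, zpow_natCast, om_pow m hmp, one_zpow, mul_one]
    unfold rotg
    rw [h1]
  rw [hrot]
  set j : ℤ := i % m with hj
  have hj3 : (3 : ℝ) ≤ j := by exact_mod_cast h3
  have hj3' : (j : ℝ) ≤ m - 3 := by exact_mod_cast h3'
  have hal : 0 < Real.pi / m := by positivity
  have hma : Real.pi / m * m = Real.pi := by field_simp
  obtain ⟨hne1, hθ1, hθ2⟩ := hF
  have hρ : ‖u.1‖ < u.2 := by
    unfold Mk at hu
    rw [Complex.normSq_eq_norm_sq] at hu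
    by_contra hcon
    push Not at hcon
    nlinarith [norm_nonneg u.1]
  have hτ := ta_pos m hm
  apply Key_final m hm
  intro k hk1 hk2
  have hk1' : (-1 : ℝ) ≤ k := by exact_mod_cast hk1
  have hk2' : (k : ℝ) ≤ 1 := by exact_mod_cast hk2
  have e1 : Real.pi / m * 2 ≤ Real.pi / m * ((j : ℝ) + k) :=
    mul_le_mul_of_nonneg_left (by linarith) hal.le
  have e2 : Real.pi / m * ((j : ℝ) + k) ≤ Real.pi / m * (m - 2) :=
    mul_le_mul_of_nonneg_left (by linarith) hal.le
  have h4 : Real.cos (Complex.arg u.1 + 2 * (Real.pi / m) * ((j + k : ℤ) : ℝ)) ≤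
      Real.cos (3 * (Real.pi / m)) := by
    push_cast
    apply Key_cos_le (by positivity)
    · linarith
    · linarith
  have h5 := cos_three_le m hm
  calc ‖u.1‖ * Real.cos (Complex.arg u.1 + 2 * (Real.pi / m) * ((j + k : ℤ) : ℝ))
      ≤ ‖u.1‖ * ta m := mul_le_mul_of_nonneg_left (h4.trans h5) (norm_nonneg _)
    _ < u.2 * ta m := mul_lt_mul_of_pos_right hρ hτ

/-- the key property for spacelike vectors: the opposite direction -/
theorem key_space (m : ℕ) (hm : 9 ≤ m) (hodd : Odd m) (u : ℂ × ℝ) (hZ : 0 ≤ u.2)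
    (hF : u ∈ Fs m) :
    rg m (rotg m ((m - 1) / 2) u) ∈ Fs m ∧ u.2 < (rg m (rotg m ((m - 1) / 2) u)).2 := by
  have hm' : (9 : ℝ) ≤ m := by exact_mod_cast hm
  have hpi := Real.pi_pos
  obtain ⟨t, ht⟩ := hodd
  have hi : (((m : ℤ) - 1) / 2) = (t : ℤ) := by
    rw [ht]
    push_cast
    omega
  rw [hi]
  have hal : 0 < Real.pi / m := by positivity
  have hma : Real.pi / m * m = Real.pi := by field_simp
  have hmt : (m : ℝ) = 2 * t + 1 := by exact_mod_cast ht
  have hal9 : Real.pi / m ≤ Real.pi / 9 := div_le_div_of_nonneg_left hpi.le (by norm_num) hm'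
  obtain ⟨hne1, hθ1, hθ2⟩ := hF
  have hρ : 0 < ‖u.1‖ := norm_pos_iff.2 hne1
  apply Key_final m (by omega)
  intro k hk1 hk2
  have hk1' : (-1 : ℝ) ≤ k := by exact_mod_cast hk1
  have hk2' : (k : ℝ) ≤ 1 := by exact_mod_cast hk2
  have e1 : 2 * (Real.pi / m) * ((t + k : ℤ) : ℝ) = Real.pi - Real.pi / m + 2 * (Real.pi / m) * k := by
    have : 2 * (Real.pi / m) * (t : ℝ) = Real.pi - Real.pi / m := by
      have h6 : (t : ℝ) = (m - 1) / 2 := by linarith
      rw [h6]
      linarith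
    push_cast
    linarith
  have e2 : Real.pi / m * (-1) ≤ Real.pi / m * k := mul_le_mul_of_nonneg_left hk1' hal.le
  have e3 : Real.pi / m * k ≤ Real.pi / m * 1 := mul_le_mul_of_nonneg_left hk2' hal.le
  have h4 : Real.cos (Complex.arg u.1 + 2 * (Real.pi / m) * ((t + k : ℤ) : ℝ)) < 0 := by
    rw [e1]
    apply Real.cos_neg_of_pi_div_two_lt_of_lt
    · linarith
    · linarith
  have h5 : ‖u.1‖ * Real.cos (Complex.arg u.1 + 2 * (Real.pi / m) * ((t + k : ℤ) : ℝ)) < 0 :=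
    mul_neg_of_pos_of_neg hρ h4
  have h6 : 0 ≤ u.2 * ta m := mul_nonneg hZ (Key_ta_nonneg m)
  linarith

end Pool.Agent.Lib.MP_f406e2_lc_OC
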