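import Pool.Agent.Lib.MP_f406e2_lc_OC.Chain
import Pool.Agent.Lib.MP_f406e2_lc_OC.Key
import Pool.Agent.Lib.MP_f406e2_lc_OC.Idx

/-! # The exact cover of the spacelike vectors -/

open Complex ComplexConjugate

namespace Pool.Agent.Lib.MP_f406e2_lc_OC

/-! ### the three classes of spacelike vectors -/

theorem SpCov_om_prim (m : ℕ) (hm : 0 < m) : IsPrimitiveRoot (om m) m := by
  have h := Complex.isPrimitiveRoot_exp m hm.ne'
  have h2 : om m = Complex.exp (2 * Real.pi * Complex.I / m) := by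
    rw [om]
    congr 1
    ring
  rw [h2]
  exact h

/-- the invariant of the rotations: the real part of the `m`-th power -/
theorem SpCov_rot_pow (m : ℕ) (hm : 0 < m) (i : ℤ) (u : ℂ × ℝ) :
    (rotg m i u).1 ^ m = u.1 ^ m := by
  show (om m ^ i * u.1) ^ m = u.1 ^ m
  rw [mul_pow, ← zpow_natCast (om m ^ i), ← zpow_mul, mul_comm i, zpow_mul, zpow_natCast,
    om_pow m hm, one_zpow, one_mul]

theorem SpCov_hg_pow (m : ℕ) (hodd : Odd m) (u : ℂ × ℝ) :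
    ((hg u).1 ^ m).re = -(u.1 ^ m).re := by
  show ((-conj u.1) ^ m).re = -(u.1 ^ m).re
  rw [hodd.neg_pow, ← map_pow, Complex.neg_re, Complex.conj_re]

/-- upper class -/
def SpCov_Pos (m : ℕ) (u : ℂ × ℝ) : Prop := 0 < u.2 ∨ (u.2 = 0 ∧ 0 < (u.1 ^ m).re)

/-- lower class -/
def SpCov_Neg (m : ℕ) (u : ℂ × ℝ) : Prop := u.2 < 0 ∨ (u.2 = 0 ∧ (u.1 ^ m).re < 0)

/-- middle class -/
def SpCov_Std (m : ℕ) (u : ℂ × ℝ) : Prop := u.2 = 0 ∧ (u.1 ^ m).re = 0

theorem SpCov_cases (m : ℕ) (u : ℂ × ℝ) : SpCov_Pos m u ∨ SpCov_Neg m u ∨ SpCov_Std m u := by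
  rcases lt_trichotomy u.2 0 with h | h | h
  · exact Or.inr (Or.inl (Or.inl h))
  · rcases lt_trichotomy (u.1 ^ m).re 0 with h' | h' | h'
    · exact Or.inr (Or.inl (Or.inr ⟨h, h'⟩))
    · exact Or.inr (Or.inr ⟨h, h'⟩)
    · exact Or.inl (Or.inr ⟨h, h'⟩)
  · exact Or.inl (Or.inl h)

theorem SpCov_pos_neg (m : ℕ) (u : ℂ × ℝ) (h1 : SpCov_Pos m u) (h2 : SpCov_Neg m u) : False := by
  rcases h1 with h1 | ⟨h1, h1'⟩ <;> rcases h2 with h2 | ⟨h2, h2'⟩ <;> linarith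

theorem SpCov_pos_std (m : ℕ) (u : ℂ × ℝ) (h1 : SpCov_Pos m u) (h2 : SpCov_Std m u) : False := by
  rcases h1 with h1 | ⟨h1, h1'⟩ <;> rcases h2 with ⟨h2, h2'⟩ <;> linarith

theorem SpCov_neg_std (m : ℕ) (u : ℂ × ℝ) (h1 : SpCov_Neg m u) (h2 : SpCov_Std m u) : False := by
  rcases h1 with h1 | ⟨h1, h1'⟩ <;> rcases h2 with ⟨h2, h2'⟩ <;> linarith

theorem SpCov_pos_rot (m : ℕ) (hm : 0 < m) (i : ℤ) (u : ℂ × ℝ) (h : SpCov_Pos m u) :
    SpCov_Pos m (rotg m i u) := by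
  rw [SpCov_Pos, SpCov_rot_pow m hm]
  exact h

theorem SpCov_std_rot (m : ℕ) (hm : 0 < m) (i : ℤ) (u : ℂ × ℝ) (h : SpCov_Std m u) :
    SpCov_Std m (rotg m i u) := by
  rw [SpCov_Std, SpCov_rot_pow m hm]
  exact h

theorem SpCov_pos_hg (m : ℕ) (hodd : Odd m) (u : ℂ × ℝ) (h : SpCov_Pos m (hg u)) :
    SpCov_Neg m u := by
  rw [SpCov_Pos, SpCov_hg_pow m hodd] at h
  rcases h with h | ⟨h, h'⟩
  · left
    have : 0 < -u.2 := h
    linarith
  · right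
    have : -u.2 = 0 := h
    exact ⟨by linarith, by linarith⟩

theorem SpCov_neg_hg (m : ℕ) (hodd : Odd m) (u : ℂ × ℝ) (h : SpCov_Neg m u) :
    SpCov_Pos m (hg u) := by
  rw [SpCov_Pos, SpCov_hg_pow m hodd]
  rcases h with h | ⟨h, h'⟩
  · left
    show 0 < -u.2
    linarith
  · right
    exact ⟨by show -u.2 = 0; linarith, by linarith⟩

/-- points with `u.2 = 0` and `u.1` imaginary are in the middle class -/
theorem SpCov_std_of (m : ℕ) (hodd : Odd m) (u : ℂ × ℝ) (h2 : u.2 = 0) (h1 : u.1.re = 0) :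
    SpCov_Std m u := by
  refine ⟨h2, ?_⟩
  have h3 : (hg u).1 = u.1 := by
    show -conj u.1 = u.1
    apply Complex.ext
    · rw [Complex.neg_re, Complex.conj_re, h1, neg_zero]
    · rw [Complex.neg_im, Complex.conj_im, neg_neg]
  have h4 := SpCov_hg_pow m hodd u
  rw [h3] at h4
  linarith

/-! ### the selection -/

/-- spacelike vectors of the upper class in the fundamental sector -/
def SpCov_S (m : ℕ) : Type := {u : ℂ × ℝ // 0 < Mk u ∧ SpCov_Pos m u ∧ u ∈ Fs m}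

/-- the successor -/
noncomputable def SpCov_f (m : ℕ) (hm : 9 ≤ m) (hodd : Odd m) (u : SpCov_S m) : SpCov_S m :=
  ⟨rg m (rotg m ((m - 1) / 2) u.1), by
    have hZ : 0 ≤ u.1.2 := by
      rcases u.2.2.1 with h | h
      · exact h.le
      · exact h.1.ge
    obtain ⟨h1, h2⟩ := key_space m hm hodd u.1 hZ u.2.2.2
    refine ⟨?_, Or.inl (lt_of_le_of_lt hZ h2), h1⟩
    rw [Mk_rg m (by omega), Mk_rotg]
    exact u.2.1⟩

theorem SpCov_f_lt (m : ℕ) (hm : 9 ≤ m) (hodd : Odd m) (u : SpCov_S m) :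
    u.1.2 < (SpCov_f m hm hodd u).1.2 := by
  have hZ : 0 ≤ u.1.2 := by
    rcases u.2.2.1 with h | h
    · exact h.le
    · exact h.1.ge
  exact (key_space m hm hodd u.1 hZ u.2.2.2).2

theorem SpCov_f_inj (m : ℕ) (hm : 9 ≤ m) (hodd : Odd m) :
    Function.Injective (SpCov_f m hm hodd) := by
  intro u v h
  have h1 : rg m (rotg m ((m - 1) / 2) u.1) = rg m (rotg m ((m - 1) / 2) v.1) :=
    congrArg Subtype.val h
  have h2 := congrArg (rg m) h1
  rw [rg_rg m (by omega), rg_rg m (by omega)] at h2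
  have h3 := congrArg (rotg m (-((m - 1) / 2))) h2
  rw [← rotg_add, ← rotg_add, neg_add_cancel, rotg_zero, rotg_zero] at h3
  exact Subtype.ext h3

theorem SpCov_f_ac (m : ℕ) (hm : 9 ≤ m) (hodd : Odd m) (x : SpCov_S m) (n : ℕ) (hn : 0 < n) :
    (SpCov_f m hm hodd)^[n] x ≠ x := by
  have key : ∀ n : ℕ, x.1.2 < ((SpCov_f m hm hodd)^[n + 1] x).1.2 := by
    intro n
    induction n with
    | zero => exact SpCov_f_lt m hm hodd x
    | succ k ih =>
      rw [Function.iterate_succ_apply']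
      exact ih.trans (SpCov_f_lt m hm hodd _)
  obtain ⟨k, rfl⟩ : ∃ k, n = k + 1 := ⟨n - 1, by omega⟩
  intro h
  have h1 := key k
  rw [h] at h1
  exact lt_irrefl _ h1

/-- the basic part of the selection -/
def SpCov_M1 (m : ℕ) (χ : SpCov_S m → Prop) : Set (ℂ × ℝ) :=
  {u | ∃ s : SpCov_S m, (χ s ∧ u = s.1) ∨ (¬ χ s ∧ u = rotg m ((m - 1) / 2) s.1)}

theorem SpCov_M1_pos (m : ℕ) (hm : 0 < m) (χ : SpCov_S m → Prop) (u : ℂ × ℝ)
    (h : u ∈ SpCov_M1 m χ) : SpCov_Pos m u := by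
  obtain ⟨s, ⟨-, rfl⟩ | ⟨-, rfl⟩⟩ := h
  · exact s.2.2.1
  · exact SpCov_pos_rot m hm _ _ s.2.2.1

theorem SpCov_M1_rg (m : ℕ) (hm : 9 ≤ m) (hodd : Odd m) (χ : SpCov_S m → Prop)
    (h1 : ∀ x, χ (SpCov_f m hm hodd x) ↔ ¬ χ x)
    (h2 : ∀ x, x ∉ Set.range (SpCov_f m hm hodd) → ¬ χ x) (u : ℂ × ℝ)
    (h : u ∈ SpCov_M1 m χ) : rg m u ∈ SpCov_M1 m χ := by
  obtain ⟨s, ⟨hs, rfl⟩ | ⟨hs, rfl⟩⟩ := h
  · have h3 : s ∈ Set.range (SpCov_f m hm hodd) := by
      by_contra h3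
      exact h2 s h3 hs
    obtain ⟨v, rfl⟩ := h3
    refine ⟨v, Or.inr ⟨(h1 v).mp hs, ?_⟩⟩
    show rg m (rg m (rotg m ((m - 1) / 2) v.1)) = _
    rw [rg_rg m (by omega)]
  · exact ⟨SpCov_f m hm hodd s, Or.inl ⟨(h1 s).mpr hs, rfl⟩⟩

theorem SpCov_fst_ne (u : ℂ × ℝ) (h : 0 < Mk u) : u.1 ≠ 0 := by
  intro h0
  rw [Mk, h0, Complex.normSq_zero] at h
  nlinarith [sq_nonneg u.2]

theorem SpCov_rot_dvd (m : ℕ) (hm : 0 < m) (i : ℤ) (hi : (m : ℤ) ∣ i) (u : ℂ × ℝ) :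
    rotg m i u = u := by
  obtain ⟨k, rfl⟩ := hi
  show (om m ^ ((m : ℤ) * k) * u.1, u.2) = u
  rw [zpow_mul, zpow_natCast, om_pow m hm, one_zpow, one_mul]

/-- the upper class: existence -/
theorem SpCov_pos_ex (m : ℕ) (hm : 9 ≤ m) (χ : SpCov_S m → Prop) (u : ℂ × ℝ) (hu : 0 < Mk u)
    (hP : SpCov_Pos m u) : ∃ i : ℤ, rotg m i u ∈ SpCov_M1 m χ := by
  obtain ⟨i, hi⟩ := Fs_ex m (by omega) u (SpCov_fst_ne u hu)
  let s : SpCov_S m := ⟨rotg m i u, by rw [Mk_rotg]; exact hu, SpCov_pos_rot m (by omega) i u hP, hi⟩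
  by_cases hs : χ s
  · exact ⟨i, s, Or.inl ⟨hs, rfl⟩⟩
  · refine ⟨(m - 1) / 2 + i, s, Or.inr ⟨hs, ?_⟩⟩
    rw [rotg_add]

/-- the upper class: uniqueness -/
theorem SpCov_pos_un (m : ℕ) (hm : 9 ≤ m) (χ : SpCov_S m → Prop) (u : ℂ × ℝ) (i i' : ℤ)
    (h : rotg m i u ∈ SpCov_M1 m χ) (h' : rotg m i' u ∈ SpCov_M1 m χ) : (m : ℤ) ∣ i - i' := by
  have key : ∀ (s s' : SpCov_S m) (k k' : ℤ), s.1 = rotg m k u → s'.1 = rotg m k' u →
      (m : ℤ) ∣ k - k' ∧ s = s' := by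
    intro s s' k k' hk hk'
    have h1 : rotg m (k - k') s'.1 = s.1 := by
      rw [hk', hk, ← rotg_add, sub_add_cancel]
    have h2 : (m : ℤ) ∣ k - k' := by
      refine Fs_uniq m (by omega) s'.1 s'.2.2.2 _ ?_
      rw [h1]
      exact s.2.2.2
    refine ⟨h2, Subtype.ext ?_⟩
    rw [← h1, SpCov_rot_dvd m (by omega) _ h2]
  have aux : ∀ (s : SpCov_S m) (j : ℤ), rotg m j u = rotg m ((m - 1) / 2) s.1 →
      s.1 = rotg m (j - (m - 1) / 2) u := by
    intro s j hj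
    have h1 := congrArg (rotg m (-((m - 1) / 2))) hj
    rw [← rotg_add, ← rotg_add, neg_add_cancel, rotg_zero] at h1
    rw [← h1]
    congr 1
    ring
  obtain ⟨s, ⟨hs, hss⟩ | ⟨hs, hss⟩⟩ := h <;> obtain ⟨s', ⟨hs', hss'⟩ | ⟨hs', hss'⟩⟩ := h'
  · exact (key s s' i i' hss.symm hss'.symm).1
  · have h3 := (key s s' i _ hss.symm (aux s' i' hss')).2
    rw [h3] at hs
    exact absurd hs hs'
  · have h3 := (key s s' _ i' (aux s i hss) hss'.symm).2
    rw [h3] at hs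
    exact absurd hs' hs
  · have h3 := (key s s' _ _ (aux s i hss) (aux s' i' hss')).1
    rwa [sub_sub_sub_cancel_right] at h3

/-- the middle class: the condition on the rotation -/
theorem SpCov_re_iff (m : ℕ) (z : ℂ) (i : ℤ) :
    (om m ^ i * z).re = 0 ↔ om m ^ (2 * i) * z = -conj z := by
  have hom : om m ≠ 0 := Complex.exp_ne_zero _
  have hc : conj (om m) = (om m)⁻¹ := by
    rw [om, ← Complex.exp_conj, ← Complex.exp_neg]
    congr 1
    rw [map_mul, Complex.conj_I, map_div₀, map_mul, Complex.conj_ofReal, Complex.conj_natCast]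
    have : conj (2 : ℂ) = 2 := Complex.conj_ofNat 2
    rw [this]
    ring
  have h1 : (om m ^ i * z).re = 0 ↔ conj (om m ^ i * z) = -(om m ^ i * z) := by
    constructor
    · intro h
      apply Complex.ext
      · rw [Complex.conj_re, Complex.neg_re, h, neg_zero]
      · rw [Complex.conj_im, Complex.neg_im]
    · intro h
      have h2 := congrArg Complex.re h
      rw [Complex.conj_re, Complex.neg_re] at h2
      linarith
  rw [h1, map_mul, map_zpow₀, hc, inv_zpow]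
  have hz : om m ^ i ≠ 0 := zpow_ne_zero i hom
  constructor
  · intro h
    have h2 : om m ^ (2 * i) * z = om m ^ i * (om m ^ i * z) := by
      rw [two_mul, zpow_add₀ hom]
      ring
    have h3 : om m ^ i * z = -((om m ^ i)⁻¹ * conj z) := by
      rw [h, neg_neg]
    rw [h2, h3, mul_neg, mul_inv_cancel_left₀ hz]
  · intro h
    rw [two_mul, zpow_add₀ hom, mul_assoc] at h
    have h3 : conj z = -(om m ^ i * (om m ^ i * z)) := by
      rw [h, neg_neg]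
    rw [h3, mul_neg, inv_mul_cancel_left₀ hz]

theorem SpCov_std_ex (m : ℕ) (hm : 0 < m) (hodd : Odd m) (z : ℂ) (hz : z ≠ 0)
    (h : (z ^ m).re = 0) : ∃ i : ℤ, (om m ^ i * z).re = 0 := by
  have : NeZero m := ⟨hm.ne'⟩
  have hpr := SpCov_om_prim m hm
  have h1 : (-conj z / z) ^ m = 1 := by
    rw [div_pow, hodd.neg_pow, ← map_pow, div_eq_one_iff_eq (pow_ne_zero m hz)]
    apply Complex.ext
    · rw [Complex.neg_re, Complex.conj_re, h, neg_zero]
    · rw [Complex.neg_im, Complex.conj_im, neg_neg]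
  obtain ⟨k, -, hk⟩ := hpr.eq_pow_of_pow_eq_one h1
  obtain ⟨t, ht⟩ := hodd
  refine ⟨(k : ℤ) * (t + 1), ?_⟩
  rw [SpCov_re_iff]
  have h2 : 2 * ((k : ℤ) * (t + 1)) = (k : ℤ) + (m : ℤ) * k := by
    rw [ht]
    push_cast
    ring
  have hom : om m ≠ 0 := Complex.exp_ne_zero _
  rw [h2, zpow_add₀ hom, zpow_mul, zpow_natCast, zpow_natCast, zpow_natCast,
    om_pow m hm, one_pow, mul_one, hk, div_mul_cancel₀ _ hz]

theorem SpCov_std_un (m : ℕ) (hm : 0 < m) (hodd : Odd m) (z : ℂ) (hz : z ≠ 0) (i i' : ℤ)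
    (h : (om m ^ i * z).re = 0) (h' : (om m ^ i' * z).re = 0) : (m : ℤ) ∣ i - i' := by
  have hpr := SpCov_om_prim m hm
  have hom : om m ≠ 0 := Complex.exp_ne_zero _
  rw [SpCov_re_iff] at h h'
  have h1 : om m ^ (2 * i) = om m ^ (2 * i') := mul_right_cancel₀ hz (h.trans h'.symm)
  have h2 : om m ^ (2 * (i - i')) = 1 := by
    rw [mul_sub, zpow_sub₀ hom, h1, div_self (zpow_ne_zero _ hom)]
  have h3 : (m : ℤ) ∣ 2 * (i - i') := (hpr.zpow_eq_one_iff_dvd _).mp h2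
  have h4 : IsCoprime (m : ℤ) 2 := by
    obtain ⟨t, ht⟩ := hodd
    refine ⟨1, -t, ?_⟩
    rw [ht]
    push_cast
    ring
  exact h4.dvd_of_dvd_mul_left h3

/-- a set of spacelike vectors invariant under `rg` and `hg` and containing exactly one point of
each orbit of the rotations -/
theorem sp_sel (m : ℕ) (hm : 9 ≤ m) (hodd : Odd m) :
    ∃ M : Set (ℂ × ℝ), (∀ u, 0 < Mk u → (rg m u ∈ M ↔ u ∈ M)) ∧ (∀ u, 0 < Mk u → (hg u ∈ M ↔ u ∈ M)) ∧
      ∀ u, 0 < Mk u → ∃! j : ℕ, j < m ∧ rotg m (-(2 * j)) u ∈ M := by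
  have hm0 : 0 < m := by omega
  obtain ⟨χ, hχ1, hχ2⟩ := chain (SpCov_f m hm hodd) (SpCov_f_inj m hm hodd)
    (SpCov_f_ac m hm hodd)
  set M1 := SpCov_M1 m χ with hM1
  set M : Set (ℂ × ℝ) := {u | u ∈ M1 ∨ hg u ∈ M1 ∨ (u.2 = 0 ∧ u.1.re = 0)} with hM
  have rgM : ∀ u, u ∈ M → rg m u ∈ M := by
    intro u hu
    rcases hu with hu | hu | ⟨h2, h1⟩
    · exact Or.inl (SpCov_M1_rg m hm hodd χ hχ1 hχ2 u hu)
    · refine Or.inr (Or.inl ?_)
      rw [hg_rg]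
      exact SpCov_M1_rg m hm hodd χ hχ1 hχ2 _ hu
    · refine Or.inr (Or.inr ⟨?_, ?_⟩)
      · show u.2 * Ch m - u.1.re * Sh m = 0
        rw [h1, h2]
        ring
      · show u.2 * Sh m - u.1.re * Ch m = 0
        rw [h1, h2]
        ring
  have hgM : ∀ u, u ∈ M → hg u ∈ M := by
    intro u hu
    rcases hu with hu | hu | ⟨h2, h1⟩
    · refine Or.inr (Or.inl ?_)
      rw [hg_hg]
      exact hu
    · exact Or.inl hu
    · refine Or.inr (Or.inr ⟨?_, ?_⟩)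
      · show -u.2 = 0
        rw [h2, neg_zero]
      · show (-conj u.1).re = 0
        rw [Complex.neg_re, Complex.conj_re, h1, neg_zero]
  have rgM' : ∀ u, rg m u ∈ M ↔ u ∈ M := by
    intro u
    refine ⟨fun h => ?_, rgM u⟩
    have h1 := rgM _ h
    rwa [rg_rg m (by omega)] at h1
  have hgM' : ∀ u, hg u ∈ M ↔ u ∈ M := by
    intro u
    refine ⟨fun h => ?_, hgM u⟩
    have h1 := hgM _ h
    rwa [hg_hg] at h1
  refine ⟨M, fun u _ => rgM' u, fun u _ => hgM' u, ?_⟩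
  -- the three classes in `M`
  have posM : ∀ u, SpCov_Pos m u → u ∈ M → u ∈ M1 := by
    intro u hP hu
    rcases hu with hu | hu | ⟨h2, h1⟩
    · exact hu
    · exact (SpCov_pos_neg m u hP (SpCov_pos_hg m hodd u (SpCov_M1_pos m hm0 χ _ hu))).elim
    · exact (SpCov_pos_std m u hP (SpCov_std_of m hodd u h2 h1)).elim
  have stdM : ∀ u, SpCov_Std m u → u ∈ M → u.1.re = 0 := by
    intro u hP hu
    rcases hu with hu | hu | ⟨h2, h1⟩
    · exact (SpCov_pos_std m u (SpCov_M1_pos m hm0 χ _ hu) hP).elim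
    · exact (SpCov_neg_std m u (SpCov_pos_hg m hodd u (SpCov_M1_pos m hm0 χ _ hu)) hP).elim
    · exact h1
  have posEx : ∀ u, 0 < Mk u → SpCov_Pos m u → (∃ i : ℤ, rotg m i u ∈ M) ∧
      ∀ i i' : ℤ, rotg m i u ∈ M → rotg m i' u ∈ M → (m : ℤ) ∣ i - i' := by
    intro u hu hP
    constructor
    · obtain ⟨i, hi⟩ := SpCov_pos_ex m hm χ u hu hP
      exact ⟨i, Or.inl hi⟩
    · intro i i' h h'
      exact SpCov_pos_un m hm χ u i i' (posM _ (SpCov_pos_rot m hm0 i u hP) h)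
        (posM _ (SpCov_pos_rot m hm0 i' u hP) h')
  have allEx : ∀ u, 0 < Mk u → (∃ i : ℤ, rotg m i u ∈ M) ∧
      ∀ i i' : ℤ, rotg m i u ∈ M → rotg m i' u ∈ M → (m : ℤ) ∣ i - i' := by
    intro u hu
    rcases SpCov_cases m u with hP | hP | hP
    · exact posEx u hu hP
    · have h1 := posEx (hg u) (by rw [Mk_hg]; exact hu) (SpCov_neg_hg m hodd u hP)
      have h2 : ∀ i : ℤ, rotg m i u ∈ M ↔ rotg m (-i) (hg u) ∈ M := by
        intro i
        rw [rotg_hg, neg_neg, hgM']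
      constructor
      · obtain ⟨i, hi⟩ := h1.1
        refine ⟨-i, ?_⟩
        rw [h2, neg_neg]
        exact hi
      · intro i i' h h'
        have h3 := h1.2 (-i) (-i') ((h2 i).mp h) ((h2 i').mp h')
        have h4 : i - i' = -(-i - -i') := by ring
        rw [h4]
        exact (dvd_neg).mpr h3
    · have hz := SpCov_fst_ne u hu
      constructor
      · obtain ⟨i, hi⟩ := SpCov_std_ex m hm0 hodd u.1 hz hP.2
        exact ⟨i, Or.inr (Or.inr ⟨hP.1, hi⟩)⟩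
      · intro i i' h h'
        exact SpCov_std_un m hm0 hodd u.1 hz i i' (stdM _ (SpCov_std_rot m hm0 i u hP) h)
          (stdM _ (SpCov_std_rot m hm0 i' u hP) h')
  intro u hu
  refine idx_neg m hodd (fun i => rotg m i u ∈ M) ?_ (allEx u hu).1 (allEx u hu).2
  intro i
  show rotg m (i + m) u ∈ M ↔ rotg m i u ∈ M
  rw [rotg_add, rotg_m m hm0]

theorem sp_cover (m e : ℕ) (hm : 9 ≤ m) (hodd : Odd m) :
    ∃ A : Set (ℂ × ℝ), ∀ u : ℂ × ℝ, 0 < Mk u →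
      ∃! j : ℕ, j < m ∧ tin e (rotg m (-2)) (rg m) hg j u ∈ A := by
  obtain ⟨M, hr, hh, hM⟩ := sp_sel m hm hodd
  refine ⟨M, fun u hu => ?_⟩
  have key : ∀ j : ℕ, tin e (rotg m (-2)) (rg m) hg j u ∈ M ↔ rotg m (-(2 * j)) u ∈ M := by
    intro j
    have h1 : (rotg m (-2))^[j] u = rotg m (-(2 * j)) u := by
      rw [rotg_iter, neg_mul]
    have h2 : 0 < Mk (rotg m (-(2 * j)) u) := by
      rw [Mk_rotg]
      exact hu
    have h3 : 0 < Mk (rg m (rotg m (-(2 * j)) u)) := by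
      rw [Mk_rg m (by omega)]
      exact h2
    rw [tin, h1]
    split_ifs
    · rw [hh _ h3, hr _ h2]
    · rw [hh _ (by exact h2)]
      rfl
    · exact hr _ h2
    · exact Iff.rfl
  simp only [key]
  exact hM u hu

end Pool.Agent.Lib.MP_f406e2_lc_OC
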