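import Pool.Agent.Lib.MP_f406e2_lc_OC.HypCov
import Pool.Agent.Lib.MP_f406e2_lc_OC.SpCov
import Pool.Agent.Lib.MP_f406e2_lc_OC.NineCov

/-! # m = 9: exact covers of the hyperboloid and of the spacelike vectors -/

open Complex ComplexConjugate

namespace Pool.Agent.Lib.MP_f406e2_lc_OC

theorem hyp_cover9 :
    ∃ A : Set (ℂ × ℝ), ∀ u : ℂ × ℝ, Mk u = -1 →
      ∃! j : ℕ, j < 9 ∧ tin9 (rotg 9 (-2)) (rg 9) hg j u ∈ A := by
  classical
  have hm7 : 7 ≤ 9 := by norm_num
  obtain ⟨α, β, hab⟩ := ncov9 (HypCov_G 9 hm7)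
  refine ⟨HypCov_A α β, fun u hu => ?_⟩
  have hne : u.2 ≠ 0 := by
    intro h0
    have h2 : Complex.normSq u.1 - u.2 ^ 2 = -1 := hu
    rw [h0] at h2
    have := Complex.normSq_nonneg u.1
    nlinarith
  have hext : ∀ p q : ℕ → Prop, (∀ j, p j ↔ q j) → (∃! j : ℕ, j < 9 ∧ q j) →
      ∃! j : ℕ, j < 9 ∧ p j := by
    intro p q hpq h
    have : p = q := funext fun j => propext (hpq j)
    rw [this]
    exact h
  rcases lt_or_gt_of_ne hne with hneg | hpos
  · -- lower sheet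
    let x : HypCov_X := ⟨hg u, by rw [Mk_hg]; exact hu, by show 0 < -u.2; linarith⟩
    refine hext _ _ (fun j => ?_) (hab x).2
    have hux : u = hg x.1 := (hg_hg u).symm
    have h1 : (rotg 9 (-2))^[j] u = hg ((HypCov_G 9 hm7).rot (2 * j) x).1 := by
      rw [rotg_iter, hux, rotg_hg]
      show hg (rotg 9 (-(-2 * (j : ℤ))) x.1) = hg (rotg 9 (2 * j) x.1)
      congr 2
      ring
    have h2 : (if uR j then rg 9 else id) ((rotg 9 (-2))^[j] u) =
        hg ((if uR j then (HypCov_G 9 hm7).r else id)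
          ((HypCov_G 9 hm7).rot (2 * j) x)).1 := by
      rw [h1]
      split_ifs
      · rw [← hg_rg]
        rfl
      · rfl
    unfold tin9 pick9
    rw [h2]
    by_cases hj : uH j
    · rw [if_pos hj, if_pos hj, hg_hg]
      exact HypCov_mem_A α β _
    · rw [if_neg hj, if_neg hj]
      exact HypCov_hg_mem_A α β _
  · -- upper sheet
    let x : HypCov_X := ⟨u, hu, hpos⟩
    refine hext _ _ (fun j => ?_) (hab x).1
    have h1 : (rotg 9 (-2))^[j] u = ((HypCov_G 9 hm7).rot (-(2 * j)) x).1 := by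
      rw [rotg_iter]
      show rotg 9 (-2 * (j : ℤ)) u = rotg 9 (-(2 * j)) u
      have h3 : (-2 * (j : ℤ)) = -(2 * j) := by ring
      rw [h3]
    have h2 : (if uR j then rg 9 else id) ((rotg 9 (-2))^[j] u) =
        ((if uR j then (HypCov_G 9 hm7).r else id)
          ((HypCov_G 9 hm7).rot (-(2 * j)) x)).1 := by
      rw [h1]
      split_ifs
      · rfl
      · rfl
    unfold tin9 pick9
    rw [h2]
    by_cases hj : uH j
    · rw [if_pos hj, if_pos hj]
      exact HypCov_hg_mem_A α β _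
    · rw [if_neg hj, if_neg hj]
      exact HypCov_mem_A α β _

theorem sp_cover9 :
    ∃ A : Set (ℂ × ℝ), ∀ u : ℂ × ℝ, 0 < Mk u →
      ∃! j : ℕ, j < 9 ∧ tin9 (rotg 9 (-2)) (rg 9) hg j u ∈ A := by
  obtain ⟨M, hr, hh, hM⟩ := sp_sel 9 (by norm_num) (by decide)
  refine ⟨M, fun u hu => ?_⟩
  have key : ∀ j : ℕ, tin9 (rotg 9 (-2)) (rg 9) hg j u ∈ M ↔ rotg 9 (-(2 * j)) u ∈ M := by
    intro j
    have h1 : (rotg 9 (-2))^[j] u = rotg 9 (-(2 * j)) u := by
      rw [rotg_iter, neg_mul]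
    have h2 : 0 < Mk (rotg 9 (-(2 * j)) u) := by
      rw [Mk_rotg]
      exact hu
    have h3 : 0 < Mk (rg 9 (rotg 9 (-(2 * j)) u)) := by
      rw [Mk_rg 9 (by omega)]
      exact h2
    rw [tin9, h1]
    split_ifs
    · rw [hh _ h3, hr _ h2]
    · rw [hh _ (by exact h2)]
      rfl
    · exact hr _ h2
    · exact Iff.rfl
  simp only [key]
  exact hM u hu

end Pool.Agent.Lib.MP_f406e2_lc_OC
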