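import Pool.Agent.Lib.MP_f406e2_lc_OC.Defs

/-! # Rotations and half-turns of Minkowski space, fundamental sector -/

open Complex ComplexConjugate

namespace Pool.Agent.Lib.MP_f406e2_lc_OC

private theorem Rot_om_ne (m : ℕ) : om m ≠ 0 := Complex.exp_ne_zero _

private theorem Rot_om_zpow (m : ℕ) (i : ℤ) :
    om m ^ i = Complex.exp (((i : ℝ) * (2 * (Real.pi / m)) : ℝ) * Complex.I) := by
  unfold om
  rw [← Complex.exp_int_mul]
  congr 1
  push_cast
  ring

private theorem Rot_normSq (m : ℕ) (i : ℤ) : Complex.normSq (om m ^ i) = 1 := by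
  rw [Rot_om_zpow, Complex.normSq_eq_norm_sq, Complex.norm_exp_ofReal_mul_I, one_pow]

private theorem Rot_conj (m : ℕ) (i : ℤ) : conj (om m ^ i) = om m ^ (-i) := by
  rw [Rot_om_zpow, Rot_om_zpow, ← Complex.exp_conj, map_mul, Complex.conj_ofReal, Complex.conj_I]
  congr 1
  push_cast
  ring

private theorem Rot_sa_pos (m : ℕ) (hm : 7 ≤ m) : 0 < sa m := by
  have h7 : (7 : ℝ) ≤ m := by exact_mod_cast hm
  unfold sa
  apply Real.sin_pos_of_pos_of_lt_pi
  · have := Real.pi_pos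
    positivity
  · exact div_lt_self Real.pi_pos (by linarith)

private theorem Rot_sa_lt (m : ℕ) (hm : 7 ≤ m) : sa m < 1 / 2 := by
  have h7 : (7 : ℝ) ≤ m := by exact_mod_cast hm
  have hp := Real.pi_pos
  unfold sa
  refine (Real.sin_lt (by positivity)).trans ?_
  rw [div_lt_iff₀ (by linarith)]
  have := Real.pi_lt_d2
  linarith

private theorem Rot_ta_sq (m : ℕ) (hm : 7 ≤ m) : ta m ^ 2 = 1 - 4 * sa m ^ 2 := by
  have h1 := Rot_sa_pos m hm
  have h2 := Rot_sa_lt m hm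
  unfold ta
  rw [Real.sq_sqrt]
  nlinarith

theorem om_pow (m : ℕ) (hm : 0 < m) : om m ^ m = 1 := by
  unfold om
  rw [← Complex.exp_nat_mul]
  have h : (m : ℂ) ≠ 0 := by exact_mod_cast hm.ne'
  have h1 : (m : ℂ) * (2 * Real.pi / m * Complex.I) = 2 * Real.pi * Complex.I := by
    field_simp
  rw [h1, Complex.exp_two_pi_mul_I]

theorem rotg_zero (m : ℕ) (u : ℂ × ℝ) : rotg m 0 u = u := by
  unfold rotg
  rw [zpow_zero, one_mul]

theorem rotg_add (m : ℕ) (i j : ℤ) (u : ℂ × ℝ) : rotg m (i + j) u = rotg m i (rotg m j u) := by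
  unfold rotg
  rw [zpow_add₀ (Rot_om_ne m), mul_assoc]

theorem rotg_m (m : ℕ) (hm : 0 < m) (u : ℂ × ℝ) : rotg m m u = u := by
  unfold rotg
  rw [zpow_natCast, om_pow m hm, one_mul]

theorem rotg_iter (m : ℕ) (i : ℤ) (j : ℕ) (u : ℂ × ℝ) : (rotg m i)^[j] u = rotg m (i * j) u := by
  induction j with
  | zero => simp [rotg_zero]
  | succ j ih =>
    rw [Function.iterate_succ_apply', ih, ← rotg_add]
    congr 1
    push_cast
    ring

theorem ta_pos (m : ℕ) (hm : 7 ≤ m) : 0 < ta m := by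
  have h1 := Rot_sa_pos m hm
  have h2 := Rot_sa_lt m hm
  unfold ta
  apply Real.sqrt_pos.2
  nlinarith

theorem Ch_sq (m : ℕ) (hm : 7 ≤ m) : Ch m ^ 2 - Sh m ^ 2 = 1 := by
  have h1 := Rot_sa_pos m hm
  have h3 := Rot_ta_sq m hm
  unfold Ch Sh
  rw [div_pow, div_pow, h3]
  field_simp
  ring

theorem Sh_pos (m : ℕ) (hm : 7 ≤ m) : 0 < Sh m := by
  have h1 := Rot_sa_pos m hm
  have h2 := ta_pos m hm
  unfold Sh
  positivity

theorem rg_rg (m : ℕ) (hm : 7 ≤ m) (u : ℂ × ℝ) : rg m (rg m u) = u := by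
  have h := Ch_sq m hm
  obtain ⟨⟨a, b⟩, Z⟩ := u
  unfold rg
  simp only [neg_neg]
  refine Prod.ext (Complex.ext ?_ rfl) ?_
  · show (Z * Ch m - a * Sh m) * Sh m - (Z * Sh m - a * Ch m) * Ch m = a
    linear_combination a * h
  · show (Z * Ch m - a * Sh m) * Ch m - (Z * Sh m - a * Ch m) * Sh m = Z
    linear_combination Z * h

theorem hg_hg (u : ℂ × ℝ) : hg (hg u) = u := by
  obtain ⟨ξ, Z⟩ := u
  unfold hg
  simp

theorem hg_rg (m : ℕ) (u : ℂ × ℝ) : hg (rg m u) = rg m (hg u) := by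
  obtain ⟨⟨a, b⟩, Z⟩ := u
  unfold hg rg
  refine Prod.ext (Complex.ext ?_ ?_) ?_
  · simp
    ring
  · simp
  · simp
    ring

theorem rotg_hg (m : ℕ) (i : ℤ) (u : ℂ × ℝ) : rotg m i (hg u) = hg (rotg m (-i) u) := by
  unfold rotg hg
  refine Prod.ext ?_ rfl
  show om m ^ i * -conj u.1 = -conj (om m ^ (-i) * u.1)
  rw [map_mul, Rot_conj, neg_neg]
  ring

theorem Mk_rotg (m : ℕ) (i : ℤ) (u : ℂ × ℝ) : Mk (rotg m i u) = Mk u := by
  unfold Mk rotg
  show Complex.normSq (om m ^ i * u.1) - u.2 ^ 2 = _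
  rw [Complex.normSq_mul, Rot_normSq, one_mul]

theorem Mk_hg (u : ℂ × ℝ) : Mk (hg u) = Mk u := by
  unfold Mk hg
  show Complex.normSq (-conj u.1) - (-u.2) ^ 2 = _
  rw [Complex.normSq_neg, Complex.normSq_conj, neg_sq]

theorem Mk_rg (m : ℕ) (hm : 7 ≤ m) (u : ℂ × ℝ) : Mk (rg m u) = Mk u := by
  have h := Ch_sq m hm
  obtain ⟨⟨a, b⟩, Z⟩ := u
  unfold Mk rg
  simp only [Complex.normSq_mk]
  linear_combination (a ^ 2 - Z ^ 2) * h

private theorem Rot_polar (m : ℕ) (i : ℤ) (z : ℂ) : om m ^ i * z =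
    (‖z‖ : ℝ) * Complex.exp ((Complex.arg z + i * (2 * (Real.pi / m)) : ℝ) * Complex.I) := by
  have h := Complex.norm_mul_exp_arg_mul_I z
  conv_lhs => rw [← h, Rot_om_zpow]
  rw [mul_left_comm, ← Complex.exp_add]
  congr 2
  push_cast
  ring

/-- every nonzero point can be rotated into the fundamental sector -/
theorem Fs_ex (m : ℕ) (hm : 3 ≤ m) (u : ℂ × ℝ) (hu : u.1 ≠ 0) : ∃ i : ℤ, rotg m i u ∈ Fs m := by
  have h3 : (3 : ℝ) ≤ m := by exact_mod_cast hm
  have hp := Real.pi_pos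
  have ha : 0 < 2 * (Real.pi / m) := by positivity
  obtain ⟨i, hi, -⟩ := existsUnique_add_zsmul_mem_Ioc ha (Complex.arg u.1) (-(Real.pi / m))
  have hle : Real.pi / m ≤ Real.pi := div_le_self hp.le (by linarith)
  have hi' : Complex.arg u.1 + i * (2 * (Real.pi / m)) ∈
      Set.Ioc (-(Real.pi / m)) (Real.pi / m) := by
    have h1 : i • (2 * (Real.pi / m)) = (i : ℝ) * (2 * (Real.pi / m)) := zsmul_eq_mul _ _
    simp only [h1] at hi
    refine ⟨hi.1, ?_⟩
    have := hi.2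
    linarith
  refine ⟨i, ?_, ?_⟩
  · exact mul_ne_zero (zpow_ne_zero _ (Rot_om_ne m)) hu
  · show Complex.arg (om m ^ i * u.1) ∈ _
    rw [Rot_polar, Complex.exp_mul_I, Complex.arg_mul_cos_add_sin_mul_I (norm_pos_iff.2 hu)]
    · exact hi'
    · exact ⟨by linarith [hi'.1], hi'.2.trans hle⟩

/-- in only one way -/
theorem Fs_uniq (m : ℕ) (hm : 3 ≤ m) (u : ℂ × ℝ) (hu : u ∈ Fs m) (i : ℤ)
    (hi : rotg m i u ∈ Fs m) : (m : ℤ) ∣ i := by
  have h3 : (3 : ℝ) ≤ m := by exact_mod_cast hm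
  have hp := Real.pi_pos
  have hα : 0 < Real.pi / m := by positivity
  obtain ⟨hu0, hu1⟩ := hu
  obtain ⟨-, hi1⟩ := hi
  change Complex.arg (om m ^ i * u.1) ∈ _ at hi1
  have h1 := Rot_polar m i u.1
  have h2 := Complex.norm_mul_exp_arg_mul_I (om m ^ i * u.1)
  have hn : ‖om m ^ i * u.1‖ = ‖u.1‖ := by
    rw [norm_mul]
    have : ‖om m ^ i‖ = 1 := by rw [Rot_om_zpow, Complex.norm_exp_ofReal_mul_I]
    rw [this, one_mul]
  rw [hn] at h2
  rw [← h2] at h1
  have hn0 : ((‖u.1‖ : ℝ) : ℂ) ≠ 0 := by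
    rw [Complex.ofReal_ne_zero]
    exact norm_ne_zero_iff.2 hu0
  have h4 := mul_left_cancel₀ hn0 h1
  rw [Complex.exp_eq_exp_iff_exists_int] at h4
  obtain ⟨k, hk⟩ := h4
  set θ' := Complex.arg (om m ^ i * u.1) with hθ'
  have h5 : θ' = Complex.arg u.1 + i * (2 * (Real.pi / m)) + k * (2 * Real.pi) := by
    have h6 : (θ' : ℂ) =
        ((Complex.arg u.1 + i * (2 * (Real.pi / m)) + k * (2 * Real.pi) : ℝ) : ℂ) := by
      have h7 : (θ' : ℂ) * Complex.I = ((Complex.arg u.1 + i * (2 * (Real.pi / m)) +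
          k * (2 * Real.pi) : ℝ) : ℂ) * Complex.I := by
        rw [hk]
        push_cast
        ring
      exact mul_right_cancel₀ Complex.I_ne_zero h7
    exact_mod_cast h6
  have h8 : Real.pi = m * (Real.pi / m) := by
    field_simp
  have h9 : θ' - Complex.arg u.1 = (i + m * k : ℝ) * (2 * (Real.pi / m)) := by
    rw [h5]
    conv_lhs => rw [h8]
    have h10 : (m : ℝ) * (Real.pi / m) / m = Real.pi / m := by
      field_simp
    rw [h10]
    ring
  have h11 : |θ' - Complex.arg u.1| < 1 * (2 * (Real.pi / m)) := by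
    rw [abs_lt]
    constructor <;> linarith [hi1.1, hi1.2, hu1.1, hu1.2]
  rw [h9, abs_mul, abs_of_pos (by positivity : 0 < 2 * (Real.pi / m))] at h11
  have h12 := lt_of_mul_lt_mul_right h11 (by positivity)
  have h13 : |i + m * k| < 1 := by
    have : ((|i + m * k| : ℤ) : ℝ) < 1 := by
      push_cast
      exact h12
    exact_mod_cast this
  rw [Int.abs_lt_one_iff] at h13
  exact ⟨-k, by linarith⟩

end Pool.Agent.Lib.MP_f406e2_lc_OC
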