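import Pool.Agent.Lib.MP_f406e2_lc_OC.Gal
import Pool.Agent.Lib.MP_f406e2_lc_OC.Rot

/-! # The lattice and its conjugation -/

open Complex ComplexConjugate

namespace Pool.Agent.Lib.MP_f406e2_lc_OC

private theorem Lat_eq (m : ℕ) (hm : Odd m) (h3 : 3 ≤ m) (P Q : Polynomial ℤ)
    (h : Polynomial.aeval (cc m) P = Polynomial.aeval (cc m) Q) :
    Polynomial.aeval (cg m) P = Polynomial.aeval (cg m) Q := by
  have h1 := gal m hm h3 (P - Q) (by rw [map_sub, h, sub_self])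
  rw [map_sub] at h1
  exact sub_eq_zero.mp h1

theorem lp_fun (m : ℕ) (hm : Odd m) (h3 : 3 ≤ m) (v v' v'' : V3) (h : Lp m v v')
    (h' : Lp m v v'') : v' = v'' := by
  obtain ⟨P, Q, S, hv, rfl⟩ := h
  obtain ⟨P', Q', S', hv', rfl⟩ := h'
  rw [hv] at hv'
  obtain ⟨h1, h2⟩ := Prod.mk.inj hv'
  obtain ⟨h4, h5⟩ := Prod.mk.inj h2
  rw [Lat_eq m hm h3 _ _ h1, Lat_eq m hm h3 _ _ h4, Lat_eq m hm h3 _ _ h5]

theorem lp_Ri (m : ℕ) (v v' : V3) (h : Lp m v v') : Lp m (Ri (cc m) v) (Ri (cg m) v') := by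
  obtain ⟨P, Q, S, rfl, rfl⟩ := h
  refine ⟨P - Polynomial.X * Q + (Polynomial.X - Polynomial.X ^ 2) * S,
    -Q - Polynomial.X * S, Polynomial.X * Q + (Polynomial.X ^ 2 - 1) * S, ?_, ?_⟩ <;>
  · simp only [Ri, map_add, map_sub, map_mul, map_neg, map_pow, map_one, Polynomial.aeval_X]

theorem lp_rm (m : ℕ) (v v' : V3) (h : Lp m v v') : Lp m (rV (cc m) v) (rV (cg m) v') := by
  obtain ⟨P, Q, S, rfl, rfl⟩ := h
  refine ⟨Q + Polynomial.X * S, P + Polynomial.X * S, -S, ?_, ?_⟩ <;>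
  · simp only [rV, map_add, map_mul, map_neg, Polynomial.aeval_X]

theorem lp_hm (m : ℕ) (v v' : V3) (h : Lp m v v') : Lp m (hV (cc m) v) (hV (cg m) v') := by
  obtain ⟨P, Q, S, rfl, rfl⟩ := h
  refine ⟨-P - Polynomial.X * S, -Q - Polynomial.X * S, S, ?_, ?_⟩ <;>
  · simp only [hV, map_sub, map_mul, map_neg, Polynomial.aeval_X]

private theorem Lat_R (c : ℝ) (v : V3) :
    ((Ri c v).1 + (c ^ 2 - c) * (Ri c v).2.1 + c * (Ri c v).2.2,
      (c ^ 2 - 1) * (Ri c v).2.1 + c * (Ri c v).2.2, -c * (Ri c v).2.1 - (Ri c v).2.2) = v := by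
  obtain ⟨p, q, s⟩ := v
  simp only [Ri, Prod.mk.injEq]
  refine ⟨by ring, by ring, by ring⟩

theorem lp_Ri_iff (m : ℕ) (v : V3) : (∃ v', Lp m (Ri (cc m) v) v') ↔ ∃ v', Lp m v v' := by
  constructor
  · rintro ⟨w, P, Q, S, hv, hw⟩
    have h := Lat_R (cc m) v
    rw [hv] at h
    refine ⟨_, P + (Polynomial.X ^ 2 - Polynomial.X) * Q + Polynomial.X * S,
      (Polynomial.X ^ 2 - 1) * Q + Polynomial.X * S, -Polynomial.X * Q - S, ?_, rfl⟩
    rw [← h]
    simp only [map_add, map_sub, map_mul, map_neg, map_pow, map_one, Polynomial.aeval_X]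
  · rintro ⟨w, hw⟩
    exact ⟨_, lp_Ri m v w hw⟩

private theorem Lat_rV (c : ℝ) (v : V3) : rV c (rV c v) = v := by
  obtain ⟨p, q, s⟩ := v
  simp only [rV, Prod.mk.injEq]
  refine ⟨by ring, by ring, by ring⟩

private theorem Lat_hV (c : ℝ) (v : V3) : hV c (hV c v) = v := by
  obtain ⟨p, q, s⟩ := v
  simp only [hV, Prod.mk.injEq]
  refine ⟨by ring, by ring, trivial⟩

theorem lp_rm_iff (m : ℕ) (v : V3) : (∃ v', Lp m (rV (cc m) v) v') ↔ ∃ v', Lp m v v' := by
  constructor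
  · rintro ⟨w, hw⟩
    have h := lp_rm m _ w hw
    rw [Lat_rV] at h
    exact ⟨_, h⟩
  · rintro ⟨w, hw⟩
    exact ⟨_, lp_rm m v w hw⟩

theorem lp_hm_iff (m : ℕ) (v : V3) : (∃ v', Lp m (hV (cc m) v) v') ↔ ∃ v', Lp m v v' := by
  constructor
  · rintro ⟨w, hw⟩
    have h := lp_hm m _ w hw
    rw [Lat_hV] at h
    exact ⟨_, h⟩
  · rintro ⟨w, hw⟩
    exact ⟨_, lp_hm m v w hw⟩

private theorem Lat_countable : Countable (Polynomial ℤ) := by
  rw [← Cardinal.mk_le_aleph0_iff]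
  refine Polynomial.cardinalMk_le_max.trans ?_
  rw [max_le_iff]
  exact ⟨Cardinal.mk_le_aleph0, le_rfl⟩

theorem lp_countable (m : ℕ) : {v : V3 | ∃ v', Lp m v v'}.Countable := by
  have h1 := Lat_countable
  have h2 : Countable (Polynomial ℤ × Polynomial ℤ × Polynomial ℤ) := inferInstance
  refine (Set.countable_range fun t : Polynomial ℤ × Polynomial ℤ × Polynomial ℤ =>
    ((Polynomial.aeval (cc m) t.1, Polynomial.aeval (cc m) t.2.1,
      Polynomial.aeval (cc m) t.2.2) : V3)).mono ?_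
  rintro v ⟨v', P, Q, S, hv, -⟩
  exact ⟨(P, Q, S), hv.symm⟩

/-! ### coordinates -/

private noncomputable def Lat_k (m : ℕ) : ℝ := Real.cos (2 * Real.pi / m)

private noncomputable def Lat_t (m : ℕ) : ℝ := Real.sin (2 * Real.pi / m)

private theorem Lat_sq (m : ℕ) : Lat_t m ^ 2 = 1 - Lat_k m ^ 2 := by
  have := Real.sin_sq_add_cos_sq (2 * Real.pi / m)
  unfold Lat_t Lat_k
  linarith

private theorem Lat_om (m : ℕ) : om m = ⟨Lat_k m, Lat_t m⟩ := by
  have h : (2 * Real.pi / m * Complex.I : ℂ) = ((2 * Real.pi / m : ℝ) : ℂ) * Complex.I := by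
    push_cast
    ring
  unfold om Lat_k Lat_t
  rw [h]
  apply Complex.ext
  · rw [Complex.exp_ofReal_mul_I_re]
  · rw [Complex.exp_ofReal_mul_I_im]

private theorem Lat_om_inv (m : ℕ) : (om m)⁻¹ = ⟨Lat_k m, -Lat_t m⟩ := by
  have h1 : om m * ⟨Lat_k m, -Lat_t m⟩ = 1 := by
    rw [Lat_om]
    have := Lat_sq m
    apply Complex.ext
    · simp only [Complex.mul_re, Complex.one_re]
      nlinarith
    · simp only [Complex.mul_im, Complex.one_im]
      ring
  exact inv_eq_of_mul_eq_one_right h1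

private theorem Lat_cg (m : ℕ) : cg m = -(2 * Lat_k m) := rfl

private theorem Lat_sa (m : ℕ) : Lat_k m = 1 - 2 * sa m ^ 2 := by
  have h : 2 * Real.pi / m = 2 * (Real.pi / m) := by ring
  unfold Lat_k sa
  rw [h, Real.cos_two_mul]
  have := Real.sin_sq_add_cos_sq (Real.pi / m)
  linarith

private theorem Lat_sa_pos (m : ℕ) (h7 : 7 ≤ m) : 0 < sa m := by
  have h1 : (7 : ℝ) ≤ m := by exact_mod_cast h7
  unfold sa
  apply Real.sin_pos_of_pos_of_lt_pi
  · exact div_pos Real.pi_pos (by linarith)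
  · exact div_lt_self Real.pi_pos (by linarith)

private theorem Lat_two_add (m : ℕ) : 2 + cg m = 4 * sa m ^ 2 := by
  rw [Lat_cg, Lat_sa]
  ring

private theorem Lat_pos (m : ℕ) (h7 : 7 ≤ m) : 0 < 2 + cg m := by
  rw [Lat_two_add]
  have := Lat_sa_pos m h7
  positivity

/-- `Ch (1 - cos ψ) = cos ψ` -/
private theorem Lat_Ch (m : ℕ) (h7 : 7 ≤ m) : Ch m * (1 - Lat_k m) = Lat_k m := by
  have := Lat_sa_pos m h7
  rw [Lat_sa]
  unfold Ch
  field_simp
  ring

private theorem Lat_Phi (m : ℕ) (v : V3) : Phi m v =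
    (⟨Sh m * (v.2.1 - v.2.2 * Lat_k m), Sh m * (v.2.2 * Lat_t m)⟩,
      v.1 + Ch m * (v.2.1 - v.2.2)) := by
  unfold Phi
  rw [Lat_om_inv]
  congr 1
  apply Complex.ext
  · simp
  · simp

theorem phi_Ri (m : ℕ) (h7 : 7 ≤ m) (v : V3) : Phi m (Ri (cg m) v) = rotg m (-2) (Phi m v) := by
  obtain ⟨p, q, s⟩ := v
  have hk := Lat_sq m
  have hC := Lat_Ch m h7
  have hom : om m ^ (-2 : ℤ) = ⟨Lat_k m ^ 2 - Lat_t m ^ 2, -(2 * Lat_k m * Lat_t m)⟩ := by
    have h1 : om m ^ (-2 : ℤ) = (om m)⁻¹ * (om m)⁻¹ := by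
      rw [zpow_neg, ← mul_inv]
      congr 1
      exact pow_two _
    rw [h1, Lat_om_inv]
    apply Complex.ext
    · simp only [Complex.mul_re]
      ring
    · simp only [Complex.mul_im]
      ring
  rw [rotg, Lat_Phi, Lat_Phi, hom]
  simp only [Ri, Lat_cg]
  refine Prod.ext ?_ ?_
  · apply Complex.ext
    · simp only [Complex.mul_re]
      linear_combination (Sh m * (q - s * Lat_k m) - 2 * Lat_k m * Sh m * s) * hk
    · simp only [Complex.mul_im]
      linear_combination (Sh m * s * Lat_t m) * hk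
  · simp only
    linear_combination (-(q) * 2 + 4 * Lat_k m * s + 2 * s) * hC

theorem phi_rm (m : ℕ) (h7 : 7 ≤ m) (v : V3) : Phi m (rV (cg m) v) = rg m (Phi m v) := by
  obtain ⟨p, q, s⟩ := v
  have hC := Lat_Ch m h7
  have hS := Ch_sq m h7
  rw [rg, Lat_Phi, Lat_Phi]
  simp only [rV, Lat_cg]
  refine Prod.ext ?_ ?_
  · apply Complex.ext
    · simp only
      linear_combination (Sh m * s) * hC
    · simp only
      ring
  · simp only
    linear_combination (s + s * Ch m) * hC - (q - s * Lat_k m) * hS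

theorem phi_hm (m : ℕ) (h7 : 7 ≤ m) (v : V3) : Phi m (hV (cg m) v) = hg (Phi m v) := by
  obtain ⟨p, q, s⟩ := v
  have hC := Lat_Ch m h7
  rw [hg, Lat_Phi, Lat_Phi]
  simp only [hV, Lat_cg]
  refine Prod.ext ?_ ?_
  · apply Complex.ext
    · simp only [Complex.neg_re, Complex.conj_re]
      ring
    · simp only [Complex.neg_im, Complex.conj_im]
      ring
  · simp only
    linear_combination (-2 * s) * hC

theorem phi_norm (m : ℕ) (h7 : 7 ≤ m) (v : V3) :
    (2 + cg m) * Mk (Phi m v) = -Qs (cg m) v := by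
  obtain ⟨p, q, s⟩ := v
  have hk := Lat_sq m
  have hC := Lat_Ch m h7
  have hS := Ch_sq m h7
  rw [Mk, Lat_Phi, Complex.normSq_mk]
  simp only [Qs, Lat_cg]
  linear_combination (4 * q * s - 4 * p * (q - s) +
    (2 - 2 * Lat_k m) * (2 * q * s * Ch m - 2 * q * s)) * hC -
    (2 - 2 * Lat_k m) * (q ^ 2 + s ^ 2 - 2 * q * s * Lat_k m) * hS +
    (2 - 2 * Lat_k m) * Sh m ^ 2 * s ^ 2 * hk

/-- lattice points of the sphere are conjugate to points of the hyperboloid -/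
theorem lat_time (m : ℕ) (hm : Odd m) (h7 : 7 ≤ m) (v v' : V3) (h : Lp m v v')
    (hQ : Qs (cc m) v = 2 + cc m) : Mk (Phi m v') = -1 := by
  obtain ⟨P, Q, S, rfl, rfl⟩ := h
  have h2 := Lat_pos m h7
  have h1 := gal m hm (by omega) ((2 + Polynomial.X) * (P ^ 2 + Q ^ 2 + S ^ 2) -
    2 * Polynomial.X * (P * Q) + 2 * Polynomial.X * (P * S) + 2 * Polynomial.X * (Q * S) -
    (2 + Polynomial.X)) (by
      simp only [map_add, map_sub, map_mul, map_pow, map_ofNat, Polynomial.aeval_X]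
      simp only [Qs] at hQ
      linarith)
  simp only [map_add, map_sub, map_mul, map_pow, map_ofNat, Polynomial.aeval_X] at h1
  have h4 := phi_norm m h7 (Polynomial.aeval (cg m) P, Polynomial.aeval (cg m) Q,
    Polynomial.aeval (cg m) S)
  simp only [Qs] at h4
  have h5 : (2 + cg m) * Mk (Phi m (Polynomial.aeval (cg m) P, Polynomial.aeval (cg m) Q,
    Polynomial.aeval (cg m) S)) = (2 + cg m) * (-1) := by
    rw [h4]
    linarith
  exact mul_left_cancel₀ h2.ne' h5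

/-- the lattice vectors of the length of `N - b₀` are conjugate to spacelike vectors -/
theorem lat_space (m : ℕ) (hm : Odd m) (h7 : 7 ≤ m) (v v' : V3) (h : Lp m v v')
    (hQ : Qs (cc m) v = 4 + 4 * cc m) : 0 < Mk (Phi m v') := by
  obtain ⟨P, Q, S, rfl, rfl⟩ := h
  have h2 := Lat_pos m h7
  have h1 := gal m hm (by omega) ((2 + Polynomial.X) * (P ^ 2 + Q ^ 2 + S ^ 2) -
    2 * Polynomial.X * (P * Q) + 2 * Polynomial.X * (P * S) + 2 * Polynomial.X * (Q * S) -
    (4 + 4 * Polynomial.X)) (by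
      simp only [map_add, map_sub, map_mul, map_pow, map_ofNat, Polynomial.aeval_X]
      simp only [Qs] at hQ
      linarith)
  simp only [map_add, map_sub, map_mul, map_pow, map_ofNat, Polynomial.aeval_X] at h1
  have h4 := phi_norm m h7 (Polynomial.aeval (cg m) P, Polynomial.aeval (cg m) Q,
    Polynomial.aeval (cg m) S)
  simp only [Qs] at h4
  have h6 : 1 / 2 < Real.cos (2 * Real.pi / m) := by
    have h8 : (7 : ℝ) ≤ m := by exact_mod_cast h7
    rw [← Real.cos_pi_div_three]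
    apply Real.cos_lt_cos_of_nonneg_of_le_pi_div_two
    · have := Real.pi_pos
      positivity
    · linarith [Real.pi_pos]
    · rw [div_lt_div_iff₀ (by linarith) (by norm_num)]
      nlinarith [Real.pi_pos]
  have h7' : 4 + 4 * cg m < 0 := by
    unfold cg
    linarith
  have h5 : 0 < (2 + cg m) * Mk (Phi m (Polynomial.aeval (cg m) P, Polynomial.aeval (cg m) Q,
    Polynomial.aeval (cg m) S)) := by
    rw [h4]
    linarith
  exact (mul_pos_iff_of_pos_left h2).mp h5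

end Pool.Agent.Lib.MP_f406e2_lc_OC
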