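import Pool.Agent.Lib.MP_f406e2_lc_OC.Defs

/-! # The tile -/

namespace Pool.Agent.Lib.MP_f406e2_lc_OC

theorem Qs_Ri (c : ℝ) (v : V3) : Qs c (Ri c v) = Qs c v := by
  obtain ⟨p, q, s⟩ := v
  simp only [Qs, Ri]
  ring

theorem Qs_rm (c : ℝ) (v : V3) : Qs c (rV c v) = Qs c v := by
  obtain ⟨p, q, s⟩ := v
  simp only [Qs, rV]
  ring

theorem Qs_hm (c : ℝ) (v : V3) : Qs c (hV c v) = Qs c v := by
  obtain ⟨p, q, s⟩ := v
  simp only [Qs, hV]
  ring

private theorem Tile_cyc {x y z : ℝ} (h : Same3 x y z) : Same3 y z x := by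
  rcases h with ⟨a, b, c⟩ | ⟨a, b, c⟩
  · exact Or.inl ⟨b, c, a⟩
  · exact Or.inr ⟨b, c, a⟩

private theorem Tile_rev {x y z : ℝ} (h : Same3 (-x) (-y) (-z)) : Same3 z y x := by
  rcases h with ⟨a, b, c⟩ | ⟨a, b, c⟩
  · exact Or.inr ⟨by linarith, by linarith, by linarith⟩
  · exact Or.inl ⟨by linarith, by linarith, by linarith⟩

private theorem Tile_swap1 (c l1 l2 l3 l4 : ℝ) (h : TileC c l3 l4 l1 l2) :
    TileC c l1 l2 l3 l4 := by
  rcases h with ⟨h1, h2, h3, h4⟩ | ⟨h1, h2, h3, h4⟩ | ⟨h1, h2, h3⟩ | ⟨h1, h2, h3⟩ | ⟨h1, h2, h3⟩ |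
    ⟨h1, h2, h3⟩
  · exact Or.inl ⟨h3, h4, h1, h2⟩
  · exact Or.inr (Or.inl ⟨h3, h4, h1, h2⟩)
  · exact Or.inr (Or.inr (Or.inr (Or.inr (Or.inl ⟨h1, Tile_cyc h2, h3⟩))))
  · exact Or.inr (Or.inr (Or.inr (Or.inr (Or.inr ⟨h1, Tile_cyc h2, h3⟩))))
  · exact Or.inr (Or.inr (Or.inl ⟨h1, Tile_cyc (Tile_cyc h2), h3⟩))
  · exact Or.inr (Or.inr (Or.inr (Or.inl ⟨h1, Tile_cyc (Tile_cyc h2), h3⟩)))

private theorem Tile_swap (c l1 l2 l3 l4 : ℝ) : TileC c l3 l4 l1 l2 ↔ TileC c l1 l2 l3 l4 :=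
  ⟨Tile_swap1 c l1 l2 l3 l4, Tile_swap1 c l3 l4 l1 l2⟩

private theorem Tile_neg1 (c l1 l2 l3 l4 : ℝ) (h : TileC c (-l4) (-l3) (-l2) (-l1)) :
    TileC c l1 l2 l3 l4 := by
  rcases h with ⟨h1, h2, h3, h4⟩ | ⟨h1, h2, h3, h4⟩ | ⟨h1, h2, h3⟩ | ⟨h1, h2, h3⟩ | ⟨h1, h2, h3⟩ |
    ⟨h1, h2, h3⟩
  · exact Or.inr (Or.inl ⟨by linarith, by linarith, by linarith, by linarith⟩)
  · exact Or.inl ⟨by linarith, by linarith, by linarith, by linarith⟩
  · exact Or.inr (Or.inr (Or.inr (Or.inr (Or.inr ⟨by linarith, Tile_rev h2, by linarith⟩))))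
  · exact Or.inr (Or.inr (Or.inr (Or.inr (Or.inl ⟨by linarith, Tile_rev h2, by linarith⟩))))
  · exact Or.inr (Or.inr (Or.inr (Or.inl ⟨by linarith, Tile_rev h2, by linarith⟩)))
  · exact Or.inr (Or.inr (Or.inl ⟨by linarith, Tile_rev h2, by linarith⟩))

private theorem Tile_neg (c l1 l2 l3 l4 : ℝ) :
    TileC c (-l4) (-l3) (-l2) (-l1) ↔ TileC c l1 l2 l3 l4 :=
  ⟨Tile_neg1 c l1 l2 l3 l4, fun h => Tile_neg1 c _ _ _ _ (by simpa only [neg_neg] using h)⟩

theorem tile_rm (c : ℝ) (v : V3) : rV c v ∈ That c ↔ v ∈ That c := by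
  obtain ⟨p, q, s⟩ := v
  have h := Tile_swap c q p (p + c * s) (q + c * s)
  show TileC c (p + c * s) (q + c * s) (q + c * s + c * -s) (p + c * s + c * -s) ↔
    TileC c q p (p + c * s) (q + c * s)
  rw [← h]
  have h1 : q + c * s + c * -s = q := by ring
  have h2 : p + c * s + c * -s = p := by ring
  rw [h1, h2]

theorem tile_hm (c : ℝ) (v : V3) : hV c v ∈ That c ↔ v ∈ That c := by
  obtain ⟨p, q, s⟩ := v
  have h := Tile_neg c q p (p + c * s) (q + c * s)
  show TileC c (-q - c * s) (-p - c * s) (-p - c * s + c * s) (-q - c * s + c * s) ↔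
    TileC c q p (p + c * s) (q + c * s)
  rw [← h]
  have h1 : -q - c * s + c * s = -q := by ring
  have h2 : -p - c * s + c * s = -p := by ring
  have h3 : -q - c * s = -(q + c * s) := by ring
  have h4 : -p - c * s = -(p + c * s) := by ring
  rw [h1, h2, h3, h4]

theorem tile_meas (c : ℝ) : MeasurableSet (That c) := by
  have m1 : Measurable (fun v : V3 => v.2.1) := by fun_prop
  have m2 : Measurable (fun v : V3 => v.1) := by fun_prop
  have m3 : Measurable (fun v : V3 => v.1 + c * v.2.2) := by fun_prop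
  have m4 : Measurable (fun v : V3 => v.2.1 + c * v.2.2) := by fun_prop
  have hp : ∀ {l : V3 → ℝ}, Measurable l → MeasurableSet {v | 0 < l v} := fun h =>
    measurableSet_lt measurable_const h
  have hn : ∀ {l : V3 → ℝ}, Measurable l → MeasurableSet {v | l v < 0} := fun h =>
    measurableSet_lt h measurable_const
  have hz : ∀ {l : V3 → ℝ}, Measurable l → MeasurableSet {v | l v = 0} := fun h =>
    measurableSet_eq_fun h measurable_const
  have hs : ∀ {l l' l'' : V3 → ℝ}, Measurable l → Measurable l' → Measurable l'' →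
      MeasurableSet {v | Same3 (l v) (l' v) (l'' v)} := fun h h' h'' =>
    ((hp h).inter ((hp h').inter (hp h''))).union ((hn h).inter ((hn h').inter (hn h'')))
  have hl : ∀ {l l' : V3 → ℝ}, Measurable l → Measurable l' → MeasurableSet {v | l v < l' v} :=
    fun h h' => measurableSet_lt h h'
  have e1 : MeasurableSet {v : V3 | 0 < v.2.1 ∧ 0 < v.1 ∧ 0 < v.1 + c * v.2.2 ∧
      0 < v.2.1 + c * v.2.2} := (hp m1).inter ((hp m2).inter ((hp m3).inter (hp m4)))
  have e2 : MeasurableSet {v : V3 | v.2.1 < 0 ∧ v.1 < 0 ∧ v.1 + c * v.2.2 < 0 ∧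
      v.2.1 + c * v.2.2 < 0} := (hn m1).inter ((hn m2).inter ((hn m3).inter (hn m4)))
  have e3 : MeasurableSet {v : V3 | v.2.1 = 0 ∧ Same3 v.1 (v.1 + c * v.2.2) (v.2.1 + c * v.2.2) ∧
      v.2.1 + c * v.2.2 < c * v.1} :=
    (hz m1).inter ((hs m2 m3 m4).inter (hl m4 (m2.const_mul c)))
  have e4 : MeasurableSet {v : V3 | v.1 = 0 ∧ Same3 v.2.1 (v.1 + c * v.2.2) (v.2.1 + c * v.2.2) ∧
      c * v.2.1 < v.1 + c * v.2.2} :=
    (hz m2).inter ((hs m1 m3 m4).inter (hl (m1.const_mul c) m3))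
  have e5 : MeasurableSet {v : V3 | v.1 + c * v.2.2 = 0 ∧ Same3 v.2.1 v.1 (v.2.1 + c * v.2.2) ∧
      v.1 < c * (v.2.1 + c * v.2.2)} :=
    (hz m3).inter ((hs m1 m2 m4).inter (hl m2 (m4.const_mul c)))
  have e6 : MeasurableSet {v : V3 | v.2.1 + c * v.2.2 = 0 ∧ Same3 v.2.1 v.1 (v.1 + c * v.2.2) ∧
      c * (v.1 + c * v.2.2) < v.2.1} :=
    (hz m4).inter ((hs m1 m2 m3).inter (hl (m3.const_mul c) m1))
  exact e1.union (e2.union (e3.union (e4.union (e5.union e6))))

private theorem Tile_cc_pos (m : ℕ) (h3 : 3 ≤ m) : 0 < cc m := by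
  have h1 : (3 : ℝ) ≤ m := by exact_mod_cast h3
  have h2 : 0 < Real.pi / m := div_pos Real.pi_pos (by linarith)
  have h4 : Real.pi / m < Real.pi / 2 :=
    div_lt_div_of_pos_left Real.pi_pos (by norm_num) (by linarith)
  have h5 : 0 < Real.cos (Real.pi / m) := Real.cos_pos_of_mem_Ioo ⟨by linarith [Real.pi_pos], h4⟩
  unfold cc
  linarith

private theorem Tile_sq {x : ℝ} (h : x ^ 2 = 1) : ∃ n : ℤ, x = n := by
  have h1 : (x - 1) * (x + 1) = 0 := by linear_combination h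
  rcases mul_eq_zero.1 h1 with h2 | h2
  · exact ⟨1, by push_cast; linarith⟩
  · exact ⟨-1, by push_cast; linarith⟩

/-- integer multiples of integer polynomials -/
private theorem Tile_mk (m : ℕ) (n : ℤ) (P Q S : Polynomial ℤ) {v : V3}
    (h1 : v.1 = n * Polynomial.aeval (cc m) P) (h2 : v.2.1 = n * Polynomial.aeval (cc m) Q)
    (h4 : v.2.2 = n * Polynomial.aeval (cc m) S) : ∃ v', Lp m v v' := by
  refine ⟨_, Polynomial.C n * P, Polynomial.C n * Q, Polynomial.C n * S, ?_, rfl⟩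
  obtain ⟨p, q, s⟩ := v
  simp only at h1 h2 h4
  rw [h1, h2, h4]
  simp

/-- the points of the sphere in the exceptional directions belong to the lattice, possibly after
multiplication by the length `√((4 + 4c) / (2 + c))` of `N - b₀` -/
theorem exc_lat (m : ℕ) (h3 : 3 ≤ m) (v : V3) (hv : v ∈ Exc (cc m))
    (hQ : Qs (cc m) v = 2 + cc m) :
    (∃ v', Lp m v v') ∨ ∃ v', Lp m (Real.sqrt ((4 + 4 * cc m) / (2 + cc m)) • v) v' := by
  have hc := Tile_cc_pos m h3
  have hX : Polynomial.aeval (cc m) (Polynomial.X : Polynomial ℤ) = cc m := by simp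
  have h1 : Polynomial.aeval (cc m) (1 : Polynomial ℤ) = 1 := by simp
  have h0 : Polynomial.aeval (cc m) (0 : Polynomial ℤ) = 0 := by simp
  have hX1 : Polynomial.aeval (cc m) (1 + Polynomial.X : Polynomial ℤ) = 1 + cc m := by simp
  have hm1 : Polynomial.aeval (cc m) (-1 : Polynomial ℤ) = -1 := by simp
  generalize hcd : cc m = c at *
  have hW : Real.sqrt ((4 + 4 * c) / (2 + c)) ^ 2 = (4 + 4 * c) / (2 + c) :=
    Real.sq_sqrt (by positivity)
  generalize Real.sqrt ((4 + 4 * c) / (2 + c)) = W at *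
  have hc2 : (2 + c) ≠ 0 := by positivity
  have key : ∀ x : ℝ, x ^ 2 * (4 + 4 * c) = 2 + c → ∃ n : ℤ, W * x = n := by
    intro x hx
    apply Tile_sq
    rw [mul_pow, hW]
    field_simp
    linear_combination hx
  have key1 : ∀ x : ℝ, x ^ 2 * (2 + c) = 2 + c → ∃ n : ℤ, x = n := by
    intro x hx
    apply Tile_sq
    apply mul_right_cancel₀ hc2
    linear_combination hx
  obtain ⟨p, q, s⟩ := v
  have hQ' : (2 + c) * (p ^ 2 + q ^ 2 + s ^ 2) - 2 * c * (p * q) + 2 * c * (p * s)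
    + 2 * c * (q * s) = 2 + c := hQ
  have hv' : (q = 0 ∧ p = 0) ∨ (p = 0 ∧ p + c * s = 0) ∨ (p + c * s = 0 ∧ q + c * s = 0) ∨
      (q + c * s = 0 ∧ q = 0) ∨ (q = 0 ∧ q + c * s = c * p) ∨ (p = 0 ∧ p + c * s = c * q) ∨
      (p + c * s = 0 ∧ p = c * (q + c * s)) ∨ (q + c * s = 0 ∧ q = c * (p + c * s)) := hv
  rcases hv' with ⟨ha, hb⟩ | ⟨ha, hb⟩ | ⟨ha, hb⟩ | ⟨ha, hb⟩ | ⟨ha, hb⟩ | ⟨ha, hb⟩ | ⟨ha, hb⟩ |
    ⟨ha, hb⟩
  · left
    subst ha hb
    obtain ⟨n, hn⟩ := key1 s (by linear_combination hQ')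
    exact Tile_mk m n 0 0 1 (by rw [hcd, h0]; ring) (by rw [hcd, h0]; ring)
      (by rw [hcd, h1]; linarith)
  · left
    subst ha
    have hs : s = 0 := by
      have : c * s = 0 := by linarith
      rcases mul_eq_zero.1 this with h | h
      · linarith
      · exact h
    subst hs
    obtain ⟨n, hn⟩ := key1 q (by linear_combination hQ')
    exact Tile_mk m n 0 1 0 (by rw [hcd, h0]; ring) (by rw [hcd, h1]; linarith)
      (by rw [hcd, h0]; ring)
  · left
    have hp : p = -(c * s) := by linarith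
    have hq : q = -(c * s) := by linarith
    subst hp hq
    obtain ⟨n, hn⟩ := key1 s (by linear_combination hQ')
    exact Tile_mk m n (-Polynomial.X) (-Polynomial.X) 1
      (by rw [hcd, map_neg, hX]; show -(c * s) = _; rw [hn]; ring)
      (by rw [hcd, map_neg, hX]; show -(c * s) = _; rw [hn]; ring)
      (by rw [hcd, h1]; linarith)
  · left
    subst hb
    have hs : s = 0 := by
      have : c * s = 0 := by linarith
      rcases mul_eq_zero.1 this with h | h
      · linarith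
      · exact h
    subst hs
    obtain ⟨n, hn⟩ := key1 p (by linear_combination hQ')
    exact Tile_mk m n 1 0 0 (by rw [hcd, h1]; linarith) (by rw [hcd, h0]; ring)
      (by rw [hcd, h0]; ring)
  · right
    subst ha
    have hs : s = p := by
      apply mul_left_cancel₀ hc.ne'
      linarith
    subst hs
    obtain ⟨n, hn⟩ := key s (by linear_combination hQ')
    exact Tile_mk m n 1 0 1 (by rw [hcd, h1]; show W * s = _; rw [hn]; ring)
      (by rw [hcd, h0]; show W * 0 = _; ring) (by rw [hcd, h1]; show W * s = _; rw [hn]; ring)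
  · right
    subst ha
    have hs : s = q := by
      apply mul_left_cancel₀ hc.ne'
      linarith
    subst hs
    obtain ⟨n, hn⟩ := key s (by linear_combination hQ')
    exact Tile_mk m n 0 1 1 (by rw [hcd, h0]; show W * 0 = _; ring)
      (by rw [hcd, h1]; show W * s = _; rw [hn]; ring)
      (by rw [hcd, h1]; show W * s = _; rw [hn]; ring)
  · right
    have hp : p = -(c * s) := by linarith
    subst hp
    have hq : q = -((1 + c) * s) := by
      apply mul_left_cancel₀ hc.ne'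
      linarith
    subst hq
    obtain ⟨n, hn⟩ := key s (by linear_combination hQ')
    exact Tile_mk m n (-Polynomial.X) (-(1 + Polynomial.X)) 1
      (by rw [hcd, map_neg, hX]; show W * -(c * s) = _; rw [← hn]; ring)
      (by rw [hcd, map_neg, hX1]; show W * -((1 + c) * s) = _; rw [← hn]; ring)
      (by rw [hcd, h1]; show W * s = _; rw [hn]; ring)
  · right
    have hq : q = -(c * s) := by linarith
    subst hq
    have hp : p = -((1 + c) * s) := by
      apply mul_left_cancel₀ hc.ne'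
      linarith
    subst hp
    obtain ⟨n, hn⟩ := key s (by linear_combination hQ')
    exact Tile_mk m n (-(1 + Polynomial.X)) (-Polynomial.X) 1
      (by rw [hcd, map_neg, hX1]; show W * -((1 + c) * s) = _; rw [← hn]; ring)
      (by rw [hcd, map_neg, hX]; show W * -(c * s) = _; rw [← hn]; ring)
      (by rw [hcd, h1]; show W * s = _; rw [hn]; ring)

end Pool.Agent.Lib.MP_f406e2_lc_OC
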