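import Pool.Agent.Lib.MP_f406e2_lc_OC.Defs

/-! # The rotated tiles form a partition -/

namespace Pool.Agent.Lib.MP_f406e2_lc_OC

private def TilePart_E (c l1 l2 l3 l4 : ℝ) : Prop :=
  (l1 = 0 ∧ l2 = 0) ∨ (l2 = 0 ∧ l3 = 0) ∨ (l3 = 0 ∧ l4 = 0) ∨ (l4 = 0 ∧ l1 = 0) ∨
    (l1 = 0 ∧ l4 = c * l2) ∨ (l2 = 0 ∧ l3 = c * l1) ∨ (l3 = 0 ∧ l2 = c * l4) ∨
    (l4 = 0 ∧ l1 = c * l3)

/-! ### The conditions -/

private theorem TilePart_opp {c l1 l2 l3 l4 : ℝ}
    (h : (0 < l1 ∧ l4 < 0) ∨ (l1 < 0 ∧ 0 < l4)) : ¬ TileC c l1 l2 l3 l4 := by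
  unfold TileC Same3
  rcases h with ⟨h1, h2⟩ | ⟨h1, h2⟩ <;>
  rintro (⟨a, b, c', d⟩ | ⟨a, b, c', d⟩ | ⟨a, ⟨b, c', d⟩ | ⟨b, c', d⟩, e⟩ |
    ⟨a, ⟨b, c', d⟩ | ⟨b, c', d⟩, e⟩ | ⟨a, ⟨b, c', d⟩ | ⟨b, c', d⟩, e⟩ |
    ⟨a, ⟨b, c', d⟩ | ⟨b, c', d⟩, e⟩) <;> linarith

private theorem TilePart_pos {c l1 l2 l3 l4 : ℝ} (h1 : 0 < l1) (h4 : 0 < l4) :
    TileC c l1 l2 l3 l4 ↔ (0 < l2 ∧ 0 < l3) ∨ (l2 = 0 ∧ 0 < l3 ∧ c * l1 < l3) ∨
      (l3 = 0 ∧ 0 < l2 ∧ l2 < c * l4) := by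
  unfold TileC Same3
  constructor
  · rintro (⟨a, b, c', d⟩ | ⟨a, b, c', d⟩ | ⟨a, ⟨b, c', d⟩ | ⟨b, c', d⟩, e⟩ |
      ⟨a, ⟨b, c', d⟩ | ⟨b, c', d⟩, e⟩ | ⟨a, ⟨b, c', d⟩ | ⟨b, c', d⟩, e⟩ |
      ⟨a, ⟨b, c', d⟩ | ⟨b, c', d⟩, e⟩)
    · exact Or.inl ⟨b, c'⟩
    · linarith
    · linarith
    · linarith
    · exact Or.inr (Or.inl ⟨a, c', e⟩)
    · linarith
    · exact Or.inr (Or.inr ⟨a, c', e⟩)
    · linarith
    · linarith
    · linarith
  · rintro (⟨a, b⟩ | ⟨a, b, e⟩ | ⟨a, b, e⟩)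
    · exact Or.inl ⟨h1, a, b, h4⟩
    · exact Or.inr (Or.inr (Or.inr (Or.inl ⟨a, Or.inl ⟨h1, b, h4⟩, e⟩)))
    · exact Or.inr (Or.inr (Or.inr (Or.inr (Or.inl ⟨a, Or.inl ⟨h1, b, h4⟩, e⟩))))

private theorem TilePart_neg {c l1 l2 l3 l4 : ℝ} (h1 : l1 < 0) (h4 : l4 < 0) :
    TileC c l1 l2 l3 l4 ↔ (l2 < 0 ∧ l3 < 0) ∨ (l2 = 0 ∧ l3 < 0 ∧ c * l1 < l3) ∨
      (l3 = 0 ∧ l2 < 0 ∧ l2 < c * l4) := by
  unfold TileC Same3
  constructor
  · rintro (⟨a, b, c', d⟩ | ⟨a, b, c', d⟩ | ⟨a, ⟨b, c', d⟩ | ⟨b, c', d⟩, e⟩ |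
      ⟨a, ⟨b, c', d⟩ | ⟨b, c', d⟩, e⟩ | ⟨a, ⟨b, c', d⟩ | ⟨b, c', d⟩, e⟩ |
      ⟨a, ⟨b, c', d⟩ | ⟨b, c', d⟩, e⟩)
    · linarith
    · exact Or.inl ⟨b, c'⟩
    · linarith
    · linarith
    · linarith
    · exact Or.inr (Or.inl ⟨a, c', e⟩)
    · linarith
    · exact Or.inr (Or.inr ⟨a, c', e⟩)
    · linarith
    · linarith
  · rintro (⟨a, b⟩ | ⟨a, b, e⟩ | ⟨a, b, e⟩)
    · exact Or.inr (Or.inl ⟨h1, a, b, h4⟩)
    · exact Or.inr (Or.inr (Or.inr (Or.inl ⟨a, Or.inr ⟨h1, b, h4⟩, e⟩)))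
    · exact Or.inr (Or.inr (Or.inr (Or.inr (Or.inl ⟨a, Or.inr ⟨h1, b, h4⟩, e⟩))))

private theorem TilePart_z1 {c l1 l2 l3 l4 : ℝ} (h1 : l1 = 0) (h4 : l4 ≠ 0) :
    TileC c l1 l2 l3 l4 ↔ Same3 l2 l3 l4 ∧ l4 < c * l2 := by
  unfold TileC
  constructor
  · rintro (⟨a, b, c', d⟩ | ⟨a, b, c', d⟩ | ⟨a, b, e⟩ | ⟨a, b, e⟩ | ⟨a, b, e⟩ | ⟨a, b, e⟩)
    · linarith
    · linarith
    · exact ⟨b, e⟩
    · unfold Same3 at b
      rcases b with b | b <;> linarith [b.1]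
    · unfold Same3 at b
      rcases b with b | b <;> linarith [b.1]
    · exact absurd a h4
  · rintro ⟨a, b⟩
    exact Or.inr (Or.inr (Or.inl ⟨h1, a, b⟩))

private theorem TilePart_z4 {c l1 l2 l3 l4 : ℝ} (h4 : l4 = 0) (h1 : l1 ≠ 0) :
    TileC c l1 l2 l3 l4 ↔ Same3 l1 l2 l3 ∧ c * l3 < l1 := by
  unfold TileC
  constructor
  · rintro (⟨a, b, c', d⟩ | ⟨a, b, c', d⟩ | ⟨a, b, e⟩ | ⟨a, b, e⟩ | ⟨a, b, e⟩ | ⟨a, b, e⟩)
    · linarith
    · linarith
    · exact absurd a h1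
    · unfold Same3 at b
      rcases b with b | b <;> linarith [b.2.2]
    · unfold Same3 at b
      rcases b with b | b <;> linarith [b.2.2]
    · exact ⟨b, e⟩
  · rintro ⟨a, b⟩
    exact Or.inr (Or.inr (Or.inr (Or.inr (Or.inr ⟨h4, a, b⟩))))

/-- the generic situation -/
private theorem TilePart_A {c A B C D Pm P0 P1 : ℝ} (hc : 0 < c)
    (hPm : P0 = Pm + c * B) (hP1 : P1 = P0 + c * C)
    (hs : (A < 0 ∧ 0 < B ∧ 0 < C ∧ D < 0) ∨ (0 < A ∧ B < 0 ∧ C < 0 ∧ 0 < D))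
    (hE : ¬ (P0 = 0 ∧ P1 = c * B)) :
    (TileC c B P0 P1 (-D) ∧ ¬ TileC c A Pm P0 (-C)) ∨
      (¬ TileC c B P0 P1 (-D) ∧ TileC c A Pm P0 (-C)) := by
  rcases hs with ⟨hA, hB, hC, hD⟩ | ⟨hA, hB, hC, hD⟩
  · have hcB := mul_pos hc hB
    have hcC := mul_pos hc hC
    rw [TilePart_pos hB (by linarith), TilePart_neg hA (by linarith)]
    rcases lt_trichotomy P0 0 with h | h | h
    · right
      refine ⟨?_, Or.inl ⟨by linarith, h⟩⟩
      rintro (⟨a, b⟩ | ⟨a, b, e⟩ | ⟨a, b, e⟩) <;> linarith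
    · rcases lt_trichotomy (c * B) (c * C) with h1 | h1 | h1
      · left
        refine ⟨Or.inr (Or.inl ⟨h, by linarith, by linarith⟩), ?_⟩
        rintro (⟨a, b⟩ | ⟨a, b, e⟩ | ⟨a, b, e⟩)
        · linarith
        · linarith
        · rw [mul_neg] at e
          linarith
      · exfalso
        exact hE ⟨h, by linarith⟩
      · right
        refine ⟨?_, Or.inr (Or.inr ⟨h, by linarith, by rw [mul_neg]; linarith⟩)⟩
        rintro (⟨a, b⟩ | ⟨a, b, e⟩ | ⟨a, b, e⟩) <;> linarith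
    · left
      refine ⟨Or.inl ⟨h, by linarith⟩, ?_⟩
      rintro (⟨a, b⟩ | ⟨a, b, e⟩ | ⟨a, b, e⟩) <;> linarith
  · have hcB := mul_neg_of_pos_of_neg hc hB
    have hcC := mul_neg_of_pos_of_neg hc hC
    rw [TilePart_neg hB (by linarith), TilePart_pos hA (by linarith)]
    rcases lt_trichotomy P0 0 with h | h | h
    · left
      refine ⟨Or.inl ⟨h, by linarith⟩, ?_⟩
      rintro (⟨a, b⟩ | ⟨a, b, e⟩ | ⟨a, b, e⟩) <;> linarith
    · rcases lt_trichotomy (c * B) (c * C) with h1 | h1 | h1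
      · left
        refine ⟨Or.inr (Or.inl ⟨h, by linarith, by linarith⟩), ?_⟩
        rintro (⟨a, b⟩ | ⟨a, b, e⟩ | ⟨a, b, e⟩)
        · linarith
        · linarith
        · rw [mul_neg] at e
          linarith
      · exfalso
        exact hE ⟨h, by linarith⟩
      · right
        refine ⟨?_, Or.inr (Or.inr ⟨h, by linarith, by rw [mul_neg]; linarith⟩)⟩
        rintro (⟨a, b⟩ | ⟨a, b, e⟩ | ⟨a, b, e⟩) <;> linarith
    · right
      refine ⟨?_, Or.inl ⟨by linarith, h⟩⟩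
      rintro (⟨a, b⟩ | ⟨a, b, e⟩ | ⟨a, b, e⟩) <;> linarith

/-- the situation with a zero -/
private theorem TilePart_B {c g P0 : ℝ} (hc : 0 < c) (hg : g ≠ 0) (hE1 : P0 ≠ 0)
    (hE2 : P0 ≠ g) :
    (TileC c 0 P0 (P0 + c * g) (c * g) ∧ ¬ TileC c (-g) P0 P0 (-g) ∧
        ¬ TileC c (c * g) (P0 + c * g) P0 0) ∨
      (¬ TileC c 0 P0 (P0 + c * g) (c * g) ∧ TileC c (-g) P0 P0 (-g) ∧
        ¬ TileC c (c * g) (P0 + c * g) P0 0) ∨
      (¬ TileC c 0 P0 (P0 + c * g) (c * g) ∧ ¬ TileC c (-g) P0 P0 (-g) ∧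
        TileC c (c * g) (P0 + c * g) P0 0) := by
  have hcg : c * g ≠ 0 := mul_ne_zero hc.ne' hg
  rw [TilePart_z1 rfl hcg, TilePart_z4 rfl hcg]
  unfold Same3
  rcases lt_or_gt_of_ne hg with h | h
  · have hcg' := mul_neg_of_pos_of_neg hc h
    rw [TilePart_pos (l1 := -g) (by linarith) (by linarith)]
    rcases lt_or_gt_of_ne hE1 with h1 | h1
    · rcases lt_or_gt_of_ne hE2 with h2 | h2
      · have h3 := mul_lt_mul_of_pos_left h2 hc
        right; right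
        refine ⟨?_, ?_, Or.inr ⟨hcg', by linarith, h1⟩, h3⟩
        · rintro ⟨-, a⟩
          linarith
        · rintro (⟨a, b⟩ | ⟨a, b, e⟩ | ⟨a, b, e⟩) <;> linarith
      · have h3 := mul_lt_mul_of_pos_left h2 hc
        left
        refine ⟨⟨Or.inr ⟨h1, by linarith, hcg'⟩, h3⟩, ?_, ?_⟩
        · rintro (⟨a, b⟩ | ⟨a, b, e⟩ | ⟨a, b, e⟩) <;> linarith
        · rintro ⟨-, a⟩
          linarith
    · right; left
      refine ⟨?_, Or.inl ⟨h1, h1⟩, ?_⟩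
      · rintro ⟨⟨a, b, e⟩ | ⟨a, b, e⟩, -⟩ <;> linarith
      · rintro ⟨⟨a, b, e⟩ | ⟨a, b, e⟩, -⟩ <;> linarith
  · have hcg' := mul_pos hc h
    rw [TilePart_neg (l1 := -g) (by linarith) (by linarith)]
    rcases lt_or_gt_of_ne hE1 with h1 | h1
    · right; left
      refine ⟨?_, Or.inl ⟨h1, h1⟩, ?_⟩
      · rintro ⟨⟨a, b, e⟩ | ⟨a, b, e⟩, -⟩ <;> linarith
      · rintro ⟨⟨a, b, e⟩ | ⟨a, b, e⟩, -⟩ <;> linarith
    · rcases lt_or_gt_of_ne hE2 with h2 | h2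
      · have h3 := mul_lt_mul_of_pos_left h2 hc
        right; right
        refine ⟨?_, ?_, Or.inl ⟨hcg', by linarith, h1⟩, h3⟩
        · rintro ⟨-, a⟩
          linarith
        · rintro (⟨a, b⟩ | ⟨a, b, e⟩ | ⟨a, b, e⟩) <;> linarith
      · have h3 := mul_lt_mul_of_pos_left h2 hc
        left
        refine ⟨⟨Or.inl ⟨h1, by linarith, hcg'⟩, h3⟩, ?_, ?_⟩
        · rintro (⟨a, b⟩ | ⟨a, b, e⟩ | ⟨a, b, e⟩) <;> linarith
        · rintro ⟨-, a⟩
          linarith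

/-! ### The indices -/

private theorem TilePart_idx (m : ℕ) (hm : Odd m) (i : ℤ) :
    ∃ j : ℕ, j < m ∧ ∃ t : ℤ, (2 * j : ℤ) = i + t * m := by
  obtain ⟨a, ha⟩ := hm
  have hpos : (0 : ℤ) < m := by omega
  obtain ⟨y, hy⟩ : ∃ y : ℤ, y = ((a : ℤ) + 1) * i := ⟨_, rfl⟩
  have h1 := Int.emod_nonneg y hpos.ne'
  have h2 := Int.emod_lt_of_pos y hpos
  have h3 := Int.emod_add_mul_ediv y m
  refine ⟨(y % m).toNat, by omega, i - 2 * (y / m), ?_⟩
  rw [Int.toNat_of_nonneg h1]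
  have h4 : (m : ℤ) = 2 * a + 1 := by exact_mod_cast ha
  have h5 : y % m = y - m * (y / m) := by linarith
  rw [h5, hy]
  have h6 : 2 * (((a : ℤ) + 1) * i) = i + i * m := by rw [h4]; ring
  linear_combination h6

private theorem TilePart_per {m : ℤ} {T : ℤ → Prop} (hp : Function.Periodic T m) (t i : ℤ) :
    T (i + t * m) = T i := by
  have := hp.int_mul t i
  simpa using this

private theorem TilePart_all {m : ℕ} (hm : Odd m) {E : ℤ → Prop}
    (hp : Function.Periodic E (m : ℤ)) (h : ∀ j : ℕ, j < m → ¬ E (2 * j)) : ∀ i, ¬ E i := by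
  intro i hi
  obtain ⟨j, hj, t, ht⟩ := TilePart_idx m hm i
  apply h j hj
  rw [ht, TilePart_per hp t i]
  exact hi

private theorem TilePart_fin {m : ℕ} (hm : Odd m) {T : ℤ → Prop}
    (hp : Function.Periodic T (m : ℤ)) (k : ℤ) (n0 : ℕ) (hT : T (k - n0))
    (hu : ∀ n : ℕ, n < m → T (k - n) → n = n0) : ∃! j : ℕ, j < m ∧ T (2 * j) := by
  have hpos : (0 : ℤ) < m := by
    obtain ⟨a, ha⟩ := hm
    omega
  have key : ∀ i : ℤ, T i → (m : ℤ) ∣ i - (k - n0) := by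
    intro i hi
    have h1 := Int.emod_nonneg (k - i) hpos.ne'
    have h2 := Int.emod_lt_of_pos (k - i) hpos
    have h3 := Int.emod_add_mul_ediv (k - i) m
    have h4 : ((((k - i) % m).toNat : ℕ) : ℤ) = (k - i) % m := Int.toNat_of_nonneg h1
    have h5 := hu ((k - i) % m).toNat (by omega) (by
      rw [h4]
      have h6 : k - (k - i) % m = i + ((k - i) / m) * m := by linarith
      rw [h6, TilePart_per hp _ i]
      exact hi)
    refine ⟨-((k - i) / m), ?_⟩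
    have h7 : ((n0 : ℕ) : ℤ) = (k - i) % m := by rw [← h5, h4]
    linarith
  obtain ⟨j, hj, t, ht⟩ := TilePart_idx m hm (k - n0)
  refine ⟨j, ⟨hj, ?_⟩, ?_⟩
  · show T (2 * (j : ℤ))
    rw [ht, TilePart_per hp t _]
    exact hT
  · rintro j' ⟨hj', hT'⟩
    have h1 := key _ hT'
    have h2 : (m : ℤ) ∣ 2 * (j' : ℤ) - 2 * j := by
      have h3 : 2 * (j' : ℤ) - 2 * j = (2 * (j' : ℤ) - (k - n0)) - t * m := by linarith
      rw [h3]
      exact dvd_sub h1 (dvd_mul_left _ _)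
    obtain ⟨a, ha⟩ := hm
    have h4 : (m : ℤ) ∣ (j' : ℤ) - j := by
      have h5 : (j' : ℤ) - j = m * ((j' : ℤ) - j) - a * (2 * (j' : ℤ) - 2 * j) := by
        have h6 : (m : ℤ) = 2 * a + 1 := by exact_mod_cast ha
        rw [h6]
        ring
      rw [h5]
      exact dvd_sub (dvd_mul_right _ _) (Dvd.dvd.mul_left h2 _)
    have h7 := Int.eq_zero_of_abs_lt_dvd h4 (by
      rw [abs_lt]
      constructor <;> omega)
    omega

/-! ### The sequences -/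

private theorem TilePart_core {c : ℝ} (hc : 0 < c) {m : ℕ} (hm : Odd m) (h3 : 3 ≤ m)
    {P Q : ℤ → ℝ} (hQ : ∀ i, Q (i + 2) = -Q i - c * Q (i + 1))
    (hP : ∀ i, P (i + 1) = P i + c * Q (i + 1)) (pQ : ∀ i, Q (i + m) = Q i)
    (pP : ∀ i, P (i + m) = P i) {k : ℤ} {ε : ℝ} (hε : ε = 1 ∨ ε = -1)
    (hk : 0 < ε * Q k ∨ Q k = 0)
    (hw : ∀ n : ℕ, 1 ≤ n → n < m → 0 < (-1) ^ n * (ε * Q (k - n)))
    (hE : ∀ i, ¬ TilePart_E c (Q i) (P i) (P (i + 1)) (-Q (i + 2))) :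
    ∃! j : ℕ, j < m ∧
      TileC c (Q (2 * j)) (P (2 * j)) (P (2 * j + 1)) (-Q (2 * j + 2)) := by
  obtain ⟨T, hTd⟩ : ∃ T : ℤ → Prop, T = fun i => TileC c (Q i) (P i) (P (i + 1)) (-Q (i + 2)) :=
    ⟨_, rfl⟩
  have hTi : ∀ i, T i ↔ TileC c (Q i) (P i) (P (i + 1)) (-Q (i + 2)) := by
    intro i
    rw [hTd]
  have hper : Function.Periodic T (m : ℤ) := by
    intro i
    rw [hTd]
    have e1 : i + m + 1 = (i + 1) + m := by ring
    have e2 : i + m + 2 = (i + 2) + m := by ring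
    simp only [e1, e2, pQ, pP]
  have hgoal : ∀ n0 : ℕ, T (k - n0) → (∀ n : ℕ, n < m → T (k - n) → n = n0) →
      ∃! j : ℕ, j < m ∧
        TileC c (Q (2 * j)) (P (2 * j)) (P (2 * j + 1)) (-Q (2 * j + 2)) := by
    intro n0 h1 h2
    have := TilePart_fin hm hper k n0 h1 h2
    rw [hTd] at this
    exact this
  -- the far tiles
  have hfar : ∀ n : ℕ, 3 ≤ n → n < m → ¬ T (k - n) := by
    intro n hn hnm
    rw [hTi]
    have h1 := hw n (by omega) hnm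
    have h2 := hw (n - 2) (by omega) (by omega)
    have e1 : k - n + 2 = k - ((n - 2 : ℕ) : ℤ) := by
      have : ((n - 2 : ℕ) : ℤ) = (n : ℤ) - 2 := by omega
      rw [this]
      ring
    have e2 : (-1 : ℝ) ^ n = (-1) ^ (n - 2) := by
      obtain ⟨l, rfl⟩ : ∃ l, n = l + 2 := ⟨n - 2, by omega⟩
      rw [Nat.add_sub_cancel, pow_add]
      norm_num
    rw [e1]
    rw [e2] at h1
    apply TilePart_opp
    rcases neg_one_pow_eq_or ℝ (n - 2) with h | h <;> rw [h] at h1 h2 <;>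
      rcases hε with h' | h' <;> rw [h'] at h1 h2
    · left; constructor <;> linarith
    · right; constructor <;> linarith
    · right; constructor <;> linarith
    · left; constructor <;> linarith
  have hk1 := hw 1 le_rfl (by omega)
  have hk2 := hw (m - 1) (by omega) (by omega)
  have hk3 := hw (m - 2) (by omega) (by omega)
  have e1 : k - ((m - 1 : ℕ) : ℤ) + m = k + 1 := by omega
  have e2 : k - ((m - 2 : ℕ) : ℤ) + m = k + 2 := by omega
  rw [← pQ, e1] at hk2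
  rw [← pQ, e2] at hk3
  have s1 : (-1 : ℝ) ^ (m - 1) = 1 := by
    obtain ⟨a, ha⟩ := hm
    have : m - 1 = 2 * a := by omega
    rw [this, pow_mul]
    norm_num
  have s2 : (-1 : ℝ) ^ (m - 2) = -1 := by
    obtain ⟨a, ha⟩ := hm
    obtain ⟨b, hb⟩ : ∃ b, a = b + 1 := ⟨a - 1, by omega⟩
    have : m - 2 = 2 * b + 1 := by omega
    rw [this, pow_succ, pow_mul]
    norm_num
  rw [s1, one_mul] at hk2
  rw [s2] at hk3
  rw [pow_one, Nat.cast_one] at hk1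
  have r1 := hQ (k - 1)
  have r2 := hP (k - 1)
  have r3 := hP k
  have r4 := hQ (k - 2)
  have r5 := hP (k - 2)
  have r6 := hQ k
  have i1 : k - 1 + 2 = k + 1 := by ring
  have i2 : k - 1 + 1 = k := by ring
  have i3 : k - 2 + 2 = k := by ring
  have i4 : k - 2 + 1 = k - 1 := by ring
  rw [i1, i2] at r1
  rw [i2] at r2
  rw [i3, i4] at r4
  rw [i4] at r5
  have t0 : T (k - ((0 : ℕ) : ℤ)) ↔ TileC c (Q k) (P k) (P (k + 1)) (-Q (k + 2)) := by
    rw [Nat.cast_zero, sub_zero, hTi]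
  have t1 : T (k - ((1 : ℕ) : ℤ)) ↔ TileC c (Q (k - 1)) (P (k - 1)) (P k) (-Q (k + 1)) := by
    rw [Nat.cast_one, hTi, i1, i2]
  have t2 : T (k - ((2 : ℕ) : ℤ)) ↔ TileC c (Q (k - 2)) (P (k - 2)) (P (k - 1)) (-Q k) := by
    have : ((2 : ℕ) : ℤ) = 2 := rfl
    rw [this, hTi, i3, i4]
  rcases hk with hk | hk
  · -- no zero
    have hs : (Q (k - 1) < 0 ∧ 0 < Q k ∧ 0 < Q (k + 1) ∧ Q (k + 2) < 0) ∨
        (0 < Q (k - 1) ∧ Q k < 0 ∧ Q (k + 1) < 0 ∧ 0 < Q (k + 2)) := by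
      rcases hε with h | h <;> rw [h] at hk hk1 hk2 hk3
      · left
        refine ⟨?_, ?_, ?_, ?_⟩ <;> linarith
      · right
        refine ⟨?_, ?_, ?_, ?_⟩ <;> linarith
    have h2 : ¬ T (k - ((2 : ℕ) : ℤ)) := by
      rw [t2]
      have h1 := hw 2 (by omega) (by omega)
      have : ((2 : ℕ) : ℤ) = 2 := rfl
      rw [this] at h1
      apply TilePart_opp
      rcases hε with h | h <;> rw [h] at hk h1
      · left
        constructor <;> linarith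
      · right
        constructor <;> linarith
    rcases TilePart_A hc r2 r3 hs (fun h => hE k (by
      unfold TilePart_E
      exact Or.inr (Or.inr (Or.inr (Or.inr (Or.inr (Or.inl h))))))) with ⟨a1, a2⟩ | ⟨a1, a2⟩
    · refine hgoal 0 (t0.mpr a1) ?_
      intro n hn hT
      rcases Nat.lt_or_ge n 3 with h | h
      · interval_cases n
        · rfl
        · exact absurd (t1.mp hT) a2
        · exact absurd hT h2
      · exact absurd hT (hfar n h hn)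
    · refine hgoal 1 (t1.mpr a2) ?_
      intro n hn hT
      rcases Nat.lt_or_ge n 3 with h | h
      · interval_cases n
        · exact absurd (t0.mp hT) a1
        · rfl
        · exact absurd hT h2
      · exact absurd hT (hfar n h hn)
  · -- a zero
    have g1 : Q (k - 1) = -Q (k + 1) := by
      rw [hk] at r1
      linarith
    have g2 : Q (k - 2) = c * Q (k + 1) := by
      rw [hk, g1] at r4
      linarith
    have g3 : P (k - 1) = P k := by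
      rw [hk] at r2
      linarith
    have g4 : P (k - 2) = P k + c * Q (k + 1) := by
      rw [g1, g3] at r5
      linarith
    have g5 : Q (k + 2) = -(c * Q (k + 1)) := by
      rw [hk] at r6
      linarith
    have hg : Q (k + 1) ≠ 0 := by
      intro h
      rw [h] at hk2
      linarith
    have hE1 : P k ≠ 0 := by
      intro h
      apply hE k
      unfold TilePart_E
      exact Or.inl ⟨hk, h⟩
    have hE2 : P k ≠ Q (k + 1) := by
      intro h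
      apply hE k
      unfold TilePart_E
      refine Or.inr (Or.inr (Or.inr (Or.inr (Or.inl ⟨hk, ?_⟩))))
      rw [g5, h, neg_neg]
    rw [hk, r3, g5, neg_neg] at t0
    rw [g1, g3] at t1
    rw [g2, g4, g3, hk, neg_zero] at t2
    rcases TilePart_B hc hg hE1 hE2 with ⟨a1, a2, a3⟩ | ⟨a1, a2, a3⟩ | ⟨a1, a2, a3⟩
    · refine hgoal 0 (t0.mpr a1) ?_
      intro n hn hT
      rcases Nat.lt_or_ge n 3 with h | h
      · interval_cases n
        · rfl
        · exact absurd (t1.mp hT) a2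
        · exact absurd (t2.mp hT) a3
      · exact absurd hT (hfar n h hn)
    · refine hgoal 1 (t1.mpr a2) ?_
      intro n hn hT
      rcases Nat.lt_or_ge n 3 with h | h
      · interval_cases n
        · exact absurd (t0.mp hT) a1
        · rfl
        · exact absurd (t2.mp hT) a3
      · exact absurd hT (hfar n h hn)
    · refine hgoal 2 (t2.mpr a3) ?_
      intro n hn hT
      rcases Nat.lt_or_ge n 3 with h | h
      · interval_cases n
        · exact absurd (t0.mp hT) a1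
        · exact absurd (t1.mp hT) a2
        · rfl
      · exact absurd hT (hfar n h hn)

/-- the rotated tiles form a partition up to the exceptional directions -/
theorem tile_part (m : ℕ) (hm : Odd m) (h3 : 3 ≤ m) (v : V3)
    (hv : ∀ j < m, (Ri (cc m))^[j] v ∉ Exc (cc m)) :
    ∃! j : ℕ, j < m ∧ (Ri (cc m))^[j] v ∈ That (cc m) := by
  obtain ⟨α, hα⟩ : ∃ α : ℝ, α = Real.pi / m := ⟨_, rfl⟩
  have hmR : (3 : ℝ) ≤ m := by exact_mod_cast h3
  have hm0 : (m : ℝ) ≠ 0 := by linarith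
  have hπ := Real.pi_pos
  have hα0 : 0 < α := by rw [hα]; positivity
  have hα1 : α ≤ Real.pi / 3 := by
    rw [hα]
    exact div_le_div_of_nonneg_left hπ.le (by norm_num) hmR
  have hmα : (m : ℝ) * α = Real.pi := by
    rw [hα]
    field_simp
  have hcα : 0 < Real.cos α := Real.cos_pos_of_mem_Ioo ⟨by linarith, by linarith⟩
  have hsα : 0 < Real.sin α := Real.sin_pos_of_pos_of_lt_pi hα0 (by linarith)
  have hch : 0 < Real.cos (α / 2) := Real.cos_pos_of_mem_Ioo ⟨by linarith, by linarith⟩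
  have hcc : cc m = 2 * Real.cos α := by unfold cc; rw [hα]
  obtain ⟨c, hcd⟩ : ∃ c : ℝ, c = cc m := ⟨_, rfl⟩
  rw [← hcd] at hv ⊢
  rw [← hcd] at hcc
  have hc : 0 < c := by rw [hcc]; linarith
  obtain ⟨p, q, s⟩ := v
  -- the parameters
  have hqs : ¬ (q = 0 ∧ s = 0) := by
    rintro ⟨rfl, rfl⟩
    apply hv 0 (by omega)
    unfold Exc
    simp
  obtain ⟨ζ, hζ⟩ : ∃ ζ : ℂ, ζ = ⟨(s + q * Real.cos α) / Real.sin α, q⟩ := ⟨_, rfl⟩
  have hζ0 : ζ ≠ 0 := by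
    intro h
    rw [hζ] at h
    have h1 : q = 0 := congrArg Complex.im h
    have h2 : (s + q * Real.cos α) / Real.sin α = 0 := congrArg Complex.re h
    rw [div_eq_zero_iff] at h2
    rcases h2 with h2 | h2
    · rw [h1] at h2
      exact hqs ⟨h1, by linarith⟩
    · exact hsα.ne' h2
  obtain ⟨ρ, hρ⟩ : ∃ ρ : ℝ, ρ = ‖ζ‖ := ⟨_, rfl⟩
  obtain ⟨θ, hθ⟩ : ∃ θ : ℝ, θ = Complex.arg ζ := ⟨_, rfl⟩
  have hρ0 : 0 < ρ := by rw [hρ]; exact norm_pos_iff.mpr hζ0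
  have k1 : ρ * Real.cos θ = (s + q * Real.cos α) / Real.sin α := by
    rw [hρ, hθ, Complex.norm_mul_cos_arg, hζ]
  have k2 : ρ * Real.sin θ = q := by
    rw [hρ, hθ, Complex.norm_mul_sin_arg, hζ]
  obtain ⟨κ, hκ⟩ : ∃ κ : ℝ, κ = c * ρ / (2 * Real.cos (α / 2)) := ⟨_, rfl⟩
  have hκ2 : 2 * κ * Real.cos (α / 2) = c * ρ := by
    rw [hκ]
    field_simp
  obtain ⟨z, hz⟩ : ∃ z : ℝ, z = p - κ * Real.sin (θ - α / 2) := ⟨_, rfl⟩
  obtain ⟨Q, hQd⟩ : ∃ Q : ℤ → ℝ, Q = fun i : ℤ => (-1 : ℝ) ^ i * (ρ * Real.sin (θ - (i : ℝ) * α)) :=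
    ⟨_, rfl⟩
  obtain ⟨P, hPd⟩ : ∃ P : ℤ → ℝ,
      P = fun i : ℤ => z + (-1 : ℝ) ^ i * (κ * Real.sin (θ - ((i : ℝ) + 1 / 2) * α)) := ⟨_, rfl⟩
  have hn1 : (-1 : ℝ) ≠ 0 := by norm_num
  have hz1 : ∀ i : ℤ, (-1 : ℝ) ^ (i + 1) = -(-1) ^ i := by
    intro i
    rw [zpow_add_one₀ hn1]
    ring
  have hz2 : ∀ i : ℤ, (-1 : ℝ) ^ (i + 2) = (-1) ^ i := by
    intro i
    have : i + 2 = (i + 1) + 1 := by ring
    rw [this, hz1, hz1, neg_neg]
  have hzm : ∀ i : ℤ, (-1 : ℝ) ^ (i + m) = -(-1) ^ i := by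
    intro i
    rw [zpow_add₀ hn1, zpow_natCast, hm.neg_one_pow]
    ring
  have hQ : ∀ i, Q (i + 2) = -Q i - c * Q (i + 1) := by
    intro i
    rw [hQd]
    simp only
    rw [hz1, hz2]
    push_cast
    have e1 : θ - ((i : ℝ) + 2) * α = (θ - ((i : ℝ) + 1) * α) - α := by ring
    have e2 : θ - (i : ℝ) * α = (θ - ((i : ℝ) + 1) * α) + α := by ring
    rw [e1, e2, Real.sin_sub, Real.sin_add, hcc]
    ring
  have hP : ∀ i, P (i + 1) = P i + c * Q (i + 1) := by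
    intro i
    rw [hQd, hPd]
    simp only
    rw [hz1]
    push_cast
    have e1 : θ - ((i : ℝ) + 1 + 1 / 2) * α = (θ - ((i : ℝ) + 1) * α) - α / 2 := by ring
    have e2 : θ - ((i : ℝ) + 1 / 2) * α = (θ - ((i : ℝ) + 1) * α) + α / 2 := by ring
    rw [e1, e2, Real.sin_sub, Real.sin_add]
    linear_combination (-(-1 : ℝ) ^ i * Real.sin (θ - ((i : ℝ) + 1) * α)) * hκ2
  have hshift : ∀ x : ℝ, Real.sin (x - m * α) = -Real.sin x := by
    intro x
    rw [hmα, Real.sin_sub_pi]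
  have pQ : ∀ i, Q (i + m) = Q i := by
    intro i
    rw [hQd]
    simp only
    rw [hzm]
    push_cast
    have e1 : θ - ((i : ℝ) + m) * α = (θ - i * α) - m * α := by ring
    rw [e1, hshift]
    ring
  have pP : ∀ i, P (i + m) = P i := by
    intro i
    rw [hPd]
    simp only
    rw [hzm]
    push_cast
    have e1 : θ - ((i : ℝ) + m + 1 / 2) * α = (θ - (i + 1 / 2) * α) - m * α := by ring
    rw [e1, hshift]
    ring
  -- the orbit
  have hQ0 : Q 0 = q := by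
    rw [hQd]
    simp [k2]
  have hQ1 : Q 1 = s := by
    rw [hQd]
    simp only [zpow_one, Int.cast_one, one_mul]
    have h1 : Real.sin α * (ρ * Real.cos θ) = s + q * Real.cos α := by
      rw [k1]
      field_simp
    rw [Real.sin_sub]
    linear_combination h1 - Real.cos α * k2
  have hP0 : P 0 = p := by
    rw [hPd]
    simp only [zpow_zero, Int.cast_zero, one_mul, zero_add]
    rw [hz]
    have : θ - 1 / 2 * α = θ - α / 2 := by ring
    rw [this]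
    ring
  have horb : ∀ j : ℕ, (Ri c)^[j] (p, q, s) = (P (2 * j), Q (2 * j), Q (2 * j + 1)) := by
    intro j
    induction j with
    | zero => simp [hP0, hQ0, hQ1]
    | succ j ih =>
      rw [Function.iterate_succ_apply', ih]
      unfold Ri
      have e1 : (2 * ((j + 1 : ℕ) : ℤ)) = 2 * j + 2 := by push_cast; ring
      have e2 : (2 * (j : ℤ) + 2 + 1) = (2 * j + 1) + 2 := by ring
      have e3 : (2 * (j : ℤ) + 2) = (2 * j + 1) + 1 := by ring
      rw [e1, e2]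
      have h1 := hQ (2 * j)
      have h2 := hQ (2 * j + 1)
      have h3 := hP (2 * j)
      have h4 := hP (2 * j + 1)
      rw [← e3] at h2 h4
      rw [h2, h4, h3, h1]
      ext <;> simp only <;> ring
  -- membership
  have hmem : ∀ j : ℕ, (Ri c)^[j] (p, q, s) ∈ That c ↔
      TileC c (Q (2 * j)) (P (2 * j)) (P (2 * j + 1)) (-Q (2 * j + 2)) := by
    intro j
    rw [horb]
    unfold That
    have h1 := hQ (2 * j)
    have h3 := hP (2 * j)
    have h4 : -Q (2 * j + 2) = Q (2 * j) + c * Q (2 * j + 1) := by linarith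
    rw [h3, h4]
    rfl
  have hexc : ∀ j : ℕ, j < m → ¬ TilePart_E c (Q (2 * j)) (P (2 * j)) (P (2 * j + 1))
      (-Q (2 * j + 2)) := by
    intro j hj
    have h0 := hv j hj
    rw [horb] at h0
    have h1 := hQ (2 * j)
    have h3 := hP (2 * j)
    have h4 : -Q (2 * j + 2) = Q (2 * j) + c * Q (2 * j + 1) := by linarith
    rw [h3, h4]
    exact h0
  have hE : ∀ i, ¬ TilePart_E c (Q i) (P i) (P (i + 1)) (-Q (i + 2)) := by
    refine TilePart_all hm (E := fun i => TilePart_E c (Q i) (P i) (P (i + 1)) (-Q (i + 2)))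
      ?_ hexc
    intro i
    have e1 : i + m + 1 = (i + 1) + m := by ring
    have e2 : i + m + 2 = (i + 2) + m := by ring
    simp only [e1, e2, pQ, pP]
  -- the window
  obtain ⟨k, hkd⟩ : ∃ k : ℤ, k = ⌊θ / α⌋ := ⟨_, rfl⟩
  have hk1 : (k : ℝ) * α ≤ θ := by
    have := Int.floor_le (θ / α)
    rw [← hkd, le_div_iff₀ hα0] at this
    exact this
  have hk2 : θ < ((k : ℝ) + 1) * α := by
    have := Int.lt_floor_add_one (θ / α)
    rw [← hkd, div_lt_iff₀ hα0] at this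
    exact this
  have hε : (-1 : ℝ) ^ k = 1 ∨ (-1 : ℝ) ^ k = -1 := by
    rcases Int.even_or_odd k with h | h
    · exact Or.inl h.neg_one_zpow
    · exact Or.inr h.neg_one_zpow
  have hεε : (-1 : ℝ) ^ k * (-1) ^ k = 1 := by
    rcases hε with h | h <;> rw [h] <;> norm_num
  have hsgn : ∀ n : ℕ, (-1) ^ n * ((-1 : ℝ) ^ k * Q (k - n)) =
      ρ * Real.sin ((θ - k * α) + n * α) := by
    intro n
    rw [hQd]
    simp only
    have e1 : (-1 : ℝ) ^ (k - n) = (-1) ^ k * (-1) ^ n := by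
      rw [zpow_sub₀ hn1, zpow_natCast]
      rcases neg_one_pow_eq_or ℝ n with h | h <;> rw [h]
      · rw [div_one, mul_one]
      · rw [div_neg, div_one, mul_neg, mul_one]
    rw [e1]
    push_cast
    have e2 : θ - ((k : ℝ) - n) * α = (θ - k * α) + n * α := by ring
    rw [e2]
    have e3 : (-1 : ℝ) ^ n * (-1) ^ n = 1 := by
      rcases neg_one_pow_eq_or ℝ n with h | h <;> rw [h] <;> norm_num
    calc (-1 : ℝ) ^ n * ((-1) ^ k * ((-1) ^ k * (-1) ^ n * (ρ * Real.sin (θ - k * α + n * α))))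
        = ((-1) ^ n * (-1) ^ n) * ((-1 : ℝ) ^ k * (-1) ^ k) *
          (ρ * Real.sin (θ - k * α + n * α)) := by ring
      _ = ρ * Real.sin (θ - k * α + n * α) := by rw [e3, hεε]; ring
  have hlt : ∀ n : ℕ, n < m → θ - k * α + n * α < Real.pi := by
    intro n hn
    have h1 : (n : ℝ) + 1 ≤ m := by exact_mod_cast hn
    have h2 := mul_le_mul_of_nonneg_right h1 hα0.le
    rw [hmα] at h2
    linarith
  have hkk : 0 < (-1 : ℝ) ^ k * Q k ∨ Q k = 0 := by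
    have h0 := hsgn 0
    rw [pow_zero, one_mul, Nat.cast_zero, sub_zero, Nat.cast_zero, zero_mul, add_zero] at h0
    rcases eq_or_lt_of_le hk1 with h | h
    · right
      rw [← h, sub_self, Real.sin_zero, mul_zero] at h0
      rcases hε with h' | h' <;> rw [h'] at h0 <;> linarith
    · left
      rw [h0]
      have h5 := hlt 0 (by omega)
      rw [Nat.cast_zero, zero_mul, add_zero] at h5
      exact mul_pos hρ0 (Real.sin_pos_of_pos_of_lt_pi (by linarith) h5)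
  have hw : ∀ n : ℕ, 1 ≤ n → n < m → 0 < (-1) ^ n * ((-1 : ℝ) ^ k * Q (k - n)) := by
    intro n hn hnm
    rw [hsgn]
    refine mul_pos hρ0 (Real.sin_pos_of_pos_of_lt_pi ?_ (hlt n hnm))
    have h1 : (1 : ℝ) ≤ n := by exact_mod_cast hn
    nlinarith
  have := TilePart_core hc hm h3 hQ hP pQ pP hε hkk hw hE
  simpa only [hmem] using this

end Pool.Agent.Lib.MP_f406e2_lc_OC
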