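import Pool.Agent.Lib.MP_f406e2_lc_OC.HypCov
import Pool.Agent.Lib.MP_f406e2_lc_OC.SpCov
import Pool.Agent.Lib.MP_f406e2_lc_OC.Lat
import Pool.Agent.Lib.MP_f406e2_lc_OC.Tile
import Pool.Agent.Lib.MP_f406e2_lc_OC.TilePart

/-! # The Borel set -/

namespace Pool.Agent.Lib.MP_f406e2_lc_OC

/-- the maps `tin` respect relations respected by the generators -/
theorem Assemble_rel {X Y : Type*} (e : ℕ) {R : X → Y → Prop} {f r h : X → X} {f' r' h' : Y → Y}
    (hf : ∀ x y, R x y → R (f x) (f' y)) (hr : ∀ x y, R x y → R (r x) (r' y))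
    (hh : ∀ x y, R x y → R (h x) (h' y)) (j : ℕ) {x : X} {y : Y} (hxy : R x y) :
    R (tin e f r h j x) (tin e f' r' h' j y) := by
  have hit : ∀ (j : ℕ) (x : X) (y : Y), R x y → R (f^[j] x) (f'^[j] y) := by
    intro j
    induction j with
    | zero => exact fun x y h => h
    | succ j ih =>
      intro x y h
      rw [Function.iterate_succ_apply, Function.iterate_succ_apply]
      exact ih _ _ (hf _ _ h)
  unfold tin
  split_ifs
  · exact hh _ _ (hr _ _ (hit j x y hxy))
  · exact hh _ _ (hit j x y hxy)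
  · exact hr _ _ (hit j x y hxy)
  · exact hit j x y hxy

/-- `tin` of identities -/
theorem Assemble_id {Y : Type*} (e j : ℕ) (y : Y) : tin e id id id j y = y := by
  unfold tin
  split_ifs <;> simp

/-- invariance of a function -/
theorem Assemble_inv {X Y : Type*} (e : ℕ) {F : X → Y} {f r h : X → X}
    (hf : ∀ x, F (f x) = F x) (hr : ∀ x, F (r x) = F x) (hh : ∀ x, F (h x) = F x) (j : ℕ) (x : X) :
    F (tin e f r h j x) = F x := by
  have := Assemble_rel e (R := fun (x : X) (y : Y) => F x = y) (f' := id) (r' := id) (h' := id)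
    (fun x y h => (hf x).trans h) (fun x y h => (hr x).trans h) (fun x y h => (hh x).trans h) j
    (x := x) (y := F x) rfl
  rwa [Assemble_id] at this

theorem Assemble_it {X Y : Type*} {F : X → Y} {f : X → X} (hf : ∀ x, F (f x) = F x) (j : ℕ)
    (x : X) : F (f^[j] x) = F x := by
  induction j generalizing x with
  | zero => rfl
  | succ j ih => rw [Function.iterate_succ_apply, ih, hf]

theorem Assemble_Ri (c W : ℝ) (v : V3) : Ri c (W • v) = W • Ri c v := by
  refine Prod.ext ?_ (Prod.ext ?_ ?_)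
  · simp only [Ri, Prod.smul_fst, Prod.smul_snd, smul_eq_mul]; ring
  · simp only [Ri, Prod.smul_fst, Prod.smul_snd, smul_eq_mul]; ring
  · simp only [Ri, Prod.smul_fst, Prod.smul_snd, smul_eq_mul]; ring

theorem Assemble_rV (c W : ℝ) (v : V3) : rV c (W • v) = W • rV c v := by
  refine Prod.ext ?_ (Prod.ext ?_ ?_)
  · simp only [rV, Prod.smul_fst, Prod.smul_snd, smul_eq_mul]; ring
  · simp only [rV, Prod.smul_fst, Prod.smul_snd, smul_eq_mul]; ring
  · simp only [rV, Prod.smul_fst, Prod.smul_snd, smul_eq_mul]; ring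

theorem Assemble_hV (c W : ℝ) (v : V3) : hV c (W • v) = W • hV c v := by
  refine Prod.ext ?_ (Prod.ext ?_ ?_)
  · simp only [hV, Prod.smul_fst, Prod.smul_snd, smul_eq_mul]; ring
  · simp only [hV, Prod.smul_fst, Prod.smul_snd, smul_eq_mul]; ring
  · simp only [hV, Prod.smul_fst, Prod.smul_snd, smul_eq_mul]

theorem Assemble_Qs (c W : ℝ) (v : V3) : Qs c (W • v) = W ^ 2 * Qs c v := by
  simp only [Qs, Prod.smul_fst, Prod.smul_snd, smul_eq_mul]
  ring

theorem Assemble_tile (e : ℕ) (c : ℝ) (j : ℕ) (v : V3) :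
    tin e (Ri c) (rV c) (hV c) j v ∈ That c ↔ (Ri c)^[j] v ∈ That c := by
  unfold tin
  split_ifs <;> simp [tile_rm, tile_hm]

theorem assemble (m d e : ℕ) (hm : m = d * e) (hd : Odd d) (he : Odd e)
    (hd3 : 3 ≤ d) (he3 : 3 ≤ e) (h15 : 15 ≤ m) :
    ∃ A : Set V3, MeasurableSet A ∧ ∀ v : V3, Qs (cc m) v = 2 + cc m →
      ∃! j : ℕ, j < m ∧ tin e (Ri (cc m)) (rV (cc m)) (hV (cc m)) j v ∈ A := by
  have hodd : Odd m := hm ▸ hd.mul he
  obtain ⟨AN, hAN⟩ := hyp_cover m d e hm hd he hd3 he3 h15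
  obtain ⟨AW, hAW⟩ := sp_cover m e (by omega) hodd
  have hc0 : 0 < cc m := by
    unfold cc
    have h1 : (15 : ℝ) ≤ m := by exact_mod_cast h15
    have h2 : Real.pi / m < Real.pi / 2 :=
      div_lt_div_of_pos_left Real.pi_pos (by norm_num) (by linarith)
    have h3 : 0 < Real.pi / m := div_pos Real.pi_pos (by linarith)
    have h4 : 0 < Real.cos (Real.pi / m) := Real.cos_pos_of_mem_Ioo ⟨by linarith, h2⟩
    linarith
  set W : ℝ := Real.sqrt ((4 + 4 * cc m) / (2 + cc m)) with hW
  have hWpos : 0 < W := Real.sqrt_pos.2 (by positivity)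
  have hW2 : W ^ 2 = (4 + 4 * cc m) / (2 + cc m) := Real.sq_sqrt (by positivity)
  set EN : Set V3 := {v | ∃ v', Lp m v v'} with hEN
  set EW : Set V3 := {v | ∃ v', Lp m (W • v) v'} with hEW
  have cN : EN.Countable := lp_countable m
  have cW : EW.Countable := by
    have hinj : Function.Injective (fun v : V3 => W • v) := smul_right_injective V3 hWpos.ne'
    exact cN.preimage hinj
  -- invariance of the exceptional sets
  have iN1 : ∀ v : V3, (Ri (cc m) v ∈ EN) = (v ∈ EN) := fun v => propext (lp_Ri_iff m v)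
  have iN2 : ∀ v : V3, (rV (cc m) v ∈ EN) = (v ∈ EN) := fun v => propext (lp_rm_iff m v)
  have iN3 : ∀ v : V3, (hV (cc m) v ∈ EN) = (v ∈ EN) := fun v => propext (lp_hm_iff m v)
  have iW1 : ∀ v : V3, (Ri (cc m) v ∈ EW) = (v ∈ EW) := fun v => by
    show (∃ v', Lp m (W • Ri (cc m) v) v') = ∃ v', Lp m (W • v) v'
    rw [← Assemble_Ri]
    exact propext (lp_Ri_iff m _)
  have iW2 : ∀ v : V3, (rV (cc m) v ∈ EW) = (v ∈ EW) := fun v => by
    show (∃ v', Lp m (W • rV (cc m) v) v') = ∃ v', Lp m (W • v) v'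
    rw [← Assemble_rV]
    exact propext (lp_rm_iff m _)
  have iW3 : ∀ v : V3, (hV (cc m) v ∈ EW) = (v ∈ EW) := fun v => by
    show (∃ v', Lp m (W • hV (cc m) v) v') = ∃ v', Lp m (W • v) v'
    rw [← Assemble_hV]
    exact propext (lp_hm_iff m _)
  have tN : ∀ (j : ℕ) (v : V3),
      (tin e (Ri (cc m)) (rV (cc m)) (hV (cc m)) j v ∈ EN) = (v ∈ EN) := fun j v =>
    Assemble_inv e (F := fun v : V3 => (v ∈ EN)) iN1 iN2 iN3 j v
  have tW : ∀ (j : ℕ) (v : V3),
      (tin e (Ri (cc m)) (rV (cc m)) (hV (cc m)) j v ∈ EW) = (v ∈ EW) := fun j v =>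
    Assemble_inv e (F := fun v : V3 => (v ∈ EW)) iW1 iW2 iW3 j v
  have tLp : ∀ (j : ℕ) (v v' : V3), Lp m v v' →
      Lp m (tin e (Ri (cc m)) (rV (cc m)) (hV (cc m)) j v)
        (tin e (Ri (cg m)) (rV (cg m)) (hV (cg m)) j v') := fun j v v' h =>
    Assemble_rel e (R := Lp m) (lp_Ri m) (lp_rm m) (lp_hm m) j h
  have tPhi : ∀ (j : ℕ) (v : V3),
      Phi m (tin e (Ri (cg m)) (rV (cg m)) (hV (cg m)) j v) =
        tin e (rotg m (-2)) (rg m) hg j (Phi m v) := fun j v =>
    Assemble_rel e (R := fun (x : V3) (y : ℂ × ℝ) => Phi m x = y)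
      (fun x y h => by rw [phi_Ri m (by omega), h]) (fun x y h => by rw [phi_rm m (by omega), h])
      (fun x y h => by rw [phi_hm m (by omega), h]) j rfl
  have tSm : ∀ (j : ℕ) (v : V3), tin e (Ri (cc m)) (rV (cc m)) (hV (cc m)) j (W • v) =
      W • tin e (Ri (cc m)) (rV (cc m)) (hV (cc m)) j v := fun j v =>
    Assemble_rel e (R := fun (x y : V3) => x = W • y)
      (fun x y h => by rw [h, Assemble_Ri]) (fun x y h => by rw [h, Assemble_rV])
      (fun x y h => by rw [h, Assemble_hV]) j rfl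
  refine ⟨(That (cc m) \ (EN ∪ EW)) ∪ {v | v ∈ EN ∧ ∃ v', Lp m v v' ∧ Phi m v' ∈ AN} ∪
    {v | v ∈ EW ∧ v ∉ EN ∧ ∃ v', Lp m (W • v) v' ∧ Phi m v' ∈ AW}, ?_, ?_⟩
  · refine ((tile_meas _).diff (cN.union cW).measurableSet).union ?_ |>.union ?_
    · exact (cN.mono fun v hv => hv.1).measurableSet
    · exact (cW.mono fun v hv => hv.1).measurableSet
  · intro v hv
    by_cases h1 : v ∈ EN
    · obtain ⟨v', hv'⟩ := h1
      have h1 : v ∈ EN := ⟨v', hv'⟩
      refine (existsUnique_congr fun j => and_congr_right fun _ => ?_).2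
        (hAN (Phi m v') (lat_time m hodd (by omega) v v' hv' hv))
      rw [← tPhi]
      have hj : tin e (Ri (cc m)) (rV (cc m)) (hV (cc m)) j v ∈ EN := by rw [tN]; exact h1
      constructor
      · rintro ((h | ⟨_, w, hw, hw'⟩) | h)
        · exact absurd (Or.inl hj) h.2
        · rwa [lp_fun m hodd (by omega) _ _ _ (tLp j v v' hv') hw]
        · exact absurd hj h.2.1
      · intro h
        exact Or.inl (Or.inr ⟨hj, _, tLp j v v' hv', h⟩)
    · by_cases h2 : v ∈ EW
      · obtain ⟨v', hv'⟩ := h2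
        have h2 : v ∈ EW := ⟨v', hv'⟩
        have hQ : Qs (cc m) (W • v) = 4 + 4 * cc m := by
          rw [Assemble_Qs, hv, hW2, div_mul_cancel₀ _ (by linarith)]
        refine (existsUnique_congr fun j => and_congr_right fun _ => ?_).2
          (hAW (Phi m v') (lat_space m hodd (by omega) _ v' hv' hQ))
        rw [← tPhi]
        have hj : tin e (Ri (cc m)) (rV (cc m)) (hV (cc m)) j v ∉ EN := by rw [tN]; exact h1
        have hj2 : tin e (Ri (cc m)) (rV (cc m)) (hV (cc m)) j v ∈ EW := by rw [tW]; exact h2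
        have hL := tLp j (W • v) v' hv'
        rw [tSm] at hL
        constructor
        · rintro ((h | h) | ⟨_, _, w, hw, hw'⟩)
          · exact absurd (Or.inr hj2) h.2
          · exact absurd h.1 hj
          · rwa [lp_fun m hodd (by omega) _ _ _ hL hw]
        · intro h
          exact Or.inr ⟨hj2, hj, _, hL, h⟩
      · have hE : ∀ j < m, (Ri (cc m))^[j] v ∉ Exc (cc m) := by
          intro j _ hj
          have hQ : Qs (cc m) ((Ri (cc m))^[j] v) = 2 + cc m := by
            rw [Assemble_it (F := Qs (cc m)) (Qs_Ri (cc m)), hv]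
          have a1 : ((Ri (cc m))^[j] v ∈ EN) = (v ∈ EN) :=
            Assemble_it (F := fun v : V3 => (v ∈ EN)) iN1 j v
          have a2 : ((Ri (cc m))^[j] v ∈ EW) = (v ∈ EW) :=
            Assemble_it (F := fun v : V3 => (v ∈ EW)) iW1 j v
          rcases exc_lat m (by omega) _ hj hQ with h | h
          · exact h1 (a1 ▸ h)
          · exact h2 (a2 ▸ h)
        refine (existsUnique_congr fun j => and_congr_right fun _ => ?_).2
          (tile_part m hodd (by omega) v hE)
        rw [← Assemble_tile e]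
        have hj : tin e (Ri (cc m)) (rV (cc m)) (hV (cc m)) j v ∉ EN := by rw [tN]; exact h1
        have hj2 : tin e (Ri (cc m)) (rV (cc m)) (hV (cc m)) j v ∉ EW := by rw [tW]; exact h2
        constructor
        · rintro ((h | h) | h)
          · exact h.1
          · exact absurd h.1 hj
          · exact absurd h.1 hj2
        · intro h
          exact Or.inl (Or.inl ⟨h, fun h3 => h3.elim hj hj2⟩)

end Pool.Agent.Lib.MP_f406e2_lc_OC
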