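import Pool.Agent.Lib.MP_f406e2_lc_OC.Defs

/-! # Abstract data for the exact covers -/

namespace Pool.Agent.Lib.MP_f406e2_lc_OC

/-- abstract data used for the exact cover of the orbit of the pole `N`: a set with rotations
`rot i` (depending on `i` modulo `m` only), a half-turn `r`, a fundamental domain `F` for the
rotations outside the fixed point `N`, and a height -/
structure NCfg (m : ℕ) where
  X : Type
  rot : ℤ → X → X
  r : X → X
  N : X
  F : Set X
  ht : X → ℝ
  rot_zero : ∀ x, rot 0 x = x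
  rot_add : ∀ i j x, rot (i + j) x = rot i (rot j x)
  rot_m : ∀ x, rot m x = x
  rot_N : ∀ i, rot i N = N
  r_r : ∀ x, r (r x) = x
  N_notin : N ∉ F
  rN_mem : r N ∈ F
  F_ex : ∀ x, x ≠ N → ∃ i, rot i x ∈ F
  F_uniq : ∀ x ∈ F, ∀ i, rot i x ∈ F → (m : ℤ) ∣ i
  key : ∀ x ∈ F, ∀ i : ℤ, 3 ≤ i % m → i % m ≤ m - 3 →
    r (rot i x) ∈ F ∧ ht x < ht (r (rot i x))

open Classical in
/-- the labels `a` (of a point of the upper sheet) and `b` (of its image under `h`) seen through
`k_j` -/
noncomputable def pick {X : Type*} (e : ℕ) (r : X → X) (a b : X → Prop) (j : ℕ) (y : X) : Prop :=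
  (if j = 0 ∨ isH e j then b else a) ((if j = 0 ∨ j = 2 then r else id) y)

/-! ### the exotic tree -/

/-- types of exotic edges (`pA, pB, pC` are the types `A', B', C'` of the text) -/
inductive Ty | pA | pB | pC | A | B | C
  deriving DecidableEq

/-- the children of an exotic vertex entered through an edge of the given type: rotation and type
of the edge -/
def children (e : ℕ) : Ty → List (ℤ × Ty)
  | Ty.pC => [(2 * e, Ty.A), (4 * e, Ty.B)]
  | Ty.pA => [(-(2 * e), Ty.C), (2 * e, Ty.B)]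
  | Ty.pB => [(-(4 * e), Ty.C), (-(2 * e), Ty.A)]
  | Ty.A => [(4, Ty.pB), (-4, Ty.pC)]
  | Ty.B => [(-4, Ty.pA), (-8, Ty.pC)]
  | Ty.C => [(4, Ty.pA), (8, Ty.pB)]

/-- `Ent x t`: the element `x` of `F` is the entering edge, of type `t`, of an exotic vertex -/
inductive Ent {m : ℕ} (G : NCfg m) (e : ℕ) : G.X → Ty → Prop
  | root : Ent G e (G.r G.N) Ty.pC
  | step : ∀ (x : G.X) (t : Ty) (i : ℤ) (t' : Ty), Ent G e x t → (i, t') ∈ children e t →
      Ent G e (G.r (G.rot i x)) t'

end Pool.Agent.Lib.MP_f406e2_lc_OC
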