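import Mathlib

/-!
# Borel m-divisions of the sphere, m odd and composite: definitions

`m = d * e`, `d, e ≥ 3` odd, `m ≥ 15`.
Points of 3-space are written in the basis `N, b₀, a₀` (three vertices of the equilateral
m-trapezohedron): `(p, q, s)` stands for `p N + q b₀ + s a₀`. With `c = 2 cos (π / m)` the rotation
`R` (by `2 π / m` about `N`) and the two half-turns `r`, `h` preserving the tile are the linear
maps `R`, `rV c`, `hV c`. The same formulas with `c' = - 2 cos (2 π / m)` in place of `c` give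
isometries of the hyperbolic plane.
-/

open Complex ComplexConjugate

namespace Pool.Agent.Lib.MP_f406e2_lc_OC

/-- index `j` is one of the indices with `k_j = h` -/
def isH (e j : ℕ) : Prop :=
  (e ∣ j ∧ Odd (j / e)) ∨ (2 ≤ j ∧ e ∣ j - 2 ∧ Odd ((j - 2) / e))

open Classical in
/-- `t_j⁻¹ = k_j R^{-j}`, with `k_0 = h r`, `k_2 = r`, `k_j = h` if `isH e j`, and `k_j = 1` for
the other indices. `Ri` is the inverse of `R`. -/
noncomputable def tin {X : Type*} (e : ℕ) (Ri r h : X → X) (j : ℕ) (x : X) : X :=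
  (if j = 0 ∨ isH e j then h else id) ((if j = 0 ∨ j = 2 then r else id) (Ri^[j] x))

/-! ### the sphere side -/

/-- `c = 2 cos (π / m)` -/
noncomputable def cc (m : ℕ) : ℝ := 2 * Real.cos (Real.pi / m)

/-- `c' = - 2 cos (2 π / m)` -/
noncomputable def cg (m : ℕ) : ℝ := -(2 * Real.cos (2 * Real.pi / m))

/-- coordinates `(p, q, s)` -/
abbrev V3 := ℝ × ℝ × ℝ

/-- the inverse of `R` -/
def Ri (c : ℝ) (v : V3) : V3 :=
  (v.1 - c * v.2.1 + (c - c ^ 2) * v.2.2, -v.2.1 - c * v.2.2, c * v.2.1 + (c ^ 2 - 1) * v.2.2)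

/-- the half-turn exchanging `N` and `b₀` -/
def rV (c : ℝ) (v : V3) : V3 := (v.2.1 + c * v.2.2, v.1 + c * v.2.2, -v.2.2)

/-- the half-turn with `N ↦ -N`, `b₀ ↦ -b₀` -/
def hV (c : ℝ) (v : V3) : V3 := (-v.1 - c * v.2.2, -v.2.1 - c * v.2.2, v.2.2)

/-- `(2 + c)` times the square of the norm -/
def Qs (c : ℝ) (v : V3) : ℝ :=
  (2 + c) * (v.1 ^ 2 + v.2.1 ^ 2 + v.2.2 ^ 2) - 2 * c * (v.1 * v.2.1) + 2 * c * (v.1 * v.2.2)
    + 2 * c * (v.2.1 * v.2.2)

/-- three numbers have the same (nonzero) sign -/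
def Same3 (x y z : ℝ) : Prop := (0 < x ∧ 0 < y ∧ 0 < z) ∨ (x < 0 ∧ y < 0 ∧ z < 0)

/-- the condition defining the tile, in terms of the values `l₁, …, l₄` of the linear forms
vanishing on its sides -/
def TileC (c l1 l2 l3 l4 : ℝ) : Prop :=
  (0 < l1 ∧ 0 < l2 ∧ 0 < l3 ∧ 0 < l4) ∨ (l1 < 0 ∧ l2 < 0 ∧ l3 < 0 ∧ l4 < 0) ∨
  (l1 = 0 ∧ Same3 l2 l3 l4 ∧ l4 < c * l2) ∨ (l2 = 0 ∧ Same3 l1 l3 l4 ∧ c * l1 < l3) ∨
  (l3 = 0 ∧ Same3 l1 l2 l4 ∧ l2 < c * l4) ∨ (l4 = 0 ∧ Same3 l1 l2 l3 ∧ c * l3 < l1)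

/-- the tile (a union of cones over two opposite open rhombi and eight half-sides) -/
def That (c : ℝ) : Set V3 :=
  {v | TileC c v.2.1 v.1 (v.1 + c * v.2.2) (v.2.1 + c * v.2.2)}

/-- the exceptional directions of the tile: its vertices and the midpoints of its sides -/
def Exc (c : ℝ) : Set V3 :=
  {v | let l1 := v.2.1; let l2 := v.1; let l3 := v.1 + c * v.2.2; let l4 := v.2.1 + c * v.2.2
    (l1 = 0 ∧ l2 = 0) ∨ (l2 = 0 ∧ l3 = 0) ∨ (l3 = 0 ∧ l4 = 0) ∨ (l4 = 0 ∧ l1 = 0) ∨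
    (l1 = 0 ∧ l4 = c * l2) ∨ (l2 = 0 ∧ l3 = c * l1) ∨ (l3 = 0 ∧ l2 = c * l4) ∨
    (l4 = 0 ∧ l1 = c * l3)}

/-- the lattice `ℤ[c]³` and its Galois conjugation: `v' ` is the conjugate of `v` -/
def Lp (m : ℕ) (v v' : V3) : Prop :=
  ∃ P Q S : Polynomial ℤ,
    v = (Polynomial.aeval (cc m) P, Polynomial.aeval (cc m) Q, Polynomial.aeval (cc m) S) ∧
    v' = (Polynomial.aeval (cg m) P, Polynomial.aeval (cg m) Q, Polynomial.aeval (cg m) S)

/-! ### the hyperbolic side; points of Minkowski space are `(ξ, Z) ∈ ℂ × ℝ` with the form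
`|ξ|² - Z²` -/

/-- `ω = exp (2 π i / m)` -/
noncomputable def om (m : ℕ) : ℂ := Complex.exp (2 * Real.pi / m * Complex.I)

/-- `s = sin (π / m)` -/
noncomputable def sa (m : ℕ) : ℝ := Real.sin (Real.pi / m)

/-- `τ = √ (1 - 4 s²)`, the hyperbolic tangent of half the length of an edge of `{3, m}` -/
noncomputable def ta (m : ℕ) : ℝ := Real.sqrt (1 - 4 * sa m ^ 2)

/-- the hyperbolic cosine of the length of an edge -/
noncomputable def Ch (m : ℕ) : ℝ := (1 - 2 * sa m ^ 2) / (2 * sa m ^ 2)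

/-- the hyperbolic sine of the length of an edge -/
noncomputable def Sh (m : ℕ) : ℝ := ta m / (2 * sa m ^ 2)

/-- rotation by `2 π i / m` -/
noncomputable def rotg (m : ℕ) (i : ℤ) (u : ℂ × ℝ) : ℂ × ℝ := (om m ^ i * u.1, u.2)

/-- the half-turn about the midpoint of an edge -/
noncomputable def rg (m : ℕ) (u : ℂ × ℝ) : ℂ × ℝ :=
  (⟨u.2 * Sh m - u.1.re * Ch m, -u.1.im⟩, u.2 * Ch m - u.1.re * Sh m)

/-- minus the reflection in the line of that edge -/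
noncomputable def hg (u : ℂ × ℝ) : ℂ × ℝ := (-conj u.1, -u.2)

/-- the Minkowski form -/
noncomputable def Mk (u : ℂ × ℝ) : ℝ := Complex.normSq u.1 - u.2 ^ 2

/-- from basis coordinates to Minkowski space -/
noncomputable def Phi (m : ℕ) (v : V3) : ℂ × ℝ :=
  ((Sh m : ℂ) * (v.2.1 - v.2.2 * (om m)⁻¹), v.1 + Ch m * (v.2.1 - v.2.2))

/-- the standard fundamental sector for the rotations -/
def Fs (m : ℕ) : Set (ℂ × ℝ) :=
  {u | u.1 ≠ 0 ∧ Complex.arg u.1 ∈ Set.Ioc (-(Real.pi / m)) (Real.pi / m)}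

end Pool.Agent.Lib.MP_f406e2_lc_OC
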