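import Pool.Agent.Lib.MP_f406e2_lc_OC.CDefs

/-! # The exotic tree is embedded -/

namespace Pool.Agent.Lib.MP_f406e2_lc_OC

theorem EntU_two {m d e : ℕ} (hm : m = d * e) (hd3 : 3 ≤ d)
    (he3 : 3 ≤ e) : 2 * e + 3 ≤ m := by
  subst hm
  nlinarith

/-- the residues of the rotations used -/
theorem EntU_adm {m d e : ℕ} (hm : m = d * e) (hd : Odd d) (hd3 : 3 ≤ d)
    (he3 : 3 ≤ e) (h15 : 15 ≤ m) (i : ℤ)
    (hi : i = 2 * e ∨ i = 4 * e ∨ i = -(2 * e) ∨ i = -(4 * e) ∨ i = 4 ∨ i = -4 ∨ i = 8 ∨ i = -8) :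
    3 ≤ i % m ∧ i % m ≤ m - 3 := by
  have h2 := EntU_two hm hd3 he3
  have h4 : (d = 3 ∧ m = 3 * e) ∨ 4 * e + 3 ≤ m := by
    rcases Nat.lt_or_ge d 5 with h | h
    · left
      obtain ⟨k, hk⟩ := hd
      have : d = 3 := by omega
      exact ⟨this, by rw [hm, this]⟩
    · right
      rw [hm]
      nlinarith
  have key : ∀ a b : ℤ, 3 ≤ b → b ≤ m - 3 → (∃ q : ℤ, a = m * q + b) →
      3 ≤ a % m ∧ a % m ≤ m - 3 := by
    rintro a b h3 h5 ⟨q, rfl⟩
    rw [Int.mul_add_emod_self_left, Int.emod_eq_of_lt (by omega) (by omega)]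
    exact ⟨h3, h5⟩
  rcases hi with rfl | rfl | rfl | rfl | rfl | rfl | rfl | rfl
  · exact key _ (2 * e) (by omega) (by omega) ⟨0, by ring⟩
  · rcases h4 with ⟨-, h4⟩ | h4
    · exact key _ e (by omega) (by omega) ⟨1, by omega⟩
    · exact key _ (4 * e) (by omega) (by omega) ⟨0, by ring⟩
  · exact key _ (m - 2 * e) (by omega) (by omega) ⟨-1, by omega⟩
  · rcases h4 with ⟨-, h4⟩ | h4
    · exact key _ (m - e) (by omega) (by omega) ⟨-2, by omega⟩
    · exact key _ (m - 4 * e) (by omega) (by omega) ⟨-1, by omega⟩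
  · exact key _ 4 (by omega) (by omega) ⟨0, by ring⟩
  · exact key _ (m - 4) (by omega) (by omega) ⟨-1, by omega⟩
  · exact key _ 8 (by omega) (by omega) ⟨0, by ring⟩
  · exact key _ (m - 8) (by omega) (by omega) ⟨-1, by omega⟩

/-- all rotations used by the exotic tree are admissible in `NCfg.key` -/
theorem child_adm (m d e : ℕ) (hm : m = d * e) (hd : Odd d) (he : Odd e) (hd3 : 3 ≤ d)
    (he3 : 3 ≤ e) (h15 : 15 ≤ m) (t : Ty) (i : ℤ) (t' : Ty) (h : (i, t') ∈ children e t) :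
    3 ≤ i % m ∧ i % m ≤ m - 3 := by
  apply EntU_adm hm hd hd3 he3 h15
  cases t <;>
    simp only [children, List.mem_cons, Prod.mk.injEq, List.not_mem_nil, or_false] at h <;>
    rcases h with ⟨h, -⟩ | ⟨h, -⟩ <;> simp [h]

theorem ent_mem {m : ℕ} (G : NCfg m) (d e : ℕ) (hm : m = d * e) (hd : Odd d) (he : Odd e)
    (hd3 : 3 ≤ d) (he3 : 3 ≤ e) (h15 : 15 ≤ m) (x : G.X) (t : Ty) (h : Ent G e x t) :
    x ∈ G.F := by
  induction h with
  | root => exact G.rN_mem
  | step x t i t' _ hc ih =>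
    have h1 := child_adm m d e hm hd he hd3 he3 h15 t i t' hc
    exact (G.key x ih i h1.1 h1.2).1

/-- rotations by multiples of `m` are trivial -/
theorem EntU_rot_nat {m : ℕ} (G : NCfg m) (n : ℕ) (x : G.X) : G.rot (m * n) x = x := by
  induction n with
  | zero => simpa using G.rot_zero x
  | succ n ih =>
    have : (m : ℤ) * ((n + 1 : ℕ) : ℤ) = m * n + m := by push_cast; ring
    rw [this, G.rot_add, G.rot_m, ih]

theorem EntU_rot_dvd {m : ℕ} (G : NCfg m) {i : ℤ} (h : (m : ℤ) ∣ i) (x : G.X) :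
    G.rot i x = x := by
  obtain ⟨q, rfl⟩ := h
  obtain ⟨n, rfl | rfl⟩ := q.eq_nat_or_neg
  · exact EntU_rot_nat G n x
  · have h1 : G.rot (m * -(n : ℤ)) (G.rot (m * n) x) = x := by
      rw [← G.rot_add]
      have : (m : ℤ) * -(n : ℤ) + m * n = 0 := by ring
      rw [this, G.rot_zero]
    rwa [EntU_rot_nat] at h1

theorem EntU_neg {m : ℕ} (G : NCfg m) (i : ℤ) (x : G.X) : G.rot (-i) (G.rot i x) = x := by
  rw [← G.rot_add, neg_add_cancel, G.rot_zero]

theorem EntU_ne {m : ℕ} (G : NCfg m) {i : ℤ} {x : G.X} (hx : x ∈ G.F) : G.rot i x ≠ G.N := by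
  intro h
  have h1 := EntU_neg G i x
  rw [h, G.rot_N] at h1
  rw [← h1] at hx
  exact G.N_notin hx

theorem EntU_not_dvd {m : ℕ} {a : ℤ} (h : 3 ≤ a % m ∧ a % m ≤ m - 3) : ¬ (m : ℤ) ∣ a := by
  intro h1
  have h2 := Int.emod_eq_zero_of_dvd h1
  omega

/-- the two children of an edge are different modulo `m` -/
theorem EntU_child {m d e : ℕ} (hm : m = d * e) (hd : Odd d) (hd3 : 3 ≤ d)
    (he3 : 3 ≤ e) (h15 : 15 ≤ m) {t t1 t2 : Ty} {i j : ℤ} (h1 : (i, t1) ∈ children e t)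
    (h2 : (j, t2) ∈ children e t) (hij : (m : ℤ) ∣ i - j) : t1 = t2 := by
  by_contra hne
  have key : ∀ a : ℤ, a = i - j → (a = 2 * e ∨ a = 4 * e ∨ a = -(2 * e) ∨ a = -(4 * e) ∨ a = 4 ∨
      a = -4 ∨ a = 8 ∨ a = -8) → False := by
    intro a ha h
    exact EntU_not_dvd (EntU_adm hm hd hd3 he3 h15 a h) (ha ▸ hij)
  cases t <;> simp only [children, List.mem_cons, Prod.mk.injEq, List.not_mem_nil, or_false]
    at h1 h2 <;> rcases h1 with ⟨h1, h1'⟩ | ⟨h1, h1'⟩ <;> rcases h2 with ⟨h2, h2'⟩ | ⟨h2, h2'⟩ <;>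
    subst h1 h2 h1' h2' <;> first
      | exact hne rfl
      | (refine key _ rfl ?_; omega)

/-- the type of an exotic vertex is determined -/
theorem ent_uniq {m : ℕ} (G : NCfg m) (d e : ℕ) (hm : m = d * e) (hd : Odd d) (he : Odd e)
    (hd3 : 3 ≤ d) (he3 : 3 ≤ e) (h15 : 15 ≤ m) (x : G.X) (t t' : Ty) (h : Ent G e x t)
    (h' : Ent G e x t') : t = t' := by
  have hr : ∀ {a b : G.X}, G.r a = G.r b → a = b := by
    intro a b hab
    rw [← G.r_r a, hab, G.r_r]
  have hF := ent_mem G d e hm hd he hd3 he3 h15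
  induction h generalizing t' with
  | root =>
    generalize hy : G.r G.N = y at h'
    cases h' with
    | root => rfl
    | step x' s i' _ hx' hc' =>
      exact absurd (hr hy).symm (EntU_ne G (hF _ _ hx'))
  | step x s i t hx hc ih =>
    generalize hy : G.r (G.rot i x) = y at h'
    cases h' with
    | root => exact absurd (hr hy) (EntU_ne G (hF _ _ hx))
    | step x' s' i' _ hx' hc' =>
      have h1 := hr hy
      have h2 : G.rot (-i' + i) x = x' := by
        rw [G.rot_add, h1, EntU_neg]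
      have h3 : (m : ℤ) ∣ -i' + i := G.F_uniq x (hF _ _ hx) _ (by rw [h2]; exact hF _ _ hx')
      have h4 : x = x' := by rw [← h2, EntU_rot_dvd G h3]
      subst h4
      have h5 := ih s' hx'
      subst h5
      exact EntU_child hm hd hd3 he3 h15 hc hc' (by
        have : i - i' = -i' + i := by ring
        rwa [this])

end Pool.Agent.Lib.MP_f406e2_lc_OC
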