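import Pool.Agent.Lib.MP_f406e2_lc_OC.Defs

/-! # From basis coordinates to the standard sphere -/

open scoped Matrix

namespace Pool.Agent.Lib.MP_f406e2_lc_OC

/-- rotation matrices -/
def Sph_SO (g : Matrix (Fin 3) (Fin 3) ℝ) : Prop := g * gᵀ = 1 ∧ g.det = 1

theorem Sph_mem {g : Matrix (Fin 3) (Fin 3) ℝ} :
    g ∈ Matrix.specialOrthogonalGroup (Fin 3) ℝ ↔ Sph_SO g := by
  rw [Matrix.mem_specialOrthogonalGroup_iff, Matrix.mem_orthogonalGroup_iff]
  rfl

theorem Sph_SO_one : Sph_SO 1 := ⟨by simp, by simp⟩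

theorem Sph_SO_mul {g h : Matrix (Fin 3) (Fin 3) ℝ} (hg : Sph_SO g) (hh : Sph_SO h) :
    Sph_SO (g * h) := by
  refine ⟨?_, by rw [Matrix.det_mul, hg.2, hh.2, one_mul]⟩
  rw [Matrix.transpose_mul, Matrix.mul_assoc, ← Matrix.mul_assoc h, hh.1, Matrix.one_mul, hg.1]

theorem Sph_SO_tr {g : Matrix (Fin 3) (Fin 3) ℝ} (hg : Sph_SO g) : Sph_SO gᵀ := by
  refine ⟨?_, by rw [Matrix.det_transpose, hg.2]⟩
  rw [Matrix.transpose_transpose]
  exact mul_eq_one_comm.1 hg.1

theorem Sph_SO_tr_mul {g : Matrix (Fin 3) (Fin 3) ℝ} (hg : Sph_SO g) : gᵀ * g = 1 :=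
  mul_eq_one_comm.1 hg.1

theorem Sph_dot {g : Matrix (Fin 3) (Fin 3) ℝ} (hg : Sph_SO g) (x : Fin 3 → ℝ) :
    (g *ᵥ x) ⬝ᵥ (g *ᵥ x) = x ⬝ᵥ x := by
  rw [Matrix.dotProduct_mulVec, Matrix.vecMul_mulVec, Sph_SO_tr_mul hg, Matrix.vecMul_one]

/-- a half-turn -/
theorem Sph_half (k w0 w1 w2 : ℝ) (h : k * (w0 ^ 2 + w1 ^ 2 + w2 ^ 2) = 2) :
    Sph_SO !![k * w0 * w0 - 1, k * w0 * w1, k * w0 * w2;
      k * w1 * w0, k * w1 * w1 - 1, k * w1 * w2;
      k * w2 * w0, k * w2 * w1, k * w2 * w2 - 1] := by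
  constructor
  · ext i j
    rw [Matrix.mul_apply, Fin.sum_univ_three]
    fin_cases i <;> fin_cases j <;> simp [Matrix.transpose_apply]
    · linear_combination (k * w0 * w0) * h
    · linear_combination (k * w0 * w1) * h
    · linear_combination (k * w0 * w2) * h
    · linear_combination (k * w1 * w0) * h
    · linear_combination (k * w1 * w1) * h
    · linear_combination (k * w1 * w2) * h
    · linear_combination (k * w2 * w0) * h
    · linear_combination (k * w2 * w1) * h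
    · linear_combination (k * w2 * w2) * h
  · rw [Matrix.det_fin_three]
    simp
    linear_combination h

/-- a rotation about the third axis -/
theorem Sph_turn (x y : ℝ) (h : x ^ 2 + y ^ 2 = 1) :
    Sph_SO !![x, y, 0; -y, x, 0; 0, 0, 1] := by
  constructor
  · ext i j
    rw [Matrix.mul_apply, Fin.sum_univ_three]
    fin_cases i <;> fin_cases j <;> simp [Matrix.transpose_apply]
    · linear_combination h
    · ring
    · ring
    · linear_combination h
  · rw [Matrix.det_fin_three]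
    simp
    linear_combination h

/-- the parameters of the embedding -/
structure Sph_Par (c s l w : ℝ) : Prop where
  h1 : (2 + c) * s = c
  h2 : l ^ 2 + s ^ 2 = 1
  h3 : w ^ 2 + (c / 2) ^ 2 = 1
  l0 : l ≠ 0
  w0 : w ≠ 0
  c0 : 2 + c ≠ 0

theorem Sph_Par.h4 {c s l w : ℝ} (h : Sph_Par c s l w) : l ^ 2 * (c / 2) = s + s ^ 2 := by
  linear_combination (c / 2) * h.h2 - (1 + s) / 2 * h.h1

/-- the embedding -/
noncomputable def Sph_T (c s l w : ℝ) (v : V3) : Fin 3 → ℝ :=
  ![l * (c / 2) * v.2.1 + l * v.2.2, l * w * v.2.1, v.1 - s * v.2.1 + s * v.2.2]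

/-- the inverse of the embedding -/
noncomputable def Sph_I (c s l w : ℝ) (x : Fin 3 → ℝ) : V3 :=
  (x 2 + s * (x 1 / (l * w)) - s * (x 0 / l - c / 2 * (x 1 / (l * w))),
    x 1 / (l * w), x 0 / l - c / 2 * (x 1 / (l * w)))

theorem Sph_TI {c s l w : ℝ} (h : Sph_Par c s l w) (x : Fin 3 → ℝ) :
    Sph_T c s l w (Sph_I c s l w x) = x := by
  have hl := h.l0
  have hw := h.w0
  funext i
  fin_cases i
  · simp [Sph_T, Sph_I]
    field_simp
    ring
  · simp [Sph_T, Sph_I]
    field_simp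
  · simp [Sph_T, Sph_I]
    ring

theorem Sph_IT {c s l w : ℝ} (h : Sph_Par c s l w) (v : V3) :
    Sph_I c s l w (Sph_T c s l w v) = v := by
  have hl := h.l0
  have hw := h.w0
  obtain ⟨p, q, r⟩ := v
  have e1 : l * w * q / (l * w) = q := by field_simp
  have e2 : (l * (c / 2) * q + l * r) / l - c / 2 * q = r := by
    field_simp
    ring
  simp only [Sph_I, Sph_T, Matrix.cons_val_zero, Matrix.cons_val_one, Matrix.cons_val,
    e1, e2]
  refine Prod.ext ?_ rfl
  simp
  ring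

theorem Sph_inj {c s l w : ℝ} (h : Sph_Par c s l w) {u v : V3}
    (huv : Sph_T c s l w u = Sph_T c s l w v) : u = v := by
  rw [← Sph_IT h u, huv, Sph_IT h v]

theorem Sph_norm {c s l w : ℝ} (h : Sph_Par c s l w) (v : V3) :
    Qs c v = (2 + c) * (Sph_T c s l w v ⬝ᵥ Sph_T c s l w v) := by
  obtain ⟨p, q, r⟩ := v
  have h4 := h.h4
  have h1 := h.h1
  have h2 := h.h2
  have h3 := h.h3
  have e0 : Sph_T c s l w (p, q, r) ⬝ᵥ Sph_T c s l w (p, q, r) =
      (l * (c / 2) * q + l * r) * (l * (c / 2) * q + l * r) + l * w * q * (l * w * q) +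
        (p - s * q + s * r) * (p - s * q + s * r) := by
    simp [Sph_T, dotProduct, Fin.sum_univ_three]
  rw [e0]
  simp only [Qs]
  have e1 : (l * (c / 2) * q + l * r) * (l * (c / 2) * q + l * r) + l * w * q * (l * w * q) +
      (p - s * q + s * r) * (p - s * q + s * r) = p ^ 2 + q ^ 2 + r ^ 2 - 2 * s * p * q +
        2 * s * p * r + 2 * s * q * r := by
    linear_combination (l ^ 2 * q ^ 2) * h3 + (q ^ 2 + r ^ 2) * h2 + 2 * q * r * h4
  rw [e1]
  linear_combination (2 * p * q - 2 * p * r - 2 * q * r) * h1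

/-- the map is a rotation of the standard space -/
def Sph_Rot (c s l w : ℝ) (φ : V3 → V3) : Prop :=
  ∃ g, Sph_SO g ∧ ∀ v, Sph_T c s l w (φ v) = g *ᵥ Sph_T c s l w v

theorem Sph_Rot_id (c s l w : ℝ) : Sph_Rot c s l w id :=
  ⟨1, Sph_SO_one, fun v => by rw [Matrix.one_mulVec, id]⟩

theorem Sph_Rot_comp {c s l w : ℝ} {φ ψ : V3 → V3} (h1 : Sph_Rot c s l w φ)
    (h2 : Sph_Rot c s l w ψ) : Sph_Rot c s l w fun v => φ (ψ v) := by
  obtain ⟨g, hg, h1⟩ := h1
  obtain ⟨g', hg', h2⟩ := h2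
  exact ⟨g * g', Sph_SO_mul hg hg', fun v => by rw [h1, h2, Matrix.mulVec_mulVec]⟩

theorem Sph_Rot_iter {c s l w : ℝ} {φ : V3 → V3} (h1 : Sph_Rot c s l w φ) (n : ℕ) :
    Sph_Rot c s l w φ^[n] := by
  induction n with
  | zero => exact Sph_Rot_id c s l w
  | succ n ih =>
    have h2 := Sph_Rot_comp ih h1
    exact h2

theorem Sph_Rot_Ri {c s l w : ℝ} (h : Sph_Par c s l w) : Sph_Rot c s l w (Ri c) := by
  have h1 := h.h1
  have h3 := h.h3
  refine ⟨_, Sph_turn (c ^ 2 / 2 - 1) (c * w) ?_, fun v => ?_⟩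
  · linear_combination (c ^ 2) * h3
  · obtain ⟨p, q, r⟩ := v
    funext i
    fin_cases i
    · simp [Sph_T, Ri, Matrix.mulVec, dotProduct, Fin.sum_univ_three]
      linear_combination (-(l * c * q)) * h3
    · simp [Sph_T, Ri, Matrix.mulVec, dotProduct, Fin.sum_univ_three]
      ring
    · simp [Sph_T, Ri, Matrix.mulVec, dotProduct, Fin.sum_univ_three]
      linear_combination (q + (c - 1) * r) * h1

theorem Sph_Rot_hV {c s l w : ℝ} (h : Sph_Par c s l w) : Sph_Rot c s l w (hV c) := by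
  have h1 := h.h1
  have h3 := h.h3
  refine ⟨_, Sph_half 2 (-w) (c / 2) 0 ?_, fun v => ?_⟩
  · linear_combination 2 * h3
  · obtain ⟨p, q, r⟩ := v
    funext i
    fin_cases i
    · simp [Sph_T, hV, Matrix.mulVec, dotProduct, Fin.sum_univ_three]
      linear_combination (-(2 * l * r)) * h3
    · simp [Sph_T, hV, Matrix.mulVec, dotProduct, Fin.sum_univ_three]
      ring
    · simp [Sph_T, hV, Matrix.mulVec, dotProduct, Fin.sum_univ_three]
      linear_combination r * h1

theorem Sph_Rot_rV {c s l w : ℝ} (h : Sph_Par c s l w) : Sph_Rot c s l w (rV c) := by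
  have h1 := h.h1
  have h2 := h.h2
  have h3 := h.h3
  have h4 := h.h4
  have hs : (2 + c) * (1 - s) = 2 := by linear_combination -h1
  refine ⟨_, Sph_half ((2 + c) / 2) (l * (c / 2)) (l * w) (1 - s) ?_, fun v => ?_⟩
  · have e : (l * (c / 2)) ^ 2 + (l * w) ^ 2 + (1 - s) ^ 2 = 2 * (1 - s) := by
      linear_combination (l ^ 2) * h3 + h2
    rw [e]
    linear_combination hs
  · obtain ⟨p, q, r⟩ := v
    have hk : (2 + c) / 2 * (l * (c / 2) * (l * (c / 2) * q + l * r) + l * w * (l * w * q) +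
        (1 - s) * (p - s * q + s * r)) = p + q + c * r := by
      have e : l * (c / 2) * (l * (c / 2) * q + l * r) + l * w * (l * w * q) +
          (1 - s) * (p - s * q + s * r) = (1 - s) * (p + q) + 2 * s * r := by
        linear_combination (l ^ 2 * q) * h3 + q * h2 + r * h4
      rw [e]
      linear_combination ((p + q) / 2) * hs + r * h1
    funext i
    fin_cases i
    · simp [Sph_T, rV, Matrix.mulVec, dotProduct, Fin.sum_univ_three]
      linear_combination (-(l * (c / 2))) * hk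
    · simp [Sph_T, rV, Matrix.mulVec, dotProduct, Fin.sum_univ_three]
      linear_combination (-(l * w)) * hk
    · simp [Sph_T, rV, Matrix.mulVec, dotProduct, Fin.sum_univ_three]
      linear_combination (-(1 - s)) * hk

theorem Sph_Rot_tin {c s l w : ℝ} (h : Sph_Par c s l w) (e j : ℕ) :
    Sph_Rot c s l w (tin e (Ri c) (rV c) (hV c) j) := by
  have h1 : Sph_Rot c s l w ((Ri c)^[j]) := Sph_Rot_iter (Sph_Rot_Ri h) j
  have h2 : Sph_Rot c s l w (if j = 0 ∨ j = 2 then rV c else id) := by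
    split_ifs
    · exact Sph_Rot_rV h
    · exact Sph_Rot_id c s l w
  classical
  have h3 : Sph_Rot c s l w (if j = 0 ∨ isH e j then hV c else id) := by
    split_ifs
    · exact Sph_Rot_hV h
    · exact Sph_Rot_id c s l w
  have h4 := Sph_Rot_comp h3 (Sph_Rot_comp h2 h1)
  unfold tin
  convert h4 using 3

theorem Sph_cont_tin (c : ℝ) (e j : ℕ) : Continuous (tin e (Ri c) (rV c) (hV c) j) := by
  have c1 : Continuous (Ri c) := by unfold Ri; fun_prop
  have c2 : Continuous (rV c) := by unfold rV; fun_prop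
  have c3 : Continuous (hV c) := by unfold hV; fun_prop
  have h1 : Continuous ((Ri c)^[j]) := c1.iterate j
  have h2 : Continuous (if j = 0 ∨ j = 2 then rV c else id) := by
    split_ifs
    · exact c2
    · exact continuous_id
  unfold tin
  split_ifs
  · exact c3.comp (c2.comp h1)
  · exact c3.comp (continuous_id.comp h1)
  · exact continuous_id.comp (c2.comp h1)
  · exact continuous_id.comp (continuous_id.comp h1)

theorem Sph_cont_I (c s l w : ℝ) : Continuous (Sph_I c s l w) := by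
  unfold Sph_I
  fun_prop

/-- the parameters exist -/
theorem Sph_par (m : ℕ) (h3 : 3 ≤ m) : ∃ s l w : ℝ, Sph_Par (cc m) s l w := by
  have hm : (3 : ℝ) ≤ m := by exact_mod_cast h3
  have hpi := Real.pi_pos
  have ha0 : 0 < Real.pi / m := by positivity
  have ha1 : Real.pi / m ≤ Real.pi / 3 := by
    apply div_le_div_of_nonneg_left hpi.le (by norm_num) hm
  have hsin : 0 < Real.sin (Real.pi / m) :=
    Real.sin_pos_of_pos_of_lt_pi ha0 (by linarith)
  have hcos : 0 < Real.cos (Real.pi / m) :=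
    Real.cos_pos_of_mem_Ioo ⟨by linarith, by linarith⟩
  have hc : 0 < cc m := by
    unfold cc
    linarith
  have h2c : (0 : ℝ) < 2 + cc m := by linarith
  have hs1 : cc m / (2 + cc m) < 1 := by
    rw [div_lt_one h2c]
    linarith
  have hs0 : 0 < cc m / (2 + cc m) := by positivity
  have hl : 0 < 1 - (cc m / (2 + cc m)) ^ 2 := by nlinarith
  refine ⟨cc m / (2 + cc m), Real.sqrt (1 - (cc m / (2 + cc m)) ^ 2), Real.sin (Real.pi / m),
    ?_, ?_, ?_, ?_, hsin.ne', h2c.ne'⟩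
  · field_simp
  · rw [Real.sq_sqrt hl.le]
    ring
  · unfold cc
    have := Real.sin_sq_add_cos_sq (Real.pi / m)
    linear_combination this
  · exact (Real.sqrt_pos.2 hl).ne'

/-- if the tuple of linear isometries of the form `Qs` has an exact cover of the sphere
`Qs = 2 + c` by a Borel set, then the standard sphere is divided into `m` congruent Borel sets -/
theorem sph_final (m e : ℕ) (h3 : 3 ≤ m) (A : Set V3) (hA : MeasurableSet A)
    (hAe : ∀ v : V3, Qs (cc m) v = 2 + cc m →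
      ∃! j : ℕ, j < m ∧ tin e (Ri (cc m)) (rV (cc m)) (hV (cc m)) j v ∈ A) :
    ∃ S : Fin m → Set (Fin 3 → ℝ),
      (∀ i, MeasurableSet (S i)) ∧
      (⋃ i, S i) = {x : Fin 3 → ℝ | x ⬝ᵥ x = 1} ∧
      Pairwise (Function.onFun Disjoint S) ∧
      ∀ i j, ∃ g ∈ Matrix.specialOrthogonalGroup (Fin 3) ℝ, (fun x => g *ᵥ x) '' S i = S j := by
  obtain ⟨s, l, w, h⟩ := Sph_par m h3
  set c := cc m with hc
  have hQ : ∀ x : Fin 3 → ℝ, x ⬝ᵥ x = 1 → Qs c (Sph_I c s l w x) = 2 + c := by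
    intro x hx
    rw [Sph_norm h, Sph_TI h, hx, mul_one]
  let S : Fin m → Set (Fin 3 → ℝ) := fun j =>
    {x | x ⬝ᵥ x = 1 ∧ tin e (Ri c) (rV c) (hV c) j (Sph_I c s l w x) ∈ A}
  refine ⟨S, fun i => ?_, ?_, ?_, fun i j => ?_⟩
  · refine MeasurableSet.inter ?_ ?_
    · apply IsClosed.measurableSet
      apply isClosed_eq
      · unfold dotProduct
        fun_prop
      · exact continuous_const
    · exact ((Sph_cont_tin c e i).comp (Sph_cont_I c s l w)).measurable hA
  · ext x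
    rw [Set.mem_iUnion]
    constructor
    · rintro ⟨i, hi⟩
      exact hi.1
    · intro hx
      obtain ⟨j, ⟨hj, hjA⟩, -⟩ := hAe _ (hQ x hx)
      exact ⟨⟨j, hj⟩, hx, hjA⟩
  · intro i j hij
    rw [Function.onFun, Set.disjoint_left]
    intro x hx hx'
    apply hij
    have huniq := (hAe _ (hQ x hx.1)).unique ⟨i.2, hx.2⟩ ⟨j.2, hx'.2⟩
    exact Fin.ext huniq
  · obtain ⟨gi, hgi, hi⟩ := Sph_Rot_tin h e i
    obtain ⟨gj, hgj, hj⟩ := Sph_Rot_tin h e j
    have key : ∀ (a b : Fin m) (ga gb : Matrix (Fin 3) (Fin 3) ℝ), Sph_SO ga → Sph_SO gb →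
        (∀ v, Sph_T c s l w (tin e (Ri c) (rV c) (hV c) a v) = ga *ᵥ Sph_T c s l w v) →
        (∀ v, Sph_T c s l w (tin e (Ri c) (rV c) (hV c) b v) = gb *ᵥ Sph_T c s l w v) →
        ∀ x ∈ S a, (gbᵀ * ga) *ᵥ x ∈ S b := by
      intro a b ga gb hga hgb ha hb x hx
      refine ⟨?_, ?_⟩
      · rw [Sph_dot (Sph_SO_mul (Sph_SO_tr hgb) hga)]
        exact hx.1
      · have e1 : tin e (Ri c) (rV c) (hV c) b (Sph_I c s l w ((gbᵀ * ga) *ᵥ x)) =
            tin e (Ri c) (rV c) (hV c) a (Sph_I c s l w x) := by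
          apply Sph_inj h
          rw [ha, hb, Sph_TI h, Sph_TI h, Matrix.mulVec_mulVec, ← Matrix.mul_assoc, hgb.1,
            Matrix.one_mul]
        rw [e1]
        exact hx.2
    refine ⟨gjᵀ * gi, Sph_mem.2 (Sph_SO_mul (Sph_SO_tr hgj) hgi), ?_⟩
    ext y
    constructor
    · rintro ⟨x, hx, rfl⟩
      exact key i j gi gj hgi hgj hi hj x hx
    · intro hy
      refine ⟨(giᵀ * gj) *ᵥ y, key j i gj gi hgj hgi hj hi y hy, ?_⟩
      change (gjᵀ * gi) *ᵥ ((giᵀ * gj) *ᵥ y) = y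
      rw [Matrix.mulVec_mulVec, Matrix.mul_assoc, ← Matrix.mul_assoc gi, hgi.1, Matrix.one_mul,
        Sph_SO_tr_mul hgj, Matrix.one_mulVec]

end Pool.Agent.Lib.MP_f406e2_lc_OC
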