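import Pool.Agent.Lib.MP_f406e2_lc_OC.Assemble
import Pool.Agent.Lib.MP_f406e2_lc_OC.Sph

open scoped Matrix

namespace Pool.Agent.Lib.MP_f406e2_lc_OC

theorem final (m : ℕ) (hodd : Odd m) (hcomp : ¬ m.Prime) (h15 : 15 ≤ m) :
    ∃ S : Fin m → Set (Fin 3 → ℝ),
      (∀ i, @MeasurableSet (Fin 3 → ℝ) (borel (Fin 3 → ℝ)) (S i)) ∧
      (⋃ i, S i) = {x : Fin 3 → ℝ | x ⬝ᵥ x = 1} ∧
      Pairwise (Function.onFun Disjoint S) ∧
      ∀ i j, ∃ g ∈ Matrix.specialOrthogonalGroup (Fin 3) ℝ, (fun x => g *ᵥ x) '' S i = S j := by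
  obtain ⟨d, ⟨e, hde⟩, hd1, hdm⟩ := Nat.exists_dvd_of_not_prime (by omega) hcomp
  subst hde
  have hd : Odd d := (Nat.odd_mul.1 hodd).1
  have he : Odd e := (Nat.odd_mul.1 hodd).2
  have hd3 : 3 ≤ d := by
    rcases hd with ⟨k, rfl⟩
    have : k ≠ 0 := fun h => hd1 (by simp [h])
    omega
  have he3 : 3 ≤ e := by
    rcases he with ⟨k, rfl⟩
    have : k ≠ 0 := fun h => hdm (by simp [h])
    omega
  obtain ⟨A, hA, hAe⟩ := assemble (d * e) d e rfl hd he hd3 he3 h15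
  obtain ⟨S, h1, h2, h3, h4⟩ := sph_final (d * e) e (by omega) A hA hAe
  have hB : (inferInstance : MeasurableSpace (Fin 3 → ℝ)) = borel (Fin 3 → ℝ) :=
    BorelSpace.measurable_eq
  refine ⟨S, fun i => ?_, h2, h3, h4⟩
  have := h1 i
  rw [← hB]
  exact this

end Pool.Agent.Lib.MP_f406e2_lc_OC
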