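import Pool.Agent.Lib.MP_f406e2_lc_OC.CDefs

/-! # The case m = 9: definitions -/

namespace Pool.Agent.Lib.MP_f406e2_lc_OC

/-- indices using `h` -/
def uH (j : ℕ) : Prop := j = 3 ∨ j = 4 ∨ j = 6

/-- indices using `r` -/
def uR (j : ℕ) : Prop := j = 1 ∨ j = 3

instance uH_dec (j : ℕ) : Decidable (uH j) := by unfold uH; infer_instance

instance uR_dec (j : ℕ) : Decidable (uR j) := by unfold uR; infer_instance

/-- `t_j⁻¹` for `m = 9`: `k_1 = r`, `k_3 = h r`, `k_4 = k_6 = h`, other `k_j = 1` -/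
noncomputable def tin9 {X : Type*} (Ri r h : X → X) (j : ℕ) (x : X) : X :=
  (if uH j then h else id) ((if uR j then r else id) (Ri^[j] x))

/-- labels seen through `k_j` -/
noncomputable def pick9 {X : Type*} (r : X → X) (a b : X → Prop) (j : ℕ) (y : X) : Prop :=
  (if uH j then b else a) ((if uR j then r else id) y)

/-- children in the exotic tree -/
def ch9 : Ty → List (ℤ × Ty)
  | Ty.pC => [(3, Ty.B), (6, Ty.A)]
  | Ty.pB => [(3, Ty.A), (6, Ty.C)]
  | Ty.pA => []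
  | Ty.A => [(5, Ty.pB), (4, Ty.pC)]
  | Ty.C => [(3, Ty.C), (6, Ty.B), (4, Ty.pC)]
  | Ty.B => [(5, Ty.pB), (3, Ty.C), (6, Ty.B)]

/-- the exotic tree -/
inductive Ent9 (G : NCfg 9) : G.X → Ty → Prop
  | root : Ent9 G (G.r G.N) Ty.pC
  | step : ∀ (x : G.X) (t : Ty) (i : ℤ) (t' : Ty), Ent9 G x t → (i, t') ∈ ch9 t →
      Ent9 G (G.r (G.rot i x)) t'

end Pool.Agent.Lib.MP_f406e2_lc_OC
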