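import Pool.Agent.Lib.MP_f406e2_lc_OC.Sph
import Pool.Agent.Lib.MP_f406e2_lc_OC.NineDefs

/-! # m = 9: from basis coordinates to the standard sphere -/

open scoped Matrix

namespace Pool.Agent.Lib.MP_f406e2_lc_OC

theorem Sph9_Rot_tin {c s l w : ℝ} (h : Sph_Par c s l w) (e j : ℕ) :
    Sph_Rot c s l w (tin9 (Ri c) (rV c) (hV c) j) := by
  have h1 : Sph_Rot c s l w ((Ri c)^[j]) := Sph_Rot_iter (Sph_Rot_Ri h) j
  have h2 : Sph_Rot c s l w (if uR j then rV c else id) := by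
    split_ifs
    · exact Sph_Rot_rV h
    · exact Sph_Rot_id c s l w
  classical
  have h3 : Sph_Rot c s l w (if uH j then hV c else id) := by
    split_ifs
    · exact Sph_Rot_hV h
    · exact Sph_Rot_id c s l w
  have h4 := Sph_Rot_comp h3 (Sph_Rot_comp h2 h1)
  unfold tin9
  convert h4 using 3

theorem Sph9_cont_tin (c : ℝ) (e j : ℕ) : Continuous (tin9 (Ri c) (rV c) (hV c) j) := by
  have c1 : Continuous (Ri c) := by unfold Ri; fun_prop
  have c2 : Continuous (rV c) := by unfold rV; fun_prop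
  have c3 : Continuous (hV c) := by unfold hV; fun_prop
  have h1 : Continuous ((Ri c)^[j]) := c1.iterate j
  have h2 : Continuous (if uR j then rV c else id) := by
    split_ifs
    · exact c2
    · exact continuous_id
  unfold tin9
  split_ifs
  · exact c3.comp (c2.comp h1)
  · exact c3.comp (continuous_id.comp h1)
  · exact continuous_id.comp (c2.comp h1)
  · exact continuous_id.comp (continuous_id.comp h1)

/-- if the tuple of linear isometries of the form `Qs` has an exact cover of the sphere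
`Qs = 2 + c` by a Borel set, then the standard sphere is divided into `m` congruent Borel sets -/
theorem sph_final9 (m e : ℕ) (h3 : 3 ≤ m) (A : Set V3) (hA : MeasurableSet A)
    (hAe : ∀ v : V3, Qs (cc m) v = 2 + cc m →
      ∃! j : ℕ, j < m ∧ tin9 (Ri (cc m)) (rV (cc m)) (hV (cc m)) j v ∈ A) :
    ∃ S : Fin m → Set (Fin 3 → ℝ),
      (∀ i, MeasurableSet (S i)) ∧
      (⋃ i, S i) = {x : Fin 3 → ℝ | x ⬝ᵥ x = 1} ∧
      Pairwise (Function.onFun Disjoint S) ∧
      ∀ i j, ∃ g ∈ Matrix.specialOrthogonalGroup (Fin 3) ℝ, (fun x => g *ᵥ x) '' S i = S j := by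
  obtain ⟨s, l, w, h⟩ := Sph_par m h3
  set c := cc m with hc
  have hQ : ∀ x : Fin 3 → ℝ, x ⬝ᵥ x = 1 → Qs c (Sph_I c s l w x) = 2 + c := by
    intro x hx
    rw [Sph_norm h, Sph_TI h, hx, mul_one]
  let S : Fin m → Set (Fin 3 → ℝ) := fun j =>
    {x | x ⬝ᵥ x = 1 ∧ tin9 (Ri c) (rV c) (hV c) j (Sph_I c s l w x) ∈ A}
  refine ⟨S, fun i => ?_, ?_, ?_, fun i j => ?_⟩
  · refine MeasurableSet.inter ?_ ?_
    · apply IsClosed.measurableSet
      apply isClosed_eq
      · unfold dotProduct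
        fun_prop
      · exact continuous_const
    · exact ((Sph9_cont_tin c e i).comp (Sph_cont_I c s l w)).measurable hA
  · ext x
    rw [Set.mem_iUnion]
    constructor
    · rintro ⟨i, hi⟩
      exact hi.1
    · intro hx
      obtain ⟨j, ⟨hj, hjA⟩, -⟩ := hAe _ (hQ x hx)
      exact ⟨⟨j, hj⟩, hx, hjA⟩
  · intro i j hij
    rw [Function.onFun, Set.disjoint_left]
    intro x hx hx'
    apply hij
    have huniq := (hAe _ (hQ x hx.1)).unique ⟨i.2, hx.2⟩ ⟨j.2, hx'.2⟩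
    exact Fin.ext huniq
  · obtain ⟨gi, hgi, hi⟩ := Sph9_Rot_tin h e i
    obtain ⟨gj, hgj, hj⟩ := Sph9_Rot_tin h e j
    have key : ∀ (a b : Fin m) (ga gb : Matrix (Fin 3) (Fin 3) ℝ), Sph_SO ga → Sph_SO gb →
        (∀ v, Sph_T c s l w (tin9 (Ri c) (rV c) (hV c) a v) = ga *ᵥ Sph_T c s l w v) →
        (∀ v, Sph_T c s l w (tin9 (Ri c) (rV c) (hV c) b v) = gb *ᵥ Sph_T c s l w v) →
        ∀ x ∈ S a, (gbᵀ * ga) *ᵥ x ∈ S b := by
      intro a b ga gb hga hgb ha hb x hx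
      refine ⟨?_, ?_⟩
      · rw [Sph_dot (Sph_SO_mul (Sph_SO_tr hgb) hga)]
        exact hx.1
      · have e1 : tin9 (Ri c) (rV c) (hV c) b (Sph_I c s l w ((gbᵀ * ga) *ᵥ x)) =
            tin9 (Ri c) (rV c) (hV c) a (Sph_I c s l w x) := by
          apply Sph_inj h
          rw [ha, hb, Sph_TI h, Sph_TI h, Matrix.mulVec_mulVec, ← Matrix.mul_assoc, hgb.1,
            Matrix.one_mul]
        rw [e1]
        exact hx.2
    refine ⟨gjᵀ * gi, Sph_mem.2 (Sph_SO_mul (Sph_SO_tr hgj) hgi), ?_⟩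
    ext y
    constructor
    · rintro ⟨x, hx, rfl⟩
      exact key i j gi gj hgi hgj hi hj x hx
    · intro hy
      refine ⟨(giᵀ * gj) *ᵥ y, key j i gj gi hgj hgi hj hi y hy, ?_⟩
      change (gjᵀ * gi) *ᵥ ((giᵀ * gj) *ᵥ y) = y
      rw [Matrix.mulVec_mulVec, Matrix.mul_assoc, ← Matrix.mul_assoc gi, hgi.1, Matrix.one_mul,
        Sph_SO_tr_mul hgj, Matrix.one_mulVec]

end Pool.Agent.Lib.MP_f406e2_lc_OC
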