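import Pool.Agent.Lib.MP_f406e2_lc_OC.Final
import Pool.Agent.Lib.MP_f406e2_lc_OC.Asm9
import Pool.Agent.Lib.MP_f406e2_lc_OC.Sph9

open scoped Matrix

namespace Pool.Agent.Lib.MP_f406e2_lc_OC

theorem final_all (m : ℕ) (hodd : Odd m) (hcomp : ¬ m.Prime) (h1 : 1 < m) :
    ∃ S : Fin m → Set (Fin 3 → ℝ),
      (∀ i, @MeasurableSet (Fin 3 → ℝ) (borel (Fin 3 → ℝ)) (S i)) ∧
      (⋃ i, S i) = {x : Fin 3 → ℝ | x ⬝ᵥ x = 1} ∧
      Pairwise (Function.onFun Disjoint S) ∧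
      ∀ i j, ∃ g ∈ Matrix.specialOrthogonalGroup (Fin 3) ℝ, (fun x => g *ᵥ x) '' S i = S j := by
  by_cases h15 : 15 ≤ m
  · exact final m hodd hcomp h15
  have h9 : m = 9 := by
    push Not at h15
    obtain ⟨k, hk⟩ := hodd
    have hk' : k = 1 ∨ k = 2 ∨ k = 3 ∨ k = 4 ∨ k = 5 ∨ k = 6 := by omega
    rcases hk' with rfl | rfl | rfl | rfl | rfl | rfl
    · exact absurd (by rw [hk]; norm_num) hcomp
    · exact absurd (by rw [hk]; norm_num) hcomp
    · exact absurd (by rw [hk]; norm_num) hcomp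
    · exact hk
    · exact absurd (by rw [hk]; norm_num) hcomp
    · exact absurd (by rw [hk]; norm_num) hcomp
  obtain ⟨A, hA, hAe⟩ := assemble9 m h9
  obtain ⟨S, k1, k2, k3, k4⟩ := sph_final9 m 0 (by omega) A hA hAe
  have hB : (inferInstance : MeasurableSpace (Fin 3 → ℝ)) = borel (Fin 3 → ℝ) :=
    BorelSpace.measurable_eq
  refine ⟨S, fun i => ?_, k2, k3, k4⟩
  have := k1 i
  rw [← hB]
  exact this

end Pool.Agent.Lib.MP_f406e2_lc_OC
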