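import Pool.Agent.Lib.MP_f406e2_lc_OC.Defs

/-! # The Galois conjugation `2 cos (π / m) ↦ - 2 cos (2 π / m)` -/

namespace Pool.Agent.Lib.MP_f406e2_lc_OC

/-- the polynomial `X ^ n * P (X + 1 / X)` -/
private noncomputable def Gal_Q (P : Polynomial ℤ) : Polynomial ℤ :=
  ∑ k ∈ Finset.range (P.natDegree + 1),
    Polynomial.C (P.coeff k) * Polynomial.X ^ (P.natDegree - k) * (Polynomial.X ^ 2 + 1) ^ k

private theorem Gal_aeval (P : Polynomial ℤ) {z : ℂ} (hz : z ≠ 0) :
    Polynomial.aeval z (Gal_Q P) = z ^ P.natDegree * Polynomial.aeval (z + z⁻¹) P := by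
  unfold Gal_Q
  rw [map_sum, Polynomial.aeval_eq_sum_range (p := P), Finset.mul_sum]
  refine Finset.sum_congr rfl fun k hk => ?_
  rw [Finset.mem_range] at hk
  have h1 : z ^ 2 + 1 = z * (z + z⁻¹) := by
    rw [mul_add, mul_inv_cancel₀ hz, pow_two]
  have h2 : z ^ P.natDegree = z ^ (P.natDegree - k) * z ^ k := by
    rw [← pow_add]
    congr 1
    omega
  simp only [map_mul, map_pow, map_add, Polynomial.aeval_X, Polynomial.aeval_C, map_one]
  rw [h1, mul_pow, h2, zsmul_eq_mul]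
  simp only [algebraMap_int_eq, eq_intCast]
  ring

private theorem Gal_cos (m : ℕ) (k : ℕ) :
    Complex.exp (2 * Real.pi * Complex.I / ((2 * m : ℕ) : ℂ)) ^ k +
      (Complex.exp (2 * Real.pi * Complex.I / ((2 * m : ℕ) : ℂ)) ^ k)⁻¹ =
      ((2 * Real.cos (k * Real.pi / m) : ℝ) : ℂ) := by
  rw [← Complex.exp_nat_mul, ← Complex.exp_neg]
  push_cast
  rw [Complex.two_cos]
  have h1 : (k : ℂ) * (2 * Real.pi * Complex.I / (2 * (m : ℂ))) =
      (k : ℂ) * Real.pi / m * Complex.I := by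
    rw [show 2 * (Real.pi : ℂ) * Complex.I = 2 * (Real.pi * Complex.I) by ring,
      mul_div_mul_left _ _ (two_ne_zero)]
    ring
  rw [h1]
  congr 2
  ring

private theorem Gal_root (m : ℕ) (P : Polynomial ℤ) (k : ℕ) :
    Polynomial.aeval (Complex.exp (2 * Real.pi * Complex.I / ((2 * m : ℕ) : ℂ)) ^ k)
      (Gal_Q P) = 0 ↔ Polynomial.aeval (2 * Real.cos (k * Real.pi / m)) P = 0 := by
  have hz : Complex.exp (2 * Real.pi * Complex.I / ((2 * m : ℕ) : ℂ)) ^ k ≠ 0 :=
    pow_ne_zero _ (Complex.exp_ne_zero _)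
  rw [Gal_aeval P hz, Gal_cos, mul_eq_zero, or_iff_right (pow_ne_zero _ hz)]
  have h1 : Polynomial.aeval ((2 * Real.cos (k * Real.pi / m) : ℝ) : ℂ) P =
      ((Polynomial.aeval (2 * Real.cos (k * Real.pi / m)) P : ℝ) : ℂ) := by
    have h2 := Polynomial.aeval_algebraMap_apply ℂ (2 * Real.cos (k * Real.pi / m)) P
    simpa using h2
  rw [h1, Complex.ofReal_eq_zero]

theorem gal (m : ℕ) (hm : Odd m) (h3 : 3 ≤ m) (P : Polynomial ℤ)
    (h : Polynomial.aeval (cc m) P = 0) : Polynomial.aeval (cg m) P = 0 := by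
  set z := Complex.exp (2 * Real.pi * Complex.I / ((2 * m : ℕ) : ℂ)) with hz
  have hprim : IsPrimitiveRoot z (2 * m) := Complex.isPrimitiveRoot_exp (2 * m) (by omega)
  have hcop : Nat.Coprime (m - 2) (2 * m) := by
    obtain ⟨j, rfl⟩ := hm
    have h2 : Nat.Coprime (2 * j + 1 - 2) 2 := by
      rw [Nat.coprime_two_right]
      exact ⟨j - 1, by omega⟩
    refine Nat.Coprime.mul_right h2 ?_
    have h4 : 2 * j + 1 = 2 + (2 * j + 1 - 2) := by omega
    have h5 : Nat.Coprime (2 * j + 1 - 2) (2 + (2 * j + 1 - 2)) := by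
      rw [Nat.coprime_add_self_right]
      exact h2
    rwa [← h4] at h5
  have hmin := hprim.minpoly_eq_pow_coprime hcop
  have h1 : Polynomial.aeval z (Gal_Q P) = 0 := by
    have h2 := (Gal_root m P 1).2 (by
      unfold cc at h
      simpa using h)
    rwa [pow_one] at h2
  have hint : IsIntegral ℤ z := hprim.isIntegral (by omega)
  have hdvd : minpoly ℤ z ∣ Gal_Q P := minpoly.isIntegrallyClosed_dvd hint h1
  have h2 : Polynomial.aeval (z ^ (m - 2)) (Gal_Q P) = 0 := by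
    rw [hmin] at hdvd
    obtain ⟨R, hR⟩ := hdvd
    rw [hR, map_mul, minpoly.aeval, zero_mul]
  have h4 := (Gal_root m P (m - 2)).1 h2
  have h5 : 2 * Real.cos (((m - 2 : ℕ) : ℝ) * Real.pi / m) = cg m := by
    unfold cg
    have hm0 : (m : ℝ) ≠ 0 := by
      have : 0 < m := by omega
      positivity
    have h6 : ((m - 2 : ℕ) : ℝ) * Real.pi / m = Real.pi - 2 * Real.pi / m := by
      rw [Nat.cast_sub (by omega)]
      push_cast
      field_simp
    rw [h6, Real.cos_pi_sub]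
    ring
  rwa [h5] at h4

end Pool.Agent.Lib.MP_f406e2_lc_OC
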