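import Pool.Agent.Lib.MP_f406e2_lc_OC.NCov
import Pool.Agent.Lib.MP_f406e2_lc_OC.Key

/-! # The exact cover of the hyperboloid -/

open Complex ComplexConjugate

namespace Pool.Agent.Lib.MP_f406e2_lc_OC

theorem HypCov_sh_lt_ch (m : ℕ) (hm : 7 ≤ m) : 0 < Ch m ∧ Sh m < Ch m := by
  have h1 := Sh_pos m hm
  have h2 := ta_pos m hm
  have h3 := Ch_sq m hm
  have h4 : 0 < 1 - 4 * sa m ^ 2 := by
    have : 0 < Real.sqrt (1 - 4 * sa m ^ 2) := h2
    exact Real.sqrt_pos.1 this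
  have h5 : 0 < 2 * sa m ^ 2 := by
    by_contra hc
    have h0 : 2 * sa m ^ 2 = 0 := le_antisymm (not_lt.1 hc) (by positivity)
    have : Sh m = 0 := by
      unfold Sh
      rw [h0, div_zero]
    linarith
  have h6 : 0 < Ch m := by
    unfold Ch
    apply div_pos _ h5
    linarith
  refine ⟨h6, ?_⟩
  nlinarith

theorem HypCov_rg_pos (m : ℕ) (hm : 7 ≤ m) (u : ℂ × ℝ) (hu : Mk u = -1) (hZ : 0 < u.2) :
    0 < (rg m u).2 := by
  obtain ⟨hc, hsc⟩ := HypCov_sh_lt_ch m hm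
  have hs := Sh_pos m hm
  show 0 < u.2 * Ch m - u.1.re * Sh m
  have h1 : u.1.re ^ 2 < u.2 ^ 2 := by
    have h2 : Complex.normSq u.1 - u.2 ^ 2 = -1 := hu
    rw [Complex.normSq_apply] at h2
    nlinarith [mul_self_nonneg u.1.im]
  have h3 : |u.1.re| < u.2 := abs_lt_of_sq_lt_sq h1 hZ.le
  have h4 : u.1.re ≤ |u.1.re| := le_abs_self _
  have h5 : u.1.re * Sh m ≤ u.2 * Sh m := mul_le_mul_of_nonneg_right (by linarith) hs.le
  have h6 : u.2 * Sh m < u.2 * Ch m := mul_lt_mul_of_pos_left hsc hZ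
  linarith

/-- the upper sheet -/
def HypCov_X : Type := {u : ℂ × ℝ // Mk u = -1 ∧ 0 < u.2}

theorem HypCov_om_ne (m : ℕ) (i : ℤ) : om m ^ i ≠ 0 :=
  zpow_ne_zero _ (Complex.exp_ne_zero _)

theorem HypCov_eq_N (u : ℂ × ℝ) (hu : Mk u = -1) (hZ : 0 < u.2) (h0 : u.1 = 0) :
    u = (0, 1) := by
  refine Prod.ext h0 ?_
  have h2 : Complex.normSq u.1 - u.2 ^ 2 = -1 := hu
  rw [h0, map_zero] at h2
  show u.2 = 1
  nlinarith

theorem HypCov_N_mem : Mk ((0, 1) : ℂ × ℝ) = -1 ∧ (0 : ℝ) < ((0, 1) : ℂ × ℝ).2 := by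
  constructor
  · show Complex.normSq 0 - (1 : ℝ) ^ 2 = -1
    rw [map_zero]
    norm_num
  · norm_num

theorem HypCov_rN (m : ℕ) (hm : 7 ≤ m) : rg m (0, 1) ∈ Fs m := by
  have hs := Sh_pos m hm
  have h1 : (rg m (0, 1)).1 = ((Sh m : ℝ) : ℂ) := by
    show (⟨1 * Sh m - (0 : ℂ).re * Ch m, -(0 : ℂ).im⟩ : ℂ) = _
    refine Complex.ext ?_ ?_
    · simp
    · simp
  show (rg m (0, 1)).1 ≠ 0 ∧ _
  rw [Set.mem_Ioc, h1, Complex.arg_ofReal_of_nonneg hs.le]
  have hp := Real.pi_pos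
  have h7 : (7 : ℝ) ≤ m := by exact_mod_cast hm
  have h2 : 0 < Real.pi / m := by positivity
  refine ⟨?_, by linarith, h2.le⟩
  exact_mod_cast hs.ne'

/-- the configuration on the upper sheet -/
noncomputable def HypCov_G (m : ℕ) (hm : 7 ≤ m) : NCfg m where
  X := HypCov_X
  rot i x := ⟨rotg m i x.1, by rw [Mk_rotg]; exact x.2.1, x.2.2⟩
  r x := ⟨rg m x.1, by rw [Mk_rg m hm]; exact x.2.1, HypCov_rg_pos m hm x.1 x.2.1 x.2.2⟩
  N := ⟨(0, 1), HypCov_N_mem⟩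
  F := {x | x.1 ∈ Fs m}
  ht x := x.1.2
  rot_zero x := Subtype.ext (rotg_zero m x.1)
  rot_add i j x := Subtype.ext (rotg_add m i j x.1)
  rot_m x := Subtype.ext (rotg_m m (by omega) x.1)
  rot_N i := Subtype.ext (by
    show (om m ^ i * (0 : ℂ), (1 : ℝ)) = (0, 1)
    rw [mul_zero])
  r_r x := Subtype.ext (rg_rg m hm x.1)
  N_notin h := h.1 rfl
  rN_mem := HypCov_rN m hm
  F_ex x hx := by
    have h1 : x.1.1 ≠ 0 := fun h0 => hx (Subtype.ext (HypCov_eq_N x.1 x.2.1 x.2.2 h0))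
    obtain ⟨i, hi⟩ := Fs_ex m (by omega) x.1 h1
    exact ⟨i, hi⟩
  F_uniq x hx i hi := Fs_uniq m (by omega) x.1 hx i hi
  key x hx i h3 h3' := key_time m hm x.1 x.2.1 x.2.2 hx i h3 h3'

/-- the set -/
def HypCov_A (α β : HypCov_X → Prop) : Set (ℂ × ℝ) :=
  {u | (∃ h : Mk u = -1 ∧ 0 < u.2, α ⟨u, h⟩) ∨ (∃ h : Mk (hg u) = -1 ∧ 0 < (hg u).2, β ⟨hg u, h⟩)}

theorem HypCov_mem_A (α β : HypCov_X → Prop) (x : HypCov_X) : x.1 ∈ HypCov_A α β ↔ α x := by
  constructor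
  · rintro (⟨h, ha⟩ | ⟨h, hb⟩)
    · exact ha
    · exfalso
      have h1 : 0 < -x.1.2 := h.2
      have h2 := x.2.2
      linarith
  · intro h
    exact Or.inl ⟨x.2, h⟩

theorem HypCov_hg_mem_A (α β : HypCov_X → Prop) (x : HypCov_X) :
    hg x.1 ∈ HypCov_A α β ↔ β x := by
  have key : hg (hg x.1) = x.1 := hg_hg x.1
  constructor
  · rintro (⟨h, ha⟩ | ⟨h, hb⟩)
    · exfalso
      have h1 : 0 < -x.1.2 := h.2
      have h2 := x.2.2
      linarith
    · have h3 : (⟨hg (hg x.1), h⟩ : HypCov_X) = x := Subtype.ext key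
      rwa [h3] at hb
  · intro h
    right
    have h0 : Mk (hg (hg x.1)) = -1 ∧ 0 < (hg (hg x.1)).2 := by
      rw [key]
      exact x.2
    refine ⟨h0, ?_⟩
    have h3 : (⟨hg (hg x.1), h0⟩ : HypCov_X) = x := Subtype.ext key
    rw [h3]
    exact h

theorem hyp_cover (m d e : ℕ) (hm : m = d * e) (hd : Odd d) (he : Odd e)
    (hd3 : 3 ≤ d) (he3 : 3 ≤ e) (h15 : 15 ≤ m) :
    ∃ A : Set (ℂ × ℝ), ∀ u : ℂ × ℝ, Mk u = -1 →
      ∃! j : ℕ, j < m ∧ tin e (rotg m (-2)) (rg m) hg j u ∈ A := by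
  classical
  have hm7 : 7 ≤ m := by omega
  obtain ⟨α, β, hab⟩ := ncov (HypCov_G m hm7) d e hm hd he hd3 he3 h15
  refine ⟨HypCov_A α β, fun u hu => ?_⟩
  have hne : u.2 ≠ 0 := by
    intro h0
    have h2 : Complex.normSq u.1 - u.2 ^ 2 = -1 := hu
    rw [h0] at h2
    have := Complex.normSq_nonneg u.1
    nlinarith
  have hext : ∀ p q : ℕ → Prop, (∀ j, p j ↔ q j) → (∃! j : ℕ, j < m ∧ q j) →
      ∃! j : ℕ, j < m ∧ p j := by
    intro p q hpq h
    have : p = q := funext fun j => propext (hpq j)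
    rw [this]
    exact h
  rcases lt_or_gt_of_ne hne with hneg | hpos
  · -- lower sheet
    let x : HypCov_X := ⟨hg u, by rw [Mk_hg]; exact hu, by show 0 < -u.2; linarith⟩
    refine hext _ _ (fun j => ?_) (hab x).2
    have hux : u = hg x.1 := (hg_hg u).symm
    have h1 : (rotg m (-2))^[j] u = hg ((HypCov_G m hm7).rot (2 * j) x).1 := by
      rw [rotg_iter, hux, rotg_hg]
      show hg (rotg m (-(-2 * (j : ℤ))) x.1) = hg (rotg m (2 * j) x.1)
      congr 2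
      ring
    have h2 : (if j = 0 ∨ j = 2 then rg m else id) ((rotg m (-2))^[j] u) =
        hg ((if j = 0 ∨ j = 2 then (HypCov_G m hm7).r else id)
          ((HypCov_G m hm7).rot (2 * j) x)).1 := by
      rw [h1]
      split_ifs
      · rw [← hg_rg]
        rfl
      · rfl
    unfold tin pick
    rw [h2]
    by_cases hj : j = 0 ∨ isH e j
    · rw [if_pos hj, if_pos hj, hg_hg]
      exact HypCov_mem_A α β _
    · rw [if_neg hj, if_neg hj]
      exact HypCov_hg_mem_A α β _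
  · -- upper sheet
    let x : HypCov_X := ⟨u, hu, hpos⟩
    refine hext _ _ (fun j => ?_) (hab x).1
    have h1 : (rotg m (-2))^[j] u = ((HypCov_G m hm7).rot (-(2 * j)) x).1 := by
      rw [rotg_iter]
      show rotg m (-2 * (j : ℤ)) u = rotg m (-(2 * j)) u
      have h3 : (-2 * (j : ℤ)) = -(2 * j) := by ring
      rw [h3]
    have h2 : (if j = 0 ∨ j = 2 then rg m else id) ((rotg m (-2))^[j] u) =
        ((if j = 0 ∨ j = 2 then (HypCov_G m hm7).r else id)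
          ((HypCov_G m hm7).rot (-(2 * j)) x)).1 := by
      rw [h1]
      split_ifs
      · rfl
      · rfl
    unfold tin pick
    rw [h2]
    by_cases hj : j = 0 ∨ isH e j
    · rw [if_pos hj, if_pos hj]
      exact HypCov_hg_mem_A α β _
    · rw [if_neg hj, if_neg hj]
      exact HypCov_mem_A α β _

end Pool.Agent.Lib.MP_f406e2_lc_OC
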