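import Pool.Agent.Lib.MP_f406e2_lc_OC.Defs

/-! # The identity in `ℤ / m` satisfied by the tuple -/

namespace Pool.Agent.Lib.MP_f406e2_lc_OC

theorem Tuple_isH (e q r : ℕ) (he3 : 3 ≤ e) (hr : r < e) :
    isH e (e * q + r) ↔ (r = 0 ∨ r = 2) ∧ Odd q := by
  have he : 0 < e := by omega
  constructor
  · rintro (⟨h1, h2⟩ | ⟨h1, h2, h3⟩)
    · have h4 : r = 0 := by
        have := (Nat.dvd_add_right (Dvd.intro q rfl)).1 h1
        exact Nat.eq_zero_of_dvd_of_lt this hr
      rw [h4, add_zero, Nat.mul_div_cancel_left q he] at h2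
      exact ⟨Or.inl h4, h2⟩
    · obtain ⟨t, ht⟩ := h2
      rw [ht, Nat.mul_div_cancel_left t he] at h3
      have h4 : e * q + r = e * t + 2 := by omega
      have h5 : (e * q + r) % e = (e * t + 2) % e := by rw [h4]
      rw [Nat.mul_add_mod, Nat.mul_add_mod, Nat.mod_eq_of_lt hr,
        Nat.mod_eq_of_lt (show 2 < e by omega)] at h5
      have h6 : e * q = e * t := by omega
      have h7 : q = t := Nat.eq_of_mul_eq_mul_left he h6
      exact ⟨Or.inr h5, h7 ▸ h3⟩
  · rintro ⟨h1 | h1, h2⟩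
    · left
      rw [h1, add_zero, Nat.mul_div_cancel_left q he]
      exact ⟨Dvd.intro q rfl, h2⟩
    · right
      rw [h1]
      have h3 : e * q + 2 - 2 = e * q := by omega
      rw [h3, Nat.mul_div_cancel_left q he]
      exact ⟨by omega, Dvd.intro q rfl, h2⟩

theorem isH_zero (e : ℕ) (he3 : 3 ≤ e) : ¬ isH e 0 := by
  have h := Tuple_isH e 0 0 he3 (by omega)
  rw [mul_zero, zero_add] at h
  rw [h]
  rintro ⟨-, h1⟩
  exact Nat.not_odd_zero h1

theorem isH_two (e : ℕ) (he3 : 3 ≤ e) : ¬ isH e 2 := by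
  have h := Tuple_isH e 0 2 he3 (by omega)
  rw [mul_zero, zero_add] at h
  rw [h]
  rintro ⟨-, h1⟩
  exact Nat.not_odd_zero h1

theorem tuple_one (m d e : ℕ) (hm : m = d * e) (hd : Odd d) (he : Odd e) (hd3 : 3 ≤ d)
    (he3 : 3 ≤ e) (a : ℤ) :
    ∃! j : ℕ, j < m ∧
      ((j ≠ 0 ∧ j ≠ 2 ∧ ¬ isH e j ∧ (m : ℤ) ∣ a - j) ∨
        (isH e j ∧ (m : ℤ) ∣ a - 2 * e - j) ∨
        (j = 2 ∧ (m : ℤ) ∣ a - 2 - e) ∨ (j = 0 ∧ (m : ℤ) ∣ a - e)) := by
  have he0 : 0 < e := by omega
  have hme : 3 * e ≤ m := by rw [hm]; exact Nat.mul_le_mul_right e hd3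
  have hm0 : 0 < m := by omega
  have hmz : (0 : ℤ) < m := by exact_mod_cast hm0
  obtain ⟨a', ha', k, hk⟩ : ∃ a' : ℕ, a' < m ∧ ∃ k : ℤ, a = a' + m * k := by
    refine ⟨(a % m).toNat, ?_, a / m, ?_⟩
    · have h1 := Int.emod_lt_of_pos a hmz
      have h2 := Int.emod_nonneg a hmz.ne'
      omega
    · have h2 := Int.emod_nonneg a hmz.ne'
      rw [Int.toNat_of_nonneg h2, Int.emod_add_mul_ediv]
  have hdiv : ∀ x : ℤ, ((m : ℤ) ∣ a - x ↔ (m : ℤ) ∣ a' - x) := by
    intro x
    have : a - x = (a' - x) + m * k := by rw [hk]; ring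
    rw [this]
    exact (Int.dvd_add_left (Dvd.intro k rfl))
  -- small multiples of `m`
  have hsm : ∀ x : ℤ, -m < x → x < m → ((m : ℤ) ∣ x ↔ x = 0) := by
    intro x h1 h2
    constructor
    · intro h
      exact Int.eq_zero_of_abs_lt_dvd h (abs_lt.2 ⟨h1, h2⟩)
    · rintro rfl
      exact dvd_zero _
  have hsm2 : ∀ x : ℤ, -(2 * m) < x → x < m → ((m : ℤ) ∣ x ↔ x = 0 ∨ x = -m) := by
    intro x h1 h2
    constructor
    · intro h
      by_cases h3 : -m < x
      · exact Or.inl ((hsm x h3 h2).1 h)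
      · right
        have h4 : (m : ℤ) ∣ x + m := (Int.dvd_add_left (dvd_refl _)).2 h
        have h5 := (hsm (x + m) (by linarith) (by linarith)).1 h4
        linarith
    · rintro (rfl | rfl)
      · exact dvd_zero _
      · exact (dvd_neg).2 (dvd_refl _)
  have h1 : ∀ j : ℕ, j < m → ((m : ℤ) ∣ a - j ↔ j = a') := by
    intro j hj
    rw [hdiv, hsm _ (by omega) (by omega)]
    omega
  have h2 : ∀ j : ℕ, j < m → ((m : ℤ) ∣ a - 2 * e - j ↔
      (j + 2 * e = a' ∨ j + 2 * e = a' + m)) := by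
    intro j hj
    rw [sub_sub, hdiv, hsm2 _ (by omega) (by omega)]
    omega
  have h3 : ((m : ℤ) ∣ a - 2 - e ↔ a' = e + 2) := by
    rw [sub_sub, hdiv, hsm _ (by omega) (by omega)]
    omega
  have h4 : ((m : ℤ) ∣ a - e ↔ a' = e) := by
    rw [hdiv, hsm _ (by omega) (by omega)]
    omega
  -- quotient and remainder
  obtain ⟨q, r, hr, hqr⟩ : ∃ q r : ℕ, r < e ∧ a' = e * q + r :=
    ⟨a' / e, a' % e, Nat.mod_lt _ he0, (Nat.div_add_mod a' e).symm⟩
  have hH := Tuple_isH e q r he3 hr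
  rw [← hqr] at hH
  obtain ⟨d', hd'⟩ : ∃ d', d = d' + 2 := ⟨d - 2, by omega⟩
  have hdo : Odd d' := by
    obtain ⟨t, ht⟩ := hd
    exact ⟨t - 1, by omega⟩
  have hm' : m = e * d' + 2 * e := by rw [hm, hd']; ring
  -- the second alternative
  have hB1 : ∀ y : ℕ, isH e y → y + 2 * e = a' → (r = 0 ∨ r = 2) ∧ Odd q ∧ 2 ≤ q := by
    intro y hy h5
    have hq2 : 2 ≤ q := by
      by_contra hcon
      have h6 : e * q ≤ e * 1 := Nat.mul_le_mul_left e (by omega)
      omega
    obtain ⟨q', rfl⟩ : ∃ q', q = q' + 2 := ⟨q - 2, by omega⟩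
    have h6 : y = e * q' + r := by
      rw [hqr] at h5
      have : e * (q' + 2) = e * q' + 2 * e := by ring
      omega
    rw [h6, Tuple_isH e q' r he3 hr] at hy
    refine ⟨hy.1, ?_, hq2⟩
    obtain ⟨t, ht⟩ := hy.2
    exact ⟨t + 1, by omega⟩
  have hB2 : ∀ y : ℕ, y < m → isH e y → y + 2 * e = a' + m → (r = 0 ∨ r = 2) ∧ q = 0 := by
    intro y hym hy h5
    have h6 : y = e * (q + d') + r := by
      have : e * (q + d') = e * q + e * d' := by ring
      omega
    have hq2 : q < 2 := by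
      by_contra hcon
      have h7 : e * 2 ≤ e * q := Nat.mul_le_mul_left e (by omega)
      have : e * (q + d') = e * q + e * d' := by ring
      omega
    rw [h6, Tuple_isH e (q + d') r he3 hr] at hy
    refine ⟨hy.1, ?_⟩
    obtain ⟨t, ht⟩ := hy.2
    obtain ⟨s, hs⟩ := hdo
    omega
  by_cases hrr : r = 0 ∨ r = 2
  · rcases Nat.even_or_odd q with hq | hq
    · by_cases hq0 : q = 0
      · -- `a` is `0` or `2`
        have ha'r : a' = r := by rw [hqr, hq0, mul_zero, zero_add]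
        have hj : isH e (e * d' + r) := (Tuple_isH e d' r he3 hr).2 ⟨hrr, hdo⟩
        have hjm : e * d' + r < m := by omega
        refine ⟨e * d' + r, ⟨hjm, Or.inr (Or.inl ⟨hj, (h2 _ hjm).2 (Or.inr (by omega))⟩)⟩, ?_⟩
        rintro y ⟨hym, ⟨y0, y2, -, hy⟩ | ⟨hyH, hy⟩ | ⟨-, hy⟩ | ⟨-, hy⟩⟩
        · rw [h1 y hym] at hy
          omega
        · rw [h2 y hym] at hy
          omega
        · rw [h3] at hy
          omega
        · rw [h4] at hy
          omega
      · -- `a` itself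
        have hqo : ¬ Odd q := Nat.not_odd_iff_even.2 hq
        have hnH : ¬ isH e a' := by
          rw [hH]
          exact fun h => hqo h.2
        have heq : e * 1 ≤ e * q := Nat.mul_le_mul_left e (by omega)
        have hq2 : q ≠ 1 := by
          rintro rfl
          exact hqo odd_one
        have heq2 : e * 2 ≤ e * q := Nat.mul_le_mul_left e (by omega)
        refine ⟨a', ⟨ha', Or.inl ⟨by omega, by omega, hnH, (h1 a' ha').2 rfl⟩⟩, ?_⟩
        rintro y ⟨hym, ⟨y0, y2, -, hy⟩ | ⟨hyH, hy⟩ | ⟨-, hy⟩ | ⟨-, hy⟩⟩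
        · exact (h1 y hym).1 hy
        · rw [h2 y hym] at hy
          rcases hy with hy | hy
          · exact absurd (hB1 y hyH hy).2.1 hqo
          · exact absurd (hB2 y hym hyH hy).2 hq0
        · rw [h3] at hy
          omega
        · rw [h4] at hy
          omega
    · by_cases hq1 : q = 1
      · -- `a` is `e` or `e + 2`
        have ha'r : a' = e + r := by rw [hqr, hq1, mul_one]
        have hH' : isH e a' := hH.2 ⟨hrr, hq⟩
        refine ⟨r, ⟨by omega, ?_⟩, ?_⟩
        · rcases hrr with h0 | h0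
          · exact Or.inr (Or.inr (Or.inr ⟨h0, h4.2 (by omega)⟩))
          · exact Or.inr (Or.inr (Or.inl ⟨h0, h3.2 (by omega)⟩))
        · rintro y ⟨hym, ⟨y0, y2, hyn, hy⟩ | ⟨hyH, hy⟩ | ⟨hy2, hy⟩ | ⟨hy0, hy⟩⟩
          · rw [h1 y hym] at hy
            rw [hy] at hyn
            exact absurd hH' hyn
          · rw [h2 y hym] at hy
            rcases hy with hy | hy
            · have := (hB1 y hyH hy).2.2
              omega
            · have := (hB2 y hym hyH hy).2
              omega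
          · rw [h3] at hy
            omega
          · rw [h4] at hy
            omega
      · -- `a - 2 e`
        have hq3 : 3 ≤ q := by
          obtain ⟨t, ht⟩ := hq
          omega
        obtain ⟨q', rfl⟩ : ∃ q', q = q' + 2 := ⟨q - 2, by omega⟩
        have hq'o : Odd q' := by
          obtain ⟨t, ht⟩ := hq
          exact ⟨t - 1, by omega⟩
        have hex : e * (q' + 2) = e * q' + 2 * e := by ring
        have hj : isH e (e * q' + r) := (Tuple_isH e q' r he3 hr).2 ⟨hrr, hq'o⟩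
        have hH' : isH e a' := hH.2 ⟨hrr, hq⟩
        have hjm : e * q' + r < m := by omega
        have heq3 : e * 1 ≤ e * q' := Nat.mul_le_mul_left e (by omega)
        refine ⟨e * q' + r, ⟨hjm, Or.inr (Or.inl ⟨hj, (h2 _ hjm).2 (Or.inl (by omega))⟩)⟩, ?_⟩
        rintro y ⟨hym, ⟨y0, y2, hyn, hy⟩ | ⟨hyH, hy⟩ | ⟨hy2, hy⟩ | ⟨hy0, hy⟩⟩
        · rw [h1 y hym] at hy
          rw [hy] at hyn
          exact absurd hH' hyn
        · rw [h2 y hym] at hy
          omega
        · rw [h3] at hy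
          omega
        · rw [h4] at hy
          omega
  · -- `a` itself
    have hnH : ¬ isH e a' := by
      rw [hH]
      exact fun h => hrr h.1
    have ha0 : a' ≠ 0 := by
      intro h
      rw [hqr] at h
      exact hrr (Or.inl (by omega))
    have ha2 : a' ≠ 2 := by
      intro h
      rw [hqr] at h
      have hq0 : q = 0 := by
        by_contra hcon
        have : e * 1 ≤ e * q := Nat.mul_le_mul_left e (by omega)
        omega
      rw [hq0, mul_zero, zero_add] at h
      exact hrr (Or.inr h)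
    have hae : a' ≠ e := by
      intro h
      apply hnH
      have h5 := (Tuple_isH e 1 0 he3 he0).2 ⟨Or.inl rfl, odd_one⟩
      rw [mul_one, add_zero] at h5
      rw [h]
      exact h5
    have hae2 : a' ≠ e + 2 := by
      intro h
      apply hnH
      have h5 := (Tuple_isH e 1 2 he3 (by omega)).2 ⟨Or.inr rfl, odd_one⟩
      rw [mul_one] at h5
      rw [h]
      exact h5
    refine ⟨a', ⟨ha', Or.inl ⟨ha0, ha2, hnH, (h1 a' ha').2 rfl⟩⟩, ?_⟩
    rintro y ⟨hym, ⟨y0, y2, -, hy⟩ | ⟨hyH, hy⟩ | ⟨-, hy⟩ | ⟨-, hy⟩⟩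
    · exact (h1 y hym).1 hy
    · rw [h2 y hym] at hy
      rcases hy with hy | hy
      · exact absurd (hB1 y hyH hy).1 hrr
      · exact absurd (hB2 y hym hyH hy).1 hrr
    · rw [h3] at hy
      exact absurd hy hae2
    · rw [h4] at hy
      exact absurd hy hae

end Pool.Agent.Lib.MP_f406e2_lc_OC
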