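import Pool.Agent.Lib.MP_f406e2_lc_OC.Chain
import Pool.Agent.Lib.MP_f406e2_lc_OC.Tuple
import Pool.Agent.Lib.MP_f406e2_lc_OC.EntU
import Pool.Agent.Lib.MP_f406e2_lc_OC.Idx

/-! # The exact cover of the orbit of the pole, abstract form -/

namespace Pool.Agent.Lib.MP_f406e2_lc_OC

section NCov

/-- position of the exotic direction of a type, relative to the base direction -/
def NCov_off (e : ℕ) : Ty → ℤ
  | Ty.pC => 0
  | Ty.pA => 2 * e
  | Ty.pB => 4 * e
  | Ty.A => 0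
  | Ty.B => 4
  | Ty.C => -4

def NCov_pr : Ty → Bool
  | Ty.pC => true
  | Ty.pA => true
  | Ty.pB => true
  | Ty.A => false
  | Ty.B => false
  | Ty.C => false

def NCov_pa : Ty → Ty
  | Ty.pC => Ty.C
  | Ty.pA => Ty.A
  | Ty.pB => Ty.B
  | Ty.A => Ty.pA
  | Ty.B => Ty.pB
  | Ty.C => Ty.pC

theorem NCov_pa_pa (t : Ty) : NCov_pa (NCov_pa t) = t := by cases t <;> rfl

theorem NCov_children_iff (e : ℕ) (t : Ty) (i : ℤ) (t' : Ty) :
    (i, t') ∈ children e t ↔
      ∃ s : Ty, NCov_pr s = NCov_pr t ∧ s ≠ t ∧ i = NCov_off e s - NCov_off e t ∧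
        t' = NCov_pa s := by
  constructor
  · intro h
    cases t <;> simp only [children, List.mem_cons, List.not_mem_nil, or_false,
      Prod.mk.injEq] at h <;> rcases h with ⟨rfl, rfl⟩ | ⟨rfl, rfl⟩
    · exact ⟨Ty.pC, rfl, by decide, by simp [NCov_off], rfl⟩
    · exact ⟨Ty.pB, rfl, by decide, by simp [NCov_off]; ring, rfl⟩
    · exact ⟨Ty.pC, rfl, by decide, by simp [NCov_off], rfl⟩
    · exact ⟨Ty.pA, rfl, by decide, by simp [NCov_off]; ring, rfl⟩
    · exact ⟨Ty.pA, rfl, by decide, by simp [NCov_off], rfl⟩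
    · exact ⟨Ty.pB, rfl, by decide, by simp [NCov_off], rfl⟩
    · exact ⟨Ty.B, rfl, by decide, by simp [NCov_off], rfl⟩
    · exact ⟨Ty.C, rfl, by decide, by simp [NCov_off], rfl⟩
    · exact ⟨Ty.A, rfl, by decide, by simp [NCov_off], rfl⟩
    · exact ⟨Ty.C, rfl, by decide, by simp [NCov_off], rfl⟩
    · exact ⟨Ty.A, rfl, by decide, by simp [NCov_off], rfl⟩
    · exact ⟨Ty.B, rfl, by decide, by simp [NCov_off], rfl⟩
  · rintro ⟨s, h1, h2, rfl, rfl⟩
    cases t <;> cases s <;> simp [NCov_pr] at h1 h2 <;>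
      simp only [children, NCov_off, NCov_pa, List.mem_cons, List.not_mem_nil, or_false,
        Prod.mk.injEq, sub_zero, zero_sub, and_true, reduceCtorEq, and_false, false_or] <;>
      first | trivial | ring

variable {m : ℕ} (G : NCfg m)

theorem NCov_rot_nat (n : ℕ) (x : G.X) : G.rot (n * m) x = x := by
  induction n with
  | zero => simpa using G.rot_zero x
  | succ n ih =>
    have : ((n + 1 : ℕ) : ℤ) * m = n * m + m := by push_cast; ring
    rw [this, G.rot_add, G.rot_m, ih]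

theorem NCov_rot_int (n : ℤ) (x : G.X) : G.rot (n * m) x = x := by
  obtain ⟨k, rfl | rfl⟩ := n.eq_nat_or_neg
  · exact NCov_rot_nat G k x
  · have h := NCov_rot_nat G k (G.rot (-(k : ℤ) * m) x)
    rw [← G.rot_add] at h
    have h0 : (k : ℤ) * m + -(k : ℤ) * m = 0 := by ring
    rw [h0, G.rot_zero] at h
    exact h.symm

theorem NCov_rot_congr {i j : ℤ} (h : (m : ℤ) ∣ i - j) (x : G.X) : G.rot i x = G.rot j x := by
  obtain ⟨k, hk⟩ := h
  have : i = k * m + j := by linarith [mul_comm (m : ℤ) k]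
  rw [this, G.rot_add, NCov_rot_int]

theorem NCov_rot_neg (i : ℤ) (x : G.X) : G.rot (-i) (G.rot i x) = x := by
  rw [← G.rot_add]; simpa using G.rot_zero x

theorem NCov_inj_F {x y : G.X} (hx : x ∈ G.F) (hy : y ∈ G.F) {i j : ℤ}
    (h : G.rot i x = G.rot j y) : x = y ∧ (m : ℤ) ∣ i - j := by
  have h1 : G.rot (i - j) x = y := by
    have := congrArg (G.rot (-j)) h
    rw [NCov_rot_neg, ← G.rot_add] at this
    rw [← this]; congr 1; ring
  have h2 := G.F_uniq x hx (i - j) (by rw [h1]; exact hy)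
  refine ⟨?_, h2⟩
  rw [← h1, NCov_rot_congr G (j := 0) (by simpa using h2), G.rot_zero]

theorem NCov_ne_N {x : G.X} (hx : x ∈ G.F) (i : ℤ) : G.rot i x ≠ G.N := by
  intro h
  have := congrArg (G.rot (-i)) h
  rw [NCov_rot_neg, G.rot_N] at this
  rw [this] at hx
  exact G.N_notin hx

/-- `z` is the exotic direction of type `t` of some exotic vertex -/
def NCov_Dir (e : ℕ) (z : G.X) (s : Ty) : Prop :=
  ∃ (u : G.X) (t : Ty), Ent G e u t ∧ NCov_pr s = NCov_pr t ∧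
    z = G.rot (NCov_off e s - NCov_off e t) u

/-- the vertex of `x` is exotic -/
def NCov_Exo (e : ℕ) (x : G.X) : Prop := ∃ (u : G.X) (t : Ty) (k : ℤ), Ent G e u t ∧ x = G.rot k u

theorem NCov_Dir_Exo {e : ℕ} {z : G.X} {s : Ty} {x : G.X} {k : ℤ} (h : NCov_Dir G e z s)
    (hz : z = G.rot k x) : NCov_Exo G e x := by
  obtain ⟨u, t, hu, -, h2⟩ := h
  refine ⟨u, t, -k + (NCov_off e s - NCov_off e t), hu, ?_⟩
  rw [G.rot_add, ← h2, hz, NCov_rot_neg]

theorem NCov_D1 {e : ℕ} {u : G.X} {t : Ty} (h : Ent G e u t) : NCov_Dir G e u t :=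
  ⟨u, t, h, rfl, by simp [G.rot_zero]⟩

theorem NCov_D2 {e : ℕ} {z : G.X} {s : Ty} (h : NCov_Dir G e z s) :
    (z = G.r G.N ∧ s = Ty.pC) ∨ NCov_Dir G e (G.r z) (NCov_pa s) := by
  obtain ⟨u, t, hu, h1, rfl⟩ := h
  by_cases hst : s = t
  · subst hst
    rw [sub_self, G.rot_zero]
    cases hu with
    | root => exact Or.inl ⟨rfl, rfl⟩
    | step x t0 i t' hx hi =>
      right
      rw [G.r_r]
      obtain ⟨σ, h3, h4, rfl, rfl⟩ := (NCov_children_iff e t0 i s).1 hi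
      exact ⟨x, t0, hx, by rw [NCov_pa_pa]; exact h3, by rw [NCov_pa_pa]⟩
  · right
    apply NCov_D1
    exact Ent.step u t _ _ hu ((NCov_children_iff e t _ _).2 ⟨s, h1, hst, rfl, rfl⟩)

variable {d e : ℕ}

theorem NCov_D3 (hm : m = d * e) (hd : Odd d) (he : Odd e)
    (hd3 : 3 ≤ d) (he3 : 3 ≤ e) (h15 : 15 ≤ m) {z : G.X} {s s' : Ty} {k : ℤ}
    (h : NCov_Dir G e z s) (h' : NCov_Dir G e (G.rot k z) s') :
    NCov_pr s = NCov_pr s' ∧ (m : ℤ) ∣ k - (NCov_off e s' - NCov_off e s) := by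
  obtain ⟨u, t, hu, h1, rfl⟩ := h
  obtain ⟨u', t', hu', h1', h2⟩ := h'
  rw [← G.rot_add] at h2
  obtain ⟨rfl, h3⟩ := NCov_inj_F G (ent_mem G d e hm hd he hd3 he3 h15 u t hu)
    (ent_mem G d e hm hd he hd3 he3 h15 u' t' hu') h2
  have h4 := ent_uniq G d e hm hd he hd3 he3 h15 u t t' hu hu'
  subst h4
  refine ⟨h1.trans h1'.symm, ?_⟩
  have : k - (NCov_off e s' - NCov_off e s) =
    k + (NCov_off e s - NCov_off e t) - (NCov_off e s' - NCov_off e t) := by ring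
  rw [this]; exact h3

theorem NCov_not_dvd (hm : m = d * e) (hd3 : 3 ≤ d) (he3 : 3 ≤ e)
    (hd : Odd d) (h15 : 15 ≤ m) {s s' : Ty} (h : NCov_pr s = NCov_pr s')
    (h' : (m : ℤ) ∣ NCov_off e s' - NCov_off e s) : s = s' := by
  have key : ∀ x : ℤ, (m : ℤ) ∣ x → x ≠ 0 → (m : ℤ) ≤ |x| := fun x hx hx0 =>
    Int.le_of_dvd (abs_pos.2 hx0) ((dvd_abs _ _).2 hx)
  have hme : (3 : ℤ) * e ≤ m := by
    rw [hm]; push_cast
    have : (3 : ℤ) ≤ d := by exact_mod_cast hd3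
    have he0 : (0 : ℤ) ≤ e := by positivity
    nlinarith
  have he3' : (3 : ℤ) ≤ e := by exact_mod_cast he3
  have h15' : (15 : ℤ) ≤ m := by exact_mod_cast h15
  have h2e : ¬ (m : ℤ) ∣ 2 * e := by
    intro h
    have := Int.le_of_dvd (by positivity) h
    linarith
  have h4e : ¬ (m : ℤ) ∣ 4 * e := by
    intro h
    rw [hm] at h; push_cast at h
    rw [mul_comm (4 : ℤ), mul_comm (d : ℤ)] at h
    have h' := Int.dvd_of_mul_dvd_mul_left (by positivity : (e : ℤ) ≠ 0) h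
    have h'' : d ∣ 4 := by exact_mod_cast h'
    have := Nat.le_of_dvd (by norm_num) h''
    obtain ⟨k, hk⟩ := hd
    interval_cases d <;> omega
  cases s <;> cases s' <;> first
    | rfl
    | (exfalso; simp [NCov_pr] at h; done)
    | (exfalso; simp only [NCov_off] at h'
       first
        | exact h2e (by simpa using h')
        | exact h4e (by simpa using h')
        | exact h2e (by rw [← dvd_neg]; simpa using h')
        | exact h2e (by have := h'; ring_nf at this ⊢; exact this)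
        | exact h2e (by rw [← dvd_neg]; have := h'; ring_nf at this ⊢; exact this)
        | (have := key _ h' (by norm_num); norm_num at this; linarith))

theorem NCov_D4 (hm : m = d * e) (hd : Odd d) (he : Odd e)
    (hd3 : 3 ≤ d) (he3 : 3 ≤ e) (h15 : 15 ≤ m) {z : G.X} {s s' : Ty}
    (h : NCov_Dir G e z s) (h' : NCov_Dir G e z s') : s = s' := by
  have h2 := NCov_D3 G hm hd he hd3 he3 h15 (k := 0) h (by rw [G.rot_zero]; exact h')
  refine NCov_not_dvd hm hd3 he3 hd h15 h2.1 ?_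
  have := h2.2
  rw [zero_sub, dvd_neg] at this
  exact this

theorem NCov_D5 (hm : m = d * e) (hd : Odd d) (he : Odd e)
    (hd3 : 3 ≤ d) (he3 : 3 ≤ e) (h15 : 15 ≤ m) {z : G.X} {s : Ty}
    (h : NCov_Dir G e z s) (h0 : NCov_off e s = 0) (k : ℤ) (s' : Ty) :
    NCov_Dir G e (G.rot k z) s' ↔ NCov_pr s = NCov_pr s' ∧ (m : ℤ) ∣ k - NCov_off e s' := by
  constructor
  · intro h'
    have := NCov_D3 G hm hd he hd3 he3 h15 h h'
    rwa [h0, sub_zero] at this
  · rintro ⟨h1, h2⟩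
    obtain ⟨u, t, hu, h3, rfl⟩ := h
    refine ⟨u, t, hu, h1.symm.trans h3, ?_⟩
    rw [NCov_rot_congr G h2, ← G.rot_add, h0]
    congr 1; ring

theorem NCov_Dir_ne_N (hm : m = d * e) (hd : Odd d) (he : Odd e)
    (hd3 : 3 ≤ d) (he3 : 3 ≤ e) (h15 : 15 ≤ m) {z : G.X} {s : Ty} {k : ℤ}
    (h : NCov_Dir G e z s) : G.rot k z ≠ G.N := by
  obtain ⟨u, t, hu, -, rfl⟩ := h
  rw [← G.rot_add]
  exact NCov_ne_N G (ent_mem G d e hm hd he hd3 he3 h15 u t hu) _

/-- far side -/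
theorem NCov_D6 {z : G.X} (hz : z ≠ G.N) {s : Ty} (hs : s ≠ Ty.pC) :
    NCov_Dir G e (G.r z) (NCov_pa s) ↔ NCov_Dir G e z s := by
  constructor
  · intro h
    rcases NCov_D2 G h with ⟨h1, -⟩ | h1
    · exact absurd (by rw [← G.r_r z, h1, G.r_r]) hz
    · rwa [G.r_r, NCov_pa_pa] at h1
  · intro h
    rcases NCov_D2 G h with ⟨-, h1⟩ | h1
    · exact absurd h1 hs
    · exact h1

theorem NCov_two (hm3 : 3 ≤ m) (a : ℤ) :
    ∃! j : ℕ, j < m ∧ ((j ≠ 0 ∧ j ≠ 2 ∧ (m : ℤ) ∣ a - j) ∨ (j = 2 ∧ (m : ℤ) ∣ a) ∨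
      (j = 0 ∧ (m : ℤ) ∣ a - 2)) := by
  have hm0 : (0 : ℤ) < m := by exact_mod_cast (by omega : 0 < m)
  have key : ∀ x y : ℕ, x < m → y < m → (m : ℤ) ∣ (x : ℤ) - y → x = y := by
    intro x y hx hy h
    have h2 : (x : ℤ) % m = y % m :=
      Int.emod_eq_emod_iff_emod_sub_eq_zero.2 (Int.emod_eq_zero_of_dvd h)
    rw [Int.emod_eq_of_lt (by positivity) (by exact_mod_cast hx),
      Int.emod_eq_of_lt (by positivity) (by exact_mod_cast hy)] at h2
    exact_mod_cast h2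
  obtain ⟨n, hn⟩ : ∃ n : ℕ, (n : ℤ) = a % m := ⟨(a % m).toNat, by
    rw [Int.toNat_of_nonneg (Int.emod_nonneg _ (by omega))]⟩
  have hnm : n < m := by
    have := Int.emod_lt_of_pos a hm0
    rw [← hn] at this; exact_mod_cast this
  have han : (m : ℤ) ∣ a - n := by rw [hn]; exact Int.dvd_self_sub_emod
  have hj : ∀ x : ℤ, (m : ℤ) ∣ a - x ↔ (m : ℤ) ∣ (n : ℤ) - x := by
    intro x
    have : a - x = (a - n) + (n - x) := by ring
    rw [this]
    exact (Int.dvd_add_right han)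
  have hj0 : (m : ℤ) ∣ a ↔ (m : ℤ) ∣ (n : ℤ) - 0 := by rw [← hj 0, sub_zero]
  by_cases h0 : n = 0
  · subst h0
    refine ⟨2, ⟨by omega, Or.inr (Or.inl ⟨rfl, by rw [hj0]; simp⟩)⟩, ?_⟩
    rintro j ⟨hjm, h | h | h⟩
    · exact absurd (key 0 j (by omega) hjm (by exact_mod_cast (hj j).1 h.2.2)).symm h.1
    · exact h.1
    · exact absurd (key 0 2 (by omega) (by omega) (by exact_mod_cast (hj 2).1 h.2)) (by norm_num)
  · by_cases h2 : n = 2
    · subst h2
      refine ⟨0, ⟨by omega, Or.inr (Or.inr ⟨rfl, by rw [hj]; simp⟩)⟩, ?_⟩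
      rintro j ⟨hjm, h | h | h⟩
      · exact absurd (key 2 j (by omega) hjm (by exact_mod_cast (hj j).1 h.2.2)).symm h.2.1
      · exact absurd (key 2 0 (by omega) (by omega) (by exact_mod_cast hj0.1 h.2)) (by norm_num)
      · exact h.1
    · refine ⟨n, ⟨hnm, Or.inl ⟨h0, h2, han⟩⟩, ?_⟩
      rintro j ⟨hjm, h | h | h⟩
      · exact (key n j hnm hjm ((hj j).1 h.2.2)).symm
      · exact absurd (key n 0 hnm (by omega) (by exact_mod_cast hj0.1 h.2)) h0
      · exact absurd (key n 2 hnm (by omega) (by exact_mod_cast (hj 2).1 h.2)) h2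

/-! ### the matching -/

/-- elements of `F` representing non-exotic vertices -/
def NCov_NX (e : ℕ) (u : G.X) : Prop := u ∈ G.F ∧ ¬ NCov_Exo G e u

theorem NCov_F1 (hm : m = d * e) (hd : Odd d) (he : Odd e)
    (hd3 : 3 ≤ d) (he3 : 3 ≤ e) (h15 : 15 ≤ m) {u : G.X} (hu : NCov_NX G e u) :
    NCov_NX G e (G.r (G.rot 4 u)) ∧ G.ht u < G.ht (G.r (G.rot 4 u)) := by
  have h4 : (4 : ℤ) % m = 4 := Int.emod_eq_of_lt (by norm_num) (by exact_mod_cast (by omega : 4 < m))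
  have hk := G.key u hu.1 4 (by rw [h4]; norm_num) (by
    rw [h4]
    have : (15 : ℤ) ≤ m := by exact_mod_cast h15
    linarith)
  refine ⟨⟨hk.1, ?_⟩, hk.2⟩
  rintro ⟨w, t, k, hw, hk'⟩
  obtain ⟨h1, -⟩ := NCov_inj_F G (i := 0) (j := k) hk.1
    (ent_mem G d e hm hd he hd3 he3 h15 w t hw) (by rw [G.rot_zero]; exact hk')
  rw [← h1] at hw
  generalize hz : G.r (G.rot 4 u) = z at hw
  cases hw with
  | root =>
    have : G.rot 4 u = G.N := by
      rw [← G.r_r (G.rot 4 u), hz, G.r_r]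
    exact NCov_ne_N G hu.1 4 this
  | step x t0 i t' hx hi =>
    have : G.rot 4 u = G.rot i x := by
      rw [← G.r_r (G.rot 4 u), hz, G.r_r]
    obtain ⟨h2, -⟩ := NCov_inj_F G hu.1 (ent_mem G d e hm hd he hd3 he3 h15 x t0 hx) this
    exact hu.2 ⟨x, t0, 0, hx, by rw [h2, G.rot_zero]⟩

/-- the next element of a chain -/
def NCov_f (hm : m = d * e) (hd : Odd d) (he : Odd e)
    (hd3 : 3 ≤ d) (he3 : 3 ≤ e) (h15 : 15 ≤ m) (u : {u : G.X // NCov_NX G e u}) :
    {u : G.X // NCov_NX G e u} :=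
  ⟨G.r (G.rot 4 u.1), (NCov_F1 G hm hd he hd3 he3 h15 u.2).1⟩

theorem NCov_chi (hm : m = d * e) (hd : Odd d) (he : Odd e)
    (hd3 : 3 ≤ d) (he3 : 3 ≤ e) (h15 : 15 ≤ m) :
    ∃ χ : {u : G.X // NCov_NX G e u} → Prop,
      (∀ x, χ (NCov_f G hm hd he hd3 he3 h15 x) ↔ ¬ χ x) ∧
      ∀ x, x ∉ Set.range (NCov_f G hm hd he hd3 he3 h15) → ¬ χ x := by
  apply chain
  · intro x y hxy
    have h1 : G.r (G.rot 4 x.1) = G.r (G.rot 4 y.1) := congrArg Subtype.val hxy
    have h2 : G.rot 4 x.1 = G.rot 4 y.1 := by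
      rw [← G.r_r (G.rot 4 x.1), h1, G.r_r]
    have h3 := congrArg (G.rot (-4)) h2
    rw [NCov_rot_neg, NCov_rot_neg] at h3
    exact Subtype.ext h3
  · intro x n hn
    have hlt : ∀ y : {u : G.X // NCov_NX G e u},
        G.ht y.1 < G.ht (NCov_f G hm hd he hd3 he3 h15 y).1 := fun y =>
      (NCov_F1 G hm hd he hd3 he3 h15 y.2).2
    have : ∀ n : ℕ, G.ht x.1 < G.ht ((NCov_f G hm hd he hd3 he3 h15)^[n + 1] x).1 := by
      intro n
      induction n with
      | zero => simpa using hlt x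
      | succ n ih =>
        rw [Function.iterate_succ_apply']
        exact ih.trans (hlt _)
    intro h
    obtain ⟨k, rfl⟩ : ∃ k, n = k + 1 := ⟨n - 1, by omega⟩
    have h2 := this k
    rw [h] at h2
    exact lt_irrefl _ h2

theorem NCov_match (hm : m = d * e) (hd : Odd d) (he : Odd e)
    (hd3 : 3 ≤ d) (he3 : 3 ≤ e) (h15 : 15 ≤ m) :
    ∃ M : G.X → Prop, (∀ z, M z → ¬ NCov_Exo G e z) ∧ (∀ z, M (G.r z) ↔ M z) ∧
      (∀ x, M x → x ≠ G.N) ∧
      ∀ x, x ≠ G.N → ¬ NCov_Exo G e x → (∃ i, M (G.rot i x)) ∧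
        ∀ i i', M (G.rot i x) → M (G.rot i' x) → (m : ℤ) ∣ i - i' := by
  obtain ⟨χ, h1, h2⟩ := NCov_chi G hm hd he hd3 he3 h15
  have hexo : ∀ (x : G.X) (i : ℤ), NCov_Exo G e (G.rot i x) → NCov_Exo G e x := by
    rintro x i ⟨u, t, k, hu, hk⟩
    exact ⟨u, t, -i + k, hu, by rw [G.rot_add, ← hk, NCov_rot_neg]⟩
  let M : G.X → Prop := fun z => ∃ u : {u : G.X // NCov_NX G e u},
    (χ u ∧ z = u.1) ∨ (¬ χ u ∧ z = G.rot 4 u.1)
  have hr : ∀ z, M z → M (G.r z) := by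
    rintro z ⟨u, ⟨hu, rfl⟩ | ⟨hu, rfl⟩⟩
    · have : u ∈ Set.range (NCov_f G hm hd he hd3 he3 h15) := by
        by_contra h; exact h2 u h hu
      obtain ⟨v, rfl⟩ := this
      exact ⟨v, Or.inr ⟨(h1 v).1 hu, G.r_r _⟩⟩
    · exact ⟨NCov_f G hm hd he hd3 he3 h15 u, Or.inl ⟨(h1 u).2 hu, rfl⟩⟩
  refine ⟨M, ?_, ?_, ?_, ?_⟩
  · rintro z ⟨u, ⟨hu, rfl⟩ | ⟨hu, rfl⟩⟩ h
    · exact u.2.2 h
    · exact u.2.2 (hexo _ _ h)
  · intro z
    exact ⟨fun h => by simpa [G.r_r] using hr _ h, hr z⟩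
  · rintro x ⟨u, ⟨hu, rfl⟩ | ⟨hu, rfl⟩⟩ h
    · exact G.N_notin (h ▸ u.2.1)
    · exact NCov_ne_N G u.2.1 4 h
  · intro x hx hxe
    obtain ⟨i, hi⟩ := G.F_ex x hx
    have hnx : NCov_NX G e (G.rot i x) := ⟨hi, fun h => hxe (hexo _ _ h)⟩
    constructor
    · by_cases hc : χ ⟨G.rot i x, hnx⟩
      · exact ⟨i, ⟨_, hnx⟩, Or.inl ⟨hc, rfl⟩⟩
      · exact ⟨4 + i, ⟨_, hnx⟩, Or.inr ⟨hc, by rw [G.rot_add]⟩⟩
    · -- every element of M in the orbit comes from the same u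
      have hrep : ∀ j : ℤ, M (G.rot j x) →
          (χ ⟨G.rot i x, hnx⟩ ∧ (m : ℤ) ∣ j - i) ∨ (¬ χ ⟨G.rot i x, hnx⟩ ∧ (m : ℤ) ∣ j - i - 4) := by
        intro j hj
        have hjx : G.rot j x = G.rot (j - i) (G.rot i x) := by
          rw [← G.rot_add]; congr 1; ring
        obtain ⟨u, ⟨hu, h⟩ | ⟨hu, h⟩⟩ := hj
        · rw [hjx] at h
          obtain ⟨h3, h4⟩ := NCov_inj_F G (j := 0) hi u.2.1 (by rw [h, G.rot_zero])
          have : (⟨G.rot i x, hnx⟩ : {u : G.X // NCov_NX G e u}) = u := Subtype.ext h3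
          left
          rw [this]
          exact ⟨hu, by simpa using h4⟩
        · rw [hjx] at h
          obtain ⟨h3, h4⟩ := NCov_inj_F G (j := 4) hi u.2.1 h
          have : (⟨G.rot i x, hnx⟩ : {u : G.X // NCov_NX G e u}) = u := Subtype.ext h3
          right
          rw [this]
          exact ⟨hu, h4⟩
      intro j j' hj hj'
      rcases hrep j hj with ⟨a1, a2⟩ | ⟨a1, a2⟩ <;> rcases hrep j' hj' with ⟨b1, b2⟩ | ⟨b1, b2⟩
      · have : j - j' = (j - i) - (j' - i) := by ring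
        rw [this]; exact dvd_sub a2 b2
      · exact absurd a1 b1
      · exact absurd b1 a1
      · have : j - j' = (j - i - 4) - (j' - i - 4) := by ring
        rw [this]; exact dvd_sub a2 b2

/-- far labels of an exotic direction -/
theorem NCov_far {z : G.X} (hz : z ≠ G.N) :
    ((NCov_Dir G e (G.r z) Ty.pC ∨ NCov_Dir G e (G.r z) Ty.A) ↔
      (NCov_Dir G e z Ty.C ∨ NCov_Dir G e z Ty.pA)) ∧
    ((NCov_Dir G e (G.r z) Ty.pB ∨ NCov_Dir G e (G.r z) Ty.A) ↔
      (NCov_Dir G e z Ty.B ∨ NCov_Dir G e z Ty.pA)) := by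
  have h1 := NCov_D6 G (e := e) hz (s := Ty.C) (by decide)
  have h2 := NCov_D6 G (e := e) hz (s := Ty.pA) (by decide)
  have h3 := NCov_D6 G (e := e) hz (s := Ty.B) (by decide)
  simp only [NCov_pa] at h1 h2 h3
  rw [h1, h2, h3]
  exact ⟨Iff.rfl, Iff.rfl⟩

theorem NCov_dvd_half (hodd : Odd m) (x : ℤ) : (m : ℤ) ∣ 2 * x ↔ (m : ℤ) ∣ x := by
  have hc : IsCoprime (m : ℤ) 2 := by
    obtain ⟨k, hk⟩ := hodd
    exact ⟨1, -(k : ℤ), by rw [hk]; push_cast; ring⟩
  exact ⟨fun h => hc.dvd_of_dvd_mul_left h, fun h => h.mul_left 2⟩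

end NCov

open Classical in
theorem ncov {m : ℕ} (G : NCfg m) (d e : ℕ) (hm : m = d * e) (hd : Odd d) (he : Odd e)
    (hd3 : 3 ≤ d) (he3 : 3 ≤ e) (h15 : 15 ≤ m) :
    ∃ α β : G.X → Prop, ∀ x : G.X,
      (∃! j : ℕ, j < m ∧ pick e G.r α β j (G.rot (-(2 * j)) x)) ∧
      (∃! j : ℕ, j < m ∧ pick e G.r β α j (G.rot (2 * j) x)) := by
  have hodd : Odd m := hm ▸ hd.mul he
  obtain ⟨M, hM1, hM2, hM3, hM4⟩ := NCov_match G hm hd he hd3 he3 h15
  have hz0 := isH_zero e he3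
  have hz2 := isH_two e he3
  let α : G.X → Prop := fun z => M z ∨ (NCov_Dir G e z Ty.pC ∨ NCov_Dir G e z Ty.A)
  let β : G.X → Prop := fun z => M z ∨ (NCov_Dir G e z Ty.pB ∨ NCov_Dir G e z Ty.A)
  -- unfolding of pick
  have hp : ∀ (a b : G.X → Prop) (j : ℕ) (y : G.X), pick e G.r a b j y ↔
      (j ≠ 0 ∧ j ≠ 2 ∧ ¬ isH e j ∧ a y) ∨ (isH e j ∧ b y) ∨ (j = 2 ∧ a (G.r y)) ∨
        (j = 0 ∧ b (G.r y)) := by
    intro a b j y
    unfold pick
    by_cases h0 : j = 0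
    · subst h0; simp [hz0]
    · by_cases h2 : j = 2
      · subst h2; simp [hz2]
      · by_cases hH : isH e j
        · simp [h0, h2, hH]
        · simp [h0, h2, hH]
  refine ⟨α, β, fun x => ?_⟩
  by_cases hxN : x = G.N
  · -- the root
    subst hxN
    have hDN : ∀ s, ¬ NCov_Dir G e G.N s := fun s h =>
      NCov_Dir_ne_N G hm hd he hd3 he3 h15 (k := 0) h (G.rot_zero _)
    have hαN : ¬ α G.N := by
      rintro (h | h | h)
      · exact hM3 _ h rfl
      · exact hDN _ h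
      · exact hDN _ h
    have hβN : ¬ β G.N := by
      rintro (h | h | h)
      · exact hM3 _ h rfl
      · exact hDN _ h
      · exact hDN _ h
    have hDr : NCov_Dir G e (G.r G.N) Ty.pC := NCov_D1 G Ent.root
    have hαr : α (G.r G.N) := Or.inr (Or.inl hDr)
    have hβr : ¬ β (G.r G.N) := by
      rintro (h | h | h)
      · exact hM3 _ ((hM2 _).1 h) rfl
      · exact absurd (NCov_D4 G hm hd he hd3 he3 h15 hDr h) (by decide)
      · exact absurd (NCov_D4 G hm hd he hd3 he3 h15 hDr h) (by decide)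
    constructor
    · refine ⟨2, ⟨by omega, ?_⟩, ?_⟩
      · rw [hp, G.rot_N]; exact Or.inr (Or.inr (Or.inl ⟨rfl, hαr⟩))
      · rintro j ⟨-, h⟩
        rw [hp, G.rot_N] at h
        rcases h with h | h | h | h
        · exact absurd h.2.2.2 hαN
        · exact absurd h.2 hβN
        · exact h.1
        · exact absurd h.2 hβr
    · refine ⟨0, ⟨by omega, ?_⟩, ?_⟩
      · rw [hp, G.rot_N]; exact Or.inr (Or.inr (Or.inr ⟨rfl, hαr⟩))
      · rintro j ⟨-, h⟩
        rw [hp, G.rot_N] at h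
        rcases h with h | h | h | h
        · exact absurd h.2.2.2 hβN
        · exact absurd h.2 hαN
        · exact absurd h.2 hβr
        · exact h.1
  by_cases hxe : NCov_Exo G e x
  · -- exotic vertices
    obtain ⟨u, t, k, hu, rfl⟩ := hxe
    -- base point
    obtain ⟨u0, i, s, hs, h0, hxi⟩ : ∃ (u0 : G.X) (i : ℤ) (s : Ty), NCov_Dir G e u0 s ∧
        (s = Ty.pC ∨ s = Ty.A) ∧ G.rot k u = G.rot i u0 := by
      cases ht : NCov_pr t
      · refine ⟨G.rot (NCov_off e Ty.A - NCov_off e t) u, k + NCov_off e t, Ty.A,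
          ⟨u, t, hu, by rw [ht]; rfl, rfl⟩, Or.inr rfl, ?_⟩
        rw [← G.rot_add]; congr 1; simp [NCov_off]
      · refine ⟨G.rot (NCov_off e Ty.pC - NCov_off e t) u, k + NCov_off e t, Ty.pC,
          ⟨u, t, hu, by rw [ht]; rfl, rfl⟩, Or.inl rfl, ?_⟩
        rw [← G.rot_add]; congr 1; simp [NCov_off]
    rw [hxi]
    have hoff : NCov_off e s = 0 := by rcases h0 with rfl | rfl <;> rfl
    have hD := NCov_D5 G hm hd he hd3 he3 h15 hs hoff
    have hneN : ∀ k, G.rot k u0 ≠ G.N := fun k => NCov_Dir_ne_N G hm hd he hd3 he3 h15 hs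
    have hMn : ∀ k, ¬ M (G.rot k u0) := fun k h => hM1 _ h (by
      obtain ⟨u', t', hu', -, h2⟩ := hs
      exact ⟨u', t', _, hu', by rw [h2, ← G.rot_add]⟩)
    have hMr : ∀ k, ¬ M (G.r (G.rot k u0)) := fun k h => hMn k ((hM2 _).1 h)
    have hα : ∀ k, α (G.rot k u0) ↔
        (NCov_Dir G e (G.rot k u0) Ty.pC ∨ NCov_Dir G e (G.rot k u0) Ty.A) := fun k =>
      ⟨fun h => h.resolve_left (hMn k), Or.inr⟩
    have hβ : ∀ k, β (G.rot k u0) ↔
        (NCov_Dir G e (G.rot k u0) Ty.pB ∨ NCov_Dir G e (G.rot k u0) Ty.A) := fun k =>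
      ⟨fun h => h.resolve_left (hMn k), Or.inr⟩
    have hαr : ∀ k, α (G.r (G.rot k u0)) ↔
        (NCov_Dir G e (G.rot k u0) Ty.C ∨ NCov_Dir G e (G.rot k u0) Ty.pA) := fun k =>
      ⟨fun h => (NCov_far G (hneN k)).1.1 (h.resolve_left (hMr k)),
        fun h => Or.inr ((NCov_far G (hneN k)).1.2 h)⟩
    have hβr : ∀ k, β (G.r (G.rot k u0)) ↔
        (NCov_Dir G e (G.rot k u0) Ty.B ∨ NCov_Dir G e (G.rot k u0) Ty.pA) := fun k =>
      ⟨fun h => (NCov_far G (hneN k)).2.1 (h.resolve_left (hMr k)),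
        fun h => Or.inr ((NCov_far G (hneN k)).2.2 h)⟩
    -- half of i
    obtain ⟨i', hi'⟩ : ∃ i' : ℤ, (m : ℤ) ∣ i - 2 * i' := by
      obtain ⟨q, hq⟩ := hodd
      exact ⟨i * (q + 1), ⟨-i, by rw [hq]; push_cast; ring⟩⟩
    have hh : ∀ y : ℤ, (m : ℤ) ∣ i - 2 * y ↔ (m : ℤ) ∣ i' - y := by
      intro y
      have : i - 2 * y = (i - 2 * i') + 2 * (i' - y) := by ring
      rw [this, Int.dvd_add_right hi', NCov_dvd_half hodd]
    rcases h0 with rfl | rfl
    · -- primed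
      have hα' : ∀ k, α (G.rot k u0) ↔ (m : ℤ) ∣ k := by
        intro k; rw [hα, hD, hD]; simp [NCov_pr, NCov_off]
      have hβ' : ∀ k, β (G.rot k u0) ↔ (m : ℤ) ∣ k - 4 * e := by
        intro k; rw [hβ, hD, hD]; simp [NCov_pr, NCov_off]
      have hαr' : ∀ k, α (G.r (G.rot k u0)) ↔ (m : ℤ) ∣ k - 2 * e := by
        intro k; rw [hαr, hD, hD]; simp [NCov_pr, NCov_off]
      have hβr' : ∀ k, β (G.r (G.rot k u0)) ↔ (m : ℤ) ∣ k - 2 * e := by
        intro k; rw [hβr, hD, hD]; simp [NCov_pr, NCov_off]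
      constructor
      · refine (existsUnique_congr fun j => and_congr_right fun _ => ?_).2
          (tuple_one m d e hm hd he hd3 he3 i')
        rw [hp, ← G.rot_add, hα', hβ', hαr', hβr']
        refine or_congr ?_ (or_congr ?_ (or_congr ?_ ?_))
        · refine and_congr_right fun _ => and_congr_right fun _ => and_congr_right fun _ => ?_
          rw [← hh j]; ring_nf
        · refine and_congr_right fun _ => ?_
          rw [show i' - 2 * (e : ℤ) - j = i' - (2 * e + j) by ring, ← hh]; ring_nf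
        · refine and_congr_right fun hj => ?_
          rw [show i' - 2 - (e : ℤ) = i' - (2 + e) by ring, ← hh, hj]; push_cast; ring_nf
        · refine and_congr_right fun hj => ?_
          rw [← hh, hj]; push_cast; ring_nf
      · refine (existsUnique_congr fun j => and_congr_right fun _ => ?_).2
          (tuple_one m d e hm hd he hd3 he3 (2 * e - i'))
        rw [hp, ← G.rot_add, hα', hβ', hαr', hβr']
        have hneg : ∀ y y' : ℤ, y' = -y → ((m : ℤ) ∣ y ↔ (m : ℤ) ∣ y') := by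
          rintro y _ rfl; rw [dvd_neg]
        refine or_congr ?_ (or_congr ?_ (or_congr ?_ ?_))
        · refine and_congr_right fun _ => and_congr_right fun _ => and_congr_right fun _ => ?_
          rw [hneg (2 * e - i' - j) (i' - (2 * e - j)) (by ring), ← hh]; ring_nf
        · refine and_congr_right fun _ => ?_
          rw [hneg (2 * (e : ℤ) - i' - 2 * e - j) (i' - (-j)) (by ring), ← hh]; ring_nf
        · refine and_congr_right fun hj => ?_
          rw [hneg (2 * (e : ℤ) - i' - 2 - e) (i' - (e - 2)) (by ring), ← hh, hj]; push_cast; ring_nf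
        · refine and_congr_right fun hj => ?_
          rw [hneg (2 * (e : ℤ) - i' - e) (i' - e) (by ring), ← hh, hj]; push_cast; ring_nf
    · -- unprimed
      have hα' : ∀ k, α (G.rot k u0) ↔ (m : ℤ) ∣ k := by
        intro k; rw [hα, hD, hD]; simp [NCov_pr, NCov_off]
      have hβ' : ∀ k, β (G.rot k u0) ↔ (m : ℤ) ∣ k := by
        intro k; rw [hβ, hD, hD]; simp [NCov_pr, NCov_off]
      have hαr' : ∀ k, α (G.r (G.rot k u0)) ↔ (m : ℤ) ∣ k + 4 := by
        intro k; rw [hαr, hD, hD]; simp [NCov_pr, NCov_off]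
      have hβr' : ∀ k, β (G.r (G.rot k u0)) ↔ (m : ℤ) ∣ k - 4 := by
        intro k; rw [hβr, hD, hD]; simp [NCov_pr, NCov_off]
      have hred : ∀ (j : ℕ) (P : Prop), ((j ≠ 0 ∧ j ≠ 2 ∧ ¬ isH e j ∧ P) ∨ (isH e j ∧ P)) ↔
          (j ≠ 0 ∧ j ≠ 2 ∧ P) := by
        intro j P
        by_cases hH : isH e j
        · have h0 : j ≠ 0 := fun h => hz0 (h ▸ hH)
          have h2 : j ≠ 2 := fun h => hz2 (h ▸ hH)
          simp [hH, h0, h2]
        · simp [hH]
      constructor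
      · refine (existsUnique_congr fun j => and_congr_right fun _ => ?_).2
          (NCov_two (m := m) (by omega) i')
        rw [hp, ← G.rot_add, hα', hβ', hαr', hβr', ← or_assoc, hred]
        refine or_congr ?_ (or_congr ?_ ?_)
        · refine and_congr_right fun _ => and_congr_right fun _ => ?_
          rw [← hh j]; ring_nf
        · refine and_congr_right fun hj => ?_
          rw [show i' = i' - 0 by ring, ← hh, hj]; push_cast; ring_nf
        · refine and_congr_right fun hj => ?_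
          rw [← hh, hj]; push_cast; ring_nf
      · refine (existsUnique_congr fun j => and_congr_right fun _ => ?_).2
          (NCov_two (m := m) (by omega) (-i'))
        have hneg : ∀ y y' : ℤ, y' = -y → ((m : ℤ) ∣ y ↔ (m : ℤ) ∣ y') := by
          rintro y _ rfl; rw [dvd_neg]
        rw [hp, ← G.rot_add, hα', hβ', hαr', hβr', ← or_assoc, hred]
        refine or_congr ?_ (or_congr ?_ ?_)
        · refine and_congr_right fun _ => and_congr_right fun _ => ?_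
          rw [hneg (-i' - j) (i' - (-j)) (by ring), ← hh]; ring_nf
        · refine and_congr_right fun hj => ?_
          rw [hneg (-i') (i' - 0) (by ring), ← hh, hj]; push_cast; ring_nf
        · refine and_congr_right fun hj => ?_
          rw [hneg (-i' - 2) (i' - (-2)) (by ring), ← hh, hj]; push_cast; ring_nf
  · -- non-exotic vertices
    obtain ⟨⟨i0, hi0⟩, hun⟩ := hM4 x hxN hxe
    have hnD : ∀ i s, ¬ NCov_Dir G e (G.rot i x) s := fun i s h => hxe (NCov_Dir_Exo G h rfl)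
    have hnN : ∀ i, G.rot i x ≠ G.N := by
      intro i h
      apply hxN
      rw [← NCov_rot_neg G i x, h, G.rot_N]
    have hnDr : ∀ i, ¬ (NCov_Dir G e (G.r (G.rot i x)) Ty.pC ∨ NCov_Dir G e (G.r (G.rot i x)) Ty.A) :=
      fun i h => ((NCov_far G (hnN i)).1.1 h).elim (hnD _ _) (hnD _ _)
    have hnDr' : ∀ i, ¬ (NCov_Dir G e (G.r (G.rot i x)) Ty.pB ∨ NCov_Dir G e (G.r (G.rot i x)) Ty.A) :=
      fun i h => ((NCov_far G (hnN i)).2.1 h).elim (hnD _ _) (hnD _ _)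
    have hα : ∀ i, α (G.rot i x) ↔ M (G.rot i x) := fun i =>
      ⟨fun h => h.resolve_right (fun h => h.elim (hnD _ _) (hnD _ _)), Or.inl⟩
    have hβ : ∀ i, β (G.rot i x) ↔ M (G.rot i x) := fun i =>
      ⟨fun h => h.resolve_right (fun h => h.elim (hnD _ _) (hnD _ _)), Or.inl⟩
    have hαr : ∀ i, α (G.r (G.rot i x)) ↔ M (G.rot i x) := fun i =>
      ⟨fun h => (hM2 _).1 (h.resolve_right (hnDr i)), fun h => Or.inl ((hM2 _).2 h)⟩
    have hβr : ∀ i, β (G.r (G.rot i x)) ↔ M (G.rot i x) := fun i =>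
      ⟨fun h => (hM2 _).1 (h.resolve_right (hnDr' i)), fun h => Or.inl ((hM2 _).2 h)⟩
    have hper : ∀ i, M (G.rot (i + m) x) ↔ M (G.rot i x) := by
      intro i
      rw [NCov_rot_congr G (i := i + m) (j := i) (by simp)]
    have hcase : ∀ (j : ℕ) (P : Prop), ((j ≠ 0 ∧ j ≠ 2 ∧ ¬ isH e j ∧ P) ∨ (isH e j ∧ P) ∨
        (j = 2 ∧ P) ∨ (j = 0 ∧ P)) ↔ P := by
      intro j P
      by_cases h0 : j = 0 <;> by_cases h2 : j = 2 <;> by_cases hH : isH e j <;> simp [h0, h2, hH]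
    constructor
    · refine (existsUnique_congr fun j => and_congr_right fun _ => ?_).2
        (idx_neg m hodd (fun i => M (G.rot i x)) hper ⟨i0, hi0⟩ hun)
      rw [hp, hα, hβ, hαr, hβr, hcase]
    · refine (existsUnique_congr fun j => and_congr_right fun _ => ?_).2
        (idx_pos m hodd (fun i => M (G.rot i x)) hper ⟨i0, hi0⟩ hun)
      rw [hp, hα, hβ, hαr, hβr, hcase]

end Pool.Agent.Lib.MP_f406e2_lc_OC
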